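import Pool.Agent.H10.Star
import Pool.Agent.H10.Restr

/-!
Definitions for the two-isogeny descent (no row).
`W a b : y^2 = x (x^2 + a x + b)`, `T = (0, 0)`; the isogenous curve has `a' = -2 a`, `b' = a^2 - 4 b`.
-/

set_option autoImplicit false
open scoped Classical

open WeierstrassCurve IsDedekindDomain NumberField Pool.Agent.H10

namespace H73IS

/-- `W` is the curve `y^2 = x (x^2 + a x + b)`, nonsingular. -/
structure IsTw {k : Type*} [Field k] (W : WeierstrassCurve k) (a b : k) : Prop where
  a₁ : W.a₁ = 0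
  a₂ : W.a₂ = a
  a₃ : W.a₃ = 0
  a₄ : W.a₄ = b
  a₆ : W.a₆ = 0
  hb : b ≠ 0
  hd : a ^ 2 - 4 * b ≠ 0
  two : (2 : k) ≠ 0

lemma IsTw.nonsing {k : Type*} [Field k] {W : WeierstrassCurve k} {a b : k} (h : IsTw W a b) :
    W.toAffine.Nonsingular 0 0 := by
  rw [Affine.nonsingular_iff, Affine.equation_iff, h.a₁, h.a₂, h.a₃, h.a₄, h.a₆]
  refine ⟨by ring, Or.inl ?_⟩
  intro h0
  apply h.hb
  linear_combination -h0

/-- The point `(0, 0)` of order two. -/
def IsTw.T {k : Type*} [Field k] {W : WeierstrassCurve k} {a b : k} (h : IsTw W a b) :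
    W.toAffine.Point := Affine.Point.some 0 0 h.nonsing

/-- The sign of a point: `1` for `0` and the points with `x = 0`, `-1` for all the others. On the
two-torsion points it is the character with kernel `{0, T}`. -/
noncomputable def sg {k : Type*} [Field k] {W : WeierstrassCurve k} : W.toAffine.Point → ℤˣ
  | 0 => 1
  | .some x _ _ => if x = 0 then 1 else -1

/-- The genus one curve `d N^2 = d^2 M^4 + a d M^2 e^2 + b e^4` has a point. -/
def QPt {k : Type*} [Field k] (a b d : k) : Prop :=
  ∃ M e N : k, (M ≠ 0 ∨ e ≠ 0) ∧ d * N ^ 2 = d ^ 2 * M ^ 4 + a * d * M ^ 2 * e ^ 2 + b * e ^ 4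

/-- Soluble at all finite places. -/
def FinQ (K : Type) [Field K] [NumberField K] (a b d : K) : Prop :=
  ∀ v : HeightOneSpectrum (𝓞 K), QPt (algebraMap K (v.adicCompletion K) a)
    (algebraMap K (v.adicCompletion K) b) (algebraMap K (v.adicCompletion K) d)

/-- Soluble at all infinite places. -/
def InfQ (K : Type) [Field K] [NumberField K] (a b d : K) : Prop :=
  ∀ v : InfinitePlace K, QPt (algebraMap K v.Completion a)
    (algebraMap K v.Completion b) (algebraMap K v.Completion d)

/-- No new everywhere soluble classes. -/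
def NewTrivQ (K L : Type) [Field K] [NumberField K] [Field L] [NumberField L] [Algebra K L]
    (a b : L) : Prop :=
  ∀ d : L, d ≠ 0 → FinQ L a b d → InfQ L a b d → IsSquare (Algebra.norm K d) → IsSquare d

/-- `(a, b)` is not of the form `(4 a', 16 b')`. -/
def Red (a b : ℤ) : Prop := ¬ (a % 4 = 0 ∧ b % 16 = 0)

/-- The condition at two: the local image of `x` on `y^2 = x (x^2 + a x + b)` is small. -/
def Small (a b : ℤ) : Prop := a % 2 = 0 ∧ (b - (a / 2) ^ 2) % 4 = 0

/-- The condition at infinity: zero is the smallest or the only real root. -/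
def RPos (a b : ℤ) : Prop := a ^ 2 < 4 * b ∨ (0 < b ∧ a < 0)

end H73IS
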