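import Pool.Agent.H73.IS.Bas

/-!
Row Kum (about 80 lines): the quadratic characters attached to cocycles with two-torsion values.

PROOF. kum: χ σ = sg (f σ) is locally constant (hf.1.comp) and multiplicative: f (σ τ) = f σ + act h σ (f τ), sg_add, sg (act h σ P) = sg P (act is pm, sg_pm); exists_kummer (H10/Kummer.lean) gives r; r^2 is fixed by all σ
 so it is in k (fixed_of_galois in H10/Bridge3.lean). kum_T: the same with χ σ = 1 if f σ = 0, -1 if f σ = T (T is fixed by act: pm_T and algebraMap fixed; T + T = 0; T ≠ 0).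
-/

set_option autoImplicit false
open scoped Classical

open WeierstrassCurve IsDedekindDomain NumberField Pool.Agent.H10

namespace H73IS

variable {k Ω : Type*} [Field k] [Field Ω] [Algebra k Ω] [IsGalois k Ω] {E : WeierstrassCurve Ω}
  {a b : Ω}

lemma Kum_exists (χ : (Ω ≃ₐ[k] Ω) → ℤˣ) (hloc : IsLocallyConstant χ)
    (hmul : ∀ σ τ, χ (σ * τ) = χ σ * χ τ) :
    ∃ (r : Ω) (d : k), r ≠ 0 ∧ r ^ 2 = algebraMap k Ω d ∧ ∀ σ, σ r = ((χ σ : ℤ) : Ω) * r := by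
  obtain ⟨r, hr0, hr⟩ := exists_kummer χ hloc hmul
  obtain ⟨d, hd⟩ := fixed_of_galois (k := k) (r ^ 2) (fun σ => by
    rw [map_pow, hr]
    rcases Int.units_eq_one_or (χ σ) with h | h
    · rw [h]; simp
    · rw [h]; simp)
  exact ⟨r, d, hr0, hd.symm, hr⟩

theorem kum (hE : IsTw E a b) (h : Inv k E) {f : (Ω ≃ₐ[k] Ω) → E.toAffine.Point} (hf : IsCoc h f)
    (h2 : ∀ σ, f σ + f σ = 0) :
    ∃ (r : Ω) (d : k), r ≠ 0 ∧ r ^ 2 = algebraMap k Ω d ∧ ∀ σ, σ r = ((sg (f σ) : ℤ) : Ω) * r := by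
  refine Kum_exists (fun σ => sg (f σ)) (hf.1.comp sg) fun σ τ => ?_
  have h3 : act h σ (f τ) + act h σ (f τ) = 0 := by rw [← map_add, h2, map_zero]
  rw [hf.2, sg_add hE (h2 σ) h3]
  congr 1
  exact sg_pm _ _ _

omit [IsGalois k Ω] in
theorem act_T (hE : IsTw E a b) (h : Inv k E) (σ : Ω ≃ₐ[k] Ω) : act h σ hE.T = hE.T := by
  unfold act IsTw.T
  rw [pm_some, Affine.Point.some.injEq]
  exact ⟨map_zero _, map_zero _⟩

theorem kum_T (hE : IsTw E a b) (h : Inv k E) {f : (Ω ≃ₐ[k] Ω) → E.toAffine.Point}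
    (hf : IsCoc h f) (h2 : ∀ σ, f σ = 0 ∨ f σ = hE.T) :
    ∃ (r : Ω) (d : k), r ≠ 0 ∧ r ^ 2 = algebraMap k Ω d ∧
      ∀ σ, (f σ = 0 → σ r = r) ∧ (f σ = hE.T → σ r = -r) := by
  have hT : hE.T ≠ 0 := Affine.Point.some_ne_zero _
  have hTT : hE.T + hE.T = 0 := T_add_T hE
  obtain ⟨r, d, hr0, hrd, hr⟩ := Kum_exists (fun σ => if f σ = 0 then (1 : ℤˣ) else -1)
    (hf.1.comp fun P => if P = 0 then (1 : ℤˣ) else -1) fun σ τ => by
      simp only [hf.2]
      rcases h2 σ with h3 | h3 <;> rcases h2 τ with h4 | h4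
      · rw [h3, h4, map_zero, add_zero]; simp
      · rw [h3, h4, act_T hE h, zero_add]; simp [hT]
      · rw [h3, h4, map_zero, add_zero]; simp [hT]
      · rw [h3, h4, act_T hE h, hTT]; simp [hT]
  refine ⟨r, d, hr0, hrd, fun σ => ⟨fun h3 => ?_, fun h3 => ?_⟩⟩
  · rw [hr, if_pos h3]; simp
  · rw [hr, if_neg (by rw [h3]; exact hT)]; simp

end H73IS
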