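import Pool.Agent.H73.IS.Bas

/-!
Row Lb (about 120 lines): the same for the group {0, T}: a point on the genus one curve of the isogenous curve a' = -2a, b' = a^2 - 4b.

PROOF. (1) R = 0 or R = T: act τ R = R for all τ, so τ r = r (if act τ R - R = T then T = 0, impossible), r ∈ F and d is a square (QPt.isSquare). fixed elements are in F: fixed_of_galois (H10/Bridge3).
 (2) R = (x, y), x ≠ 0. R + T = (b/x, -b y/x^2) (Affine.Point.add_of_X_ne: slope y/x; when x ≠ 0 the x-coordinates differ from 0). Put u = y/x, v = x - b/x: adding T changes u into -u and v into -v. So τ u = ± u, τ v = ± v with the same sign as r.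
  y ≠ 0: c := u/r ∈ F, N := v/r ∈ F; u^2 = y^2/x^2 = x + a + b/x =: X; X^2 - 2 a X + a^2 - 4 b = (X - a)^2 - 4 b = v^2. So with M = c, e = 1: d^2 c^4 - 2 a d c^2 + (a^2 - 4 b) = X^2 - 2 a X + a^2 - 4b = v^2 = d N^2 (d c^2 = u^2 = X).
  y = 0: x^2 + a x + b = 0, v = x - b/x, v^2 = (x + b/x)^2 - 4 b = a^2 - 4 b ≠ 0; N := v/r ∈ F: M = 0, e = 1: d N^2 = a^2 - 4b.
-/

set_option autoImplicit false
open scoped Classical

open WeierstrassCurve IsDedekindDomain NumberField Pool.Agent.H10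

namespace H73IS

private theorem T_add {k : Type*} [Field k] {W : WeierstrassCurve k} {a b : k} (h : IsTw W a b)
    {x y x' y' : k} (hx : x ≠ 0) (hxy : W.toAffine.Nonsingular x y)
    (hxy' : W.toAffine.Nonsingular x' y')
    (H : Affine.Point.some x' y' hxy' = h.T + Affine.Point.some x y hxy) :
    x' = b / x ∧ y' = -(b * y / x ^ 2) := by
  have he := hxy.1
  rw [Affine.equation_iff, h.a₁, h.a₂, h.a₃, h.a₄, h.a₆] at he
  unfold IsTw.T at H
  rw [Affine.Point.add_of_X_ne hx.symm, Affine.Point.some.injEq] at H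
  have hs : W.toAffine.slope 0 x 0 y = y / x := by
    rw [Affine.slope_of_X_ne hx.symm, zero_sub, zero_sub, neg_div_neg_eq]
  obtain ⟨H1, H2⟩ := H
  have hX : x' = b / x := by
    rw [H1, hs, Affine.addX, h.a₁, h.a₂]
    field_simp
    linear_combination he
  refine ⟨hX, ?_⟩
  rw [H2, Affine.addY, ← H1, hs, Affine.negY, Affine.negAddY, hs.symm, ← H1, hs, hX, h.a₁, h.a₃]
  field_simp
  ring

theorem lb {F Ω : Type*} [Field F] [Field Ω] [Algebra F Ω] [IsGalois F Ω]
    {E : WeierstrassCurve Ω} (h : Inv F E) {a b d : F}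
    (hE : IsTw E (algebraMap F Ω a) (algebraMap F Ω b)) {r : Ω} (hr : r ≠ 0)
    (hd : r ^ 2 = algebraMap F Ω d) (R : E.toAffine.Point)
    (hs : ∀ τ : Ω ≃ₐ[F] Ω, (act h τ R - R = 0 ∧ τ r = r) ∨ (act h τ R - R = hE.T ∧ τ r = -r)) :
    QPt (-2 * a) (a ^ 2 - 4 * b) d := by
  have hd0 : d ≠ 0 := by
    rintro rfl
    rw [map_zero] at hd
    exact hr (pow_eq_zero_iff two_ne_zero |>.1 hd)
  have hT0 : (hE.T : E.toAffine.Point) ≠ 0 := by
    unfold IsTw.T
    exact Affine.Point.some_ne_zero _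
  have key : (∀ τ : Ω ≃ₐ[F] Ω, act h τ R - R = 0) → QPt (-2 * a) (a ^ 2 - 4 * b) d := by
    intro h0
    have h1 : ∀ τ : Ω ≃ₐ[F] Ω, τ r = r := by
      intro τ
      rcases hs τ with h2 | h2
      · exact h2.2
      · exact absurd (h2.1.symm.trans (h0 τ)) hT0
    obtain ⟨s, hs'⟩ := fixed_of_galois r h1
    apply QPt.isSquare hd0
    refine ⟨s, (algebraMap F Ω).injective ?_⟩
    rw [map_mul, hs', ← hd, sq]
  rcases R with _ | ⟨x, y, hxy⟩
  · apply key
    intro τ
    change act h τ 0 - 0 = 0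
    rw [map_zero, sub_zero]
  have he := hxy.1
  rw [Affine.equation_iff, hE.a₁, hE.a₂, hE.a₃, hE.a₄, hE.a₆] at he
  by_cases hx : x = 0
  · subst hx
    have hy : y = 0 := by
      have h2 : y ^ 2 = 0 := by linear_combination he
      exact pow_eq_zero_iff two_ne_zero |>.1 h2
    subst hy
    apply key
    intro τ
    unfold act
    rw [pm_some, sub_eq_zero, Affine.Point.some.injEq]
    exact ⟨map_zero _, map_zero _⟩
  set α : Ω := algebraMap F Ω a with hα
  set β : Ω := algebraMap F Ω b with hβ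
  have hβ0 : β ≠ 0 := hE.hb
  have hu : ∀ τ : Ω ≃ₐ[F] Ω, τ (y / x / r) = y / x / r ∧ τ ((x - β / x) / r) = (x - β / x) / r := by
    intro τ
    have hτβ : τ β = β := τ.commutes b
    rcases hs τ with ⟨h1, h2⟩ | ⟨h1, h2⟩
    · rw [sub_eq_zero] at h1
      unfold act at h1
      rw [pm_some, Affine.Point.some.injEq] at h1
      have hx1 : τ x = x := h1.1
      have hy1 : τ y = y := h1.2
      rw [map_div₀, map_div₀, map_div₀, map_sub, map_div₀, hx1, hy1, h2, hτβ]
      exact ⟨rfl, rfl⟩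
    · rw [sub_eq_iff_eq_add] at h1
      unfold act at h1
      rw [pm_some] at h1
      obtain ⟨h3, h4⟩ := T_add hE hx hxy _ h1
      have hx1 : τ x = β / x := h3
      have hy1 : τ y = -(β * y / x ^ 2) := h4
      rw [map_div₀, map_div₀, map_div₀, map_sub, map_div₀, hx1, hy1, h2, hτβ]
      constructor
      · field_simp
      · field_simp
        ring
  obtain ⟨M, hM⟩ := fixed_of_galois _ (fun τ => (hu τ).1)
  obtain ⟨N, hN⟩ := fixed_of_galois _ (fun τ => (hu τ).2)
  refine ⟨M, 1, N, Or.inr one_ne_zero, (algebraMap F Ω).injective ?_⟩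
  simp only [map_add, map_mul, map_pow, map_sub, map_neg, map_one, map_ofNat, hM, hN, ← hd, ← hα,
    ← hβ]
  have h5 : (y / x) ^ 2 = x + α + β / x := by
    field_simp
    linear_combination he
  have h6 : r ^ 2 * ((x - β / x) / r) ^ 2 = (x - β / x) ^ 2 := by
    field_simp
  have h7 : r ^ 2 * (y / x / r) ^ 2 = (y / x) ^ 2 := by
    field_simp
  have h8 : (x - β / x) ^ 2 = (x + β / x) ^ 2 - 4 * β := by
    field_simp
    ring
  calc r ^ 2 * ((x - β / x) / r) ^ 2 = (x + β / x) ^ 2 - 4 * β := by rw [h6, h8]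
    _ = (r ^ 2 * (y / x / r) ^ 2) ^ 2 - 2 * α * (r ^ 2 * (y / x / r) ^ 2) + (α ^ 2 - 4 * β) := by
      rw [h7, h5]
      ring
    _ = _ := by ring

end H73IS
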