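import Pool.Agent.H73.IS.La
import Pool.Agent.H73.IS.Lb

/-!
Row Loc (about 110 lines): everywhere local solubility from local triviality.

PROOF. A common lemma for one completion F (v.adicCompletion K or v.Completion; [Algebra K F], CharZero F by charZero_of_alg in H10/Func6, so AlgebraicClosure F is Galois over F): take ι : K^al →ₐ[K] F^al (exists_embedding, H10/Hasse), TrivAt from
 isLocTriv_iff (H10/Func4), i.e. P with pm ι (f σ) = act τ P - P whenever τ (ι x) = ι (σ x) for all x. For every τ such a σ exists: exists_restrict (H10/Sha). Apply la (resp. lb) with F, Ω := AlgebraicClosure F, E := V.baseChange F^al, h := inv_bc' V,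
 a := algebraMap K F a, ..., r := ι r, R := P: τ (ι r) = ι (σ r) = sg (f σ) ι r and sg (pm ι (f σ)) = sg (f σ) (sg_pm); (act τ P - P) + (act τ P - P) = pm ι (f σ + f σ) = 0. hE: IsTw.up along algebraMap K F^al = (algebraMap F F^al) ∘ (algebraMap K F), rewriting the coefficients.
 loc_b: f σ = 0 or f σ = T (T = the point (0,0) of V.baseChange K^al, pm ι T = T by pm_T).
-/

set_option autoImplicit false
open scoped Classical

open WeierstrassCurve IsDedekindDomain NumberField Pool.Agent.H10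

namespace H73IS

variable {K : Type} [Field K] [NumberField K] {V : WeierstrassCurve K} {a b : K}

/-- The curve over the algebraic closure. -/
theorem IsTw.bc (h : IsTw V a b) (Ω : Type*) [Field Ω] [Algebra K Ω] :
    IsTw (V.baseChange Ω) (algebraMap K Ω a) (algebraMap K Ω b) :=
  h.up rfl

theorem Loc_tw {F : Type} [Field F] [Algebra K F] (h : IsTw V a b) :
    IsTw (V.baseChange (AlgebraicClosure F))
      (algebraMap F (AlgebraicClosure F) (algebraMap K F a))
      (algebraMap F (AlgebraicClosure F) (algebraMap K F b)) := by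
  have h1 := h.bc (AlgebraicClosure F)
  rw [IsScalarTower.algebraMap_apply K F (AlgebraicClosure F) a,
    IsScalarTower.algebraMap_apply K F (AlgebraicClosure F) b] at h1
  exact h1

theorem Loc_res {F : Type} [Field F] [Algebra K F]
    (ι : AlgebraicClosure K →ₐ[K] AlgebraicClosure F)
    (τ : AlgebraicClosure F ≃ₐ[F] AlgebraicClosure F) :
    ∃ σ : AlgebraicClosure K ≃ₐ[K] AlgebraicClosure K, ∀ x, τ (ι x) = ι (σ x) := by
  obtain ⟨σ, hσ⟩ := exists_restrict (K := K) (F := F) ι τ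
  refine ⟨σ, fun x => ?_⟩
  exact congrArg (fun φ : AlgebraicClosure K →ₐ[K] AlgebraicClosure F => φ x) hσ

theorem Loc_a {F : Type} [Field F] [Algebra K F] (h : IsTw V a b) {f : Coch K V}
    (ι : AlgebraicClosure K →ₐ[K] AlgebraicClosure F)
    (hT : TrivAt (F := F) (inv_bc' V) (ι : AlgebraicClosure K →+* AlgebraicClosure F)
      (map_bc V ι) f)
    (h2 : ∀ σ, f σ + f σ = 0) {r : AlgebraicClosure K} {d : K} (hr : r ≠ 0)
    (hd : r ^ 2 = algebraMap K (AlgebraicClosure K) d)
    (hs : ∀ σ : AlgebraicClosure K ≃ₐ[K] AlgebraicClosure K,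
      σ r = ((sg (f σ) : ℤ) : AlgebraicClosure K) * r) :
    QPt (algebraMap K F a) (algebraMap K F b) (algebraMap K F d) := by
  obtain ⟨P, hP⟩ := hT
  have hch : CharZero F := charZero_of_alg (K := K)
  have hr' : ι r ≠ 0 := by
    intro h0
    exact hr ((map_eq_zero_iff ι ι.injective).1 h0)
  have hd' : (ι r) ^ 2 = algebraMap F (AlgebraicClosure F) (algebraMap K F d) := by
    rw [← map_pow, hd, ι.commutes, IsScalarTower.algebraMap_apply K F (AlgebraicClosure F)]
  refine la (F := F) (Ω := AlgebraicClosure F) (inv_bc' V) (Loc_tw h) hr' hd' P ?_ ?_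
  · intro τ
    obtain ⟨σ, hσ⟩ := Loc_res ι τ
    rw [← hP τ σ hσ, ← map_add, h2, map_zero]
  · intro τ
    obtain ⟨σ, hσ⟩ := Loc_res ι τ
    rw [← hP τ σ hσ, sg_pm, hσ, hs, map_mul, map_intCast]

theorem Loc_b {F : Type} [Field F] [Algebra K F] (h : IsTw V a b) {f : Coch K V}
    (ι : AlgebraicClosure K →ₐ[K] AlgebraicClosure F)
    (hT : TrivAt (F := F) (inv_bc' V) (ι : AlgebraicClosure K →+* AlgebraicClosure F)
      (map_bc V ι) f)
    {r : AlgebraicClosure K} {d : K} (hr : r ≠ 0)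
    (hd : r ^ 2 = algebraMap K (AlgebraicClosure K) d)
    (hs : ∀ σ : AlgebraicClosure K ≃ₐ[K] AlgebraicClosure K, (f σ = 0 ∧ σ r = r) ∨
      (f σ = (h.bc (AlgebraicClosure K)).T ∧ σ r = -r)) :
    QPt (algebraMap K F (-2 * a)) (algebraMap K F (a ^ 2 - 4 * b)) (algebraMap K F d) := by
  obtain ⟨P, hP⟩ := hT
  have hch : CharZero F := charZero_of_alg (K := K)
  have hr' : ι r ≠ 0 := by
    intro h0
    exact hr ((map_eq_zero_iff ι ι.injective).1 h0)
  have hd' : (ι r) ^ 2 = algebraMap F (AlgebraicClosure F) (algebraMap K F d) := by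
    rw [← map_pow, hd, ι.commutes, IsScalarTower.algebraMap_apply K F (AlgebraicClosure F)]
  have e1 : algebraMap K F (-2 * a) = -2 * algebraMap K F a := by
    rw [map_mul, map_neg, map_ofNat]
  have e2 : algebraMap K F (a ^ 2 - 4 * b) = (algebraMap K F a) ^ 2 - 4 * algebraMap K F b := by
    rw [map_sub, map_mul, map_pow, map_ofNat]
  rw [e1, e2]
  refine lb (F := F) (Ω := AlgebraicClosure F) (inv_bc' V) (Loc_tw h) hr' hd' P ?_
  intro τ
  obtain ⟨σ, hσ⟩ := Loc_res ι τ
  rcases hs σ with ⟨h1, h3⟩ | ⟨h1, h3⟩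
  · left
    refine ⟨?_, ?_⟩
    · rw [← hP τ σ hσ, h1, map_zero]
    · rw [hσ, h3]
  · right
    refine ⟨?_, ?_⟩
    · rw [← hP τ σ hσ, h1, pm_T]
      rfl
    · rw [hσ, h3, map_neg]

theorem loc_a (h : IsTw V a b) {f : Coch K V} (hl : IsLocTriv K V f)
    (h2 : ∀ σ, f σ + f σ = 0) {r : AlgebraicClosure K} {d : K} (hr : r ≠ 0)
    (hd : r ^ 2 = algebraMap K (AlgebraicClosure K) d)
    (hs : ∀ σ : AlgebraicClosure K ≃ₐ[K] AlgebraicClosure K,
      σ r = ((sg (f σ) : ℤ) : AlgebraicClosure K) * r) : FinQ K a b d ∧ InfQ K a b d := by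
  rw [isLocTriv_iff] at hl
  constructor
  · intro v
    obtain ⟨ι⟩ := exists_embedding K (v.adicCompletion K)
    exact Loc_a h ι (hl.1 v ι) h2 hr hd hs
  · intro v
    obtain ⟨ι⟩ := exists_embedding K v.Completion
    exact Loc_a h ι (hl.2 v ι) h2 hr hd hs

theorem loc_b (h : IsTw V a b) {f : Coch K V} (hl : IsLocTriv K V f)
    {r : AlgebraicClosure K} {d : K} (hr : r ≠ 0)
    (hd : r ^ 2 = algebraMap K (AlgebraicClosure K) d)
    (hs : ∀ σ : AlgebraicClosure K ≃ₐ[K] AlgebraicClosure K, (f σ = 0 ∧ σ r = r) ∨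
      (f σ = (h.bc (AlgebraicClosure K)).T ∧ σ r = -r)) :
    FinQ K (-2 * a) (a ^ 2 - 4 * b) d ∧ InfQ K (-2 * a) (a ^ 2 - 4 * b) d := by
  rw [isLocTriv_iff] at hl
  constructor
  · intro v
    obtain ⟨ι⟩ := exists_embedding K (v.adicCompletion K)
    exact Loc_b h ι (hl.1 v ι) hr hd hs
  · intro v
    obtain ⟨ι⟩ := exists_embedding K v.Completion
    exact Loc_b h ι (hl.2 v ι) hr hd hs

end H73IS
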