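import Pool.Agent.H73.IS.Cnj
import Pool.Agent.H73.IS.Kum
import Pool.Agent.H73.IS.Loc

/-!
Row I1 (about 130 lines): the conjugate of an everywhere locally trivial two-torsion valued cocycle.

Sl: cocycles, locally trivial, values killed by two. Sl.sub: ShaZ is a subgroup (H10/Func7). Sl.cj: isCoc_cj (through isCocycle_iff), isLocTriv_cj, cj_two.
PROOF of i1. f with kum (for k := L): r, d, r^2 = d, τ r = sg (f τ) r. Put t := cj g f - f, in Sl. For r' := g r * r: τ (g r) = g (cjg g τ r) = sg (f (cjg g τ)) g r (cjg_spec, map_mul, map_intCast), and sg (t τ) = sg (cj g f τ) sg (f τ) (sg_add with -f τ = f τ),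
 so τ r' = sg (t τ) r'. r'^2 = algebraMap (d' d), d' from exists_conj_elt for y = d, norm (d' d) = (norm d)^2 is a square. loc_a for t, r', d' d: FinQ, InfQ over L. By H: d' d = s^2 in L, d' d ≠ 0, so r' = ± s is fixed by all τ and sg (t τ) = 1
 (if sg = -1 then r' = -r', 2 r' = 0, r' = 0). V' is IsTw with algebraMap K L a, algebraMap K L b: IsTw.up.
PROOF of i2: the same with kum_T for t: r1, e; t' := cj g t - t has values in {0, T} (act fixes T: act_T), r' = g r1 * r1, τ r' = r' if t' τ = 0, -r' if t' τ = T. loc_b gives FinQ, InfQ for (-2a, a^2-4b), so e' e is a square, r' ∈ L, hence t' τ = 0 for all τ.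
-/

set_option autoImplicit false
open scoped Classical

open WeierstrassCurve IsDedekindDomain NumberField Pool.Agent.H10

namespace H73IS

/-- A square root of a square of the base field is fixed. -/
theorem I1_fix {L Ω : Type*} [Field L] [Field Ω] [Algebra L Ω] {r : Ω} {d s : L}
    (hd : r ^ 2 = algebraMap L Ω d) (hs : d = s * s) (τ : Ω ≃ₐ[L] Ω) : τ r = r := by
  have h1 : r ^ 2 = (algebraMap L Ω s) ^ 2 := by rw [hd, hs, map_mul, sq]
  rcases sq_eq_sq_iff_eq_or_eq_neg.1 h1 with h2 | h2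
  · rw [h2, τ.commutes]
  · rw [h2, map_neg, τ.commutes]

/-- Everywhere locally trivial cocycles with two-torsion values. -/
def Sl (L : Type) [Field L] [NumberField L] (V' : WeierstrassCurve L) (f : Coch L V') : Prop :=
  IsCocycle L V' f ∧ IsLocTriv L V' f ∧ ∀ σ, f σ + f σ = 0

theorem Sl.sub {L : Type} [Field L] [NumberField L] {V' : WeierstrassCurve L} {f f' : Coch L V'}
    (h : Sl L V' f) (h' : Sl L V' f') : Sl L V' (f - f') := by
  have h1 := (ShaZ L V').sub_mem (x := f) (y := f') ⟨h.1, h.2.1⟩ ⟨h'.1, h'.2.1⟩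
  refine ⟨h1.1, h1.2, fun σ => ?_⟩
  have e1 := h.2.2 σ
  have e2 := h'.2.2 σ
  have e3 : (f - f') σ + (f - f') σ = (f σ + f σ) - (f' σ + f' σ) := by
    rw [Pi.sub_apply]
    abel
  rw [e3, e1, e2, sub_zero]

section

variable {K L : Type} [Field K] [NumberField K] [Field L] [NumberField L] [Algebra K L]
  [Normal K L] {V : WeierstrassCurve K} {V' : WeierstrassCurve L} {a b : K}

theorem Sl.cj (hV : V.map (algebraMap K L) = V') {f : Coch L V'} (h : Sl L V' f)
    (g : AlgebraicClosure L ≃ₐ[K] AlgebraicClosure L) : Sl L V' (cj (inv_up hV) g f) := by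
  refine ⟨(isCocycle_iff _).2 (isCoc_cj (inv_up hV) g ((isCocycle_iff f).1 h.1)),
    isLocTriv_cj hV h.1 h.2.1 g, fun τ => cj_two (inv_up hV) g h.2.2 τ⟩

theorem i1 (h : IsTw V a b) (hV : V.map (algebraMap K L) = V')
    (H : NewTrivQ K L (algebraMap K L a) (algebraMap K L b)) {f : Coch L V'} (hf : Sl L V' f)
    (g : AlgebraicClosure L ≃ₐ[K] AlgebraicClosure L)
    (τ : AlgebraicClosure L ≃ₐ[L] AlgebraicClosure L) :
    sg (H73IS.cj (inv_up hV) g f τ - f τ) = 1 := by
  have hE := (h.up hV).bc (AlgebraicClosure L)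
  obtain ⟨r, d, hr, hd, hs⟩ := kum hE (inv_bc L V') ((isCocycle_iff f).1 hf.1) hf.2.2
  obtain ⟨d', hd', hn⟩ := exists_conj_elt (K := K) g d
  have ht : Sl L V' (H73IS.cj (inv_up hV) g f - f) := (hf.cj hV g).sub hf
  have hsg : ∀ τ, sg ((H73IS.cj (inv_up hV) g f - f) τ) = sg (f (cjg g τ)) * sg (f τ) := by
    intro τ
    have e1 : -f τ = f τ := neg_eq_of_add_eq_zero_left (hf.2.2 τ)
    rw [Pi.sub_apply, sub_eq_add_neg, e1,
      sg_add hE (cj_two (inv_up hV) g hf.2.2 τ) (hf.2.2 τ), sg_cj]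
  have hτ : ∀ τ : AlgebraicClosure L ≃ₐ[L] AlgebraicClosure L, τ (g r * r) =
      ((sg ((H73IS.cj (inv_up hV) g f - f) τ) : ℤ) : AlgebraicClosure L) * (g r * r) := by
    intro τ
    rw [map_mul, ← cjg_spec g τ r, hs, hs τ, map_mul, map_intCast, hsg]
    push_cast
    ring
  have hr' : g r * r ≠ 0 := mul_ne_zero (fun h0 => hr ((map_eq_zero g).1 h0)) hr
  have hd2 : (g r * r) ^ 2 = algebraMap L (AlgebraicClosure L) (d' * d) := by
    rw [mul_pow, ← map_pow, hd, hd', map_mul]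
  obtain ⟨hF, hI⟩ := loc_a (h.up hV) ht.2.1 ht.2.2 hr' hd2 hτ
  have hdd : d' * d ≠ 0 := by
    intro h0
    rw [h0, map_zero] at hd2
    exact hr' (pow_eq_zero_iff (two_ne_zero)|>.1 hd2)
  obtain ⟨s, hs2⟩ := H (d' * d) hdd hF hI (by rw [map_mul, hn]; exact ⟨_, rfl⟩)
  have hfix : τ (g r * r) = g r * r := I1_fix hd2 hs2 τ
  rcases Int.units_eq_one_or (sg (H73IS.cj (inv_up hV) g f τ - f τ)) with h1 | h1
  · exact h1
  · exfalso
    have h2 := hτ τ
    rw [Pi.sub_apply, h1, hfix] at h2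
    push_cast at h2
    apply hr'
    have h3 : (2 : AlgebraicClosure L) * (g r * r) = 0 := by linear_combination h2
    rcases mul_eq_zero.1 h3 with h4 | h4
    · exact absurd h4 two_ne_zero
    · exact h4

theorem i2 (h : IsTw V a b) (hV : V.map (algebraMap K L) = V')
    (H : NewTrivQ K L (algebraMap K L (-2 * a)) (algebraMap K L (a ^ 2 - 4 * b)))
    {t : Coch L V'} (ht : Sl L V' t) (ht1 : ∀ τ, sg (t τ) = 1)
    (g : AlgebraicClosure L ≃ₐ[K] AlgebraicClosure L) : H73IS.cj (inv_up hV) g t = t := by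
  have hE := (h.up hV).bc (AlgebraicClosure L)
  have hv : ∀ σ, t σ = 0 ∨ t σ = hE.T := fun σ => sg_one hE (ht.2.2 σ) (ht1 σ)
  obtain ⟨r, d, hr, hd, hs⟩ := kum_T hE (inv_bc L V') ((isCocycle_iff t).1 ht.1) hv
  obtain ⟨d', hd', hn⟩ := exists_conj_elt (K := K) g d
  have ht' : Sl L V' (H73IS.cj (inv_up hV) g t - t) := (ht.cj hV g).sub ht
  have hactT : act (inv_up hV) g hE.T = hE.T := pm_T hE _
  have hTT : hE.T + hE.T = 0 := T_add_T hE
  have hnT : -hE.T = hE.T := neg_eq_of_add_eq_zero_left hTT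
  have hτ : ∀ τ : AlgebraicClosure L ≃ₐ[L] AlgebraicClosure L,
      ((H73IS.cj (inv_up hV) g t - t) τ = 0 ∧ τ (g r * r) = g r * r) ∨
      ((H73IS.cj (inv_up hV) g t - t) τ = ((h.up hV).bc (AlgebraicClosure L)).T ∧
        τ (g r * r) = -(g r * r)) := by
    intro τ
    have e1 : (H73IS.cj (inv_up hV) g t - t) τ = act (inv_up hV) g (t (cjg g τ)) - t τ := rfl
    rw [e1, map_mul, ← cjg_spec g τ r]
    rcases hv (cjg g τ) with h1 | h1 <;> rcases hv τ with h2 | h2
    · left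
      rw [h1, h2, (hs _).1 h1, (hs _).1 h2, map_zero, sub_zero]
      exact ⟨rfl, rfl⟩
    · right
      rw [h1, h2, (hs _).1 h1, (hs _).2 h2, map_zero, zero_sub, hnT]
      exact ⟨rfl, by ring⟩
    · right
      rw [h1, h2, (hs _).2 h1, (hs _).1 h2, hactT, sub_zero]
      exact ⟨rfl, by rw [map_neg]; ring⟩
    · left
      rw [h1, h2, (hs _).2 h1, (hs _).2 h2, hactT, sub_self]
      exact ⟨rfl, by rw [map_neg]; ring⟩
  have hr' : g r * r ≠ 0 := mul_ne_zero (fun h0 => hr ((map_eq_zero g).1 h0)) hr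
  have hd2 : (g r * r) ^ 2 = algebraMap L (AlgebraicClosure L) (d' * d) := by
    rw [mul_pow, ← map_pow, hd, hd', map_mul]
  obtain ⟨hF, hI⟩ := loc_b (h.up hV) ht'.2.1 hr' hd2 hτ
  have hdd : d' * d ≠ 0 := by
    intro h0
    rw [h0, map_zero] at hd2
    exact hr' (pow_eq_zero_iff (two_ne_zero)|>.1 hd2)
  have e2 : algebraMap K L 2 = 2 := map_ofNat _ 2
  have e4 : algebraMap K L 4 = 4 := map_ofNat _ 4
  have ea : algebraMap K L (-2 * a) = -2 * algebraMap K L a := by
    rw [map_mul, map_neg, e2]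
  have eb : algebraMap K L (a ^ 2 - 4 * b) = (algebraMap K L a) ^ 2 - 4 * algebraMap K L b := by
    rw [map_sub, map_pow, map_mul, e4]
  rw [ea, eb] at H
  obtain ⟨s, hs2⟩ := H (d' * d) hdd hF hI (by rw [map_mul, hn]; exact ⟨_, rfl⟩)
  rw [← sub_eq_zero]
  funext τ
  have hfix : τ (g r * r) = g r * r := I1_fix hd2 hs2 τ
  rcases hτ τ with ⟨h1, -⟩ | ⟨-, h2⟩
  · rw [h1]
    rfl
  · exfalso
    rw [hfix] at h2
    apply hr'
    have h3 : (2 : AlgebraicClosure L) * (g r * r) = 0 := by linear_combination h2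
    rcases mul_eq_zero.1 h3 with h4 | h4
    · exact absurd h4 two_ne_zero
    · exact h4

end

end H73IS
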