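import Pool.Agent.H73.IS.La

/-!
Row Mul (about 150 lines): the soluble classes form a group.

PROOF. mul_lc (converse of la): given M, e, N and r with r^2 = d ∈ F, find R over Ω with all act τ R - R two-torsion and τ r = sg(...) r. e = 0: d N^2 = d^2 M^4, M ≠ 0: d is a square in F, r = ± an element of F, τ r = r: R = 0.
 M = 0 (e ≠ 0): d N^2 = b e^4, N ≠ 0. R = half 0 0 s2 s3 with s2^2 = -e2, s3^2 = -e3, s2 s3 =: x, x^2 = b; x = ± r N/e^2 · (sign) so τ x/x = τ r/r; act τ R has x-coordinate τ x... R = (x, y), x = s2 s3, with 2R = T (half_add_half); act τ R - R is killed by 2 because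
  2 act τ R = act τ T = T; and act τ R = R + S, the x-coordinate of R + S is sg(S) x (half_add_T₁, T₂, T₃ with s1 = 0), so τ x = sg(S) x. M, e ≠ 0: X = d (M/e)^2, Y = d M N/e^3, P = (X, Y) ∈ E(F), Y^2 = X(X^2 + aX + b); take R = half X s1 s2 s3 with
  s1 = r M/e, s2^2 = X - e2, s3^2 = X - e3 and s1 s2 s3 = Y (choose the sign of s3; if Y = 0 any signs), so 2 R = P is fixed and u(R) := (x^2-b)/(2y) = s1 satisfies τ s1 = sg(act τ R - R) s1 as in La (prove u(R + S) = sg(S) u(R)).
mul: in Ω = AlgebraicClosure F (char 0, so Galois), E the curve with coefficients from F: r_i, R_i from mul_lc; R = R1 + R2, r = r1 r2: act τ R - R = (act τ R1 - R1) + (act τ R2 - R2), sg_add; apply la.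
-/

set_option autoImplicit false
open scoped Classical

open WeierstrassCurve IsDedekindDomain NumberField Pool.Agent.H10

namespace H73IS

private theorem Mul_cub {k : Type*} [Field k] {W : WeierstrassCurve k} {a b : k}
    (h : IsTw W a b) {X t w q : k} (ht : t ^ 2 = 2 * X + a + 2 * w)
    (hw : w ^ 2 = X ^ 2 + a * X + b) (hq : q ^ 2 = t ^ 2 - 4 * w) :
    IsCub W 0 (X - ((t + q) / 2) ^ 2) (X - ((t - q) / 2) ^ 2) := by
  have two := h.two
  have four : (4 : k) ≠ 0 := by
    have : (4 : k) = 2 * 2 := by norm_num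
    rw [this]
    exact mul_ne_zero two two
  have hs : (X - ((t + q) / 2) ^ 2) + (X - ((t - q) / 2) ^ 2) = -a := by
    have : (X - ((t + q) / 2) ^ 2) + (X - ((t - q) / 2) ^ 2) = 2 * X - (t ^ 2 + q ^ 2) / 2 := by
      field_simp
      ring
    rw [this, hq, ht]
    field_simp
    ring
  have hp : (X - ((t + q) / 2) ^ 2) * (X - ((t - q) / 2) ^ 2) = b := by
    have : (X - ((t + q) / 2) ^ 2) * (X - ((t - q) / 2) ^ 2) =
        X ^ 2 - X * ((t ^ 2 + q ^ 2) / 2) + ((t ^ 2 - q ^ 2) / 4) ^ 2 := by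
      field_simp
      ring
    rw [this, hq]
    have h1 : (t ^ 2 - (t ^ 2 - 4 * w)) / 4 = w := by
      field_simp
      ring
    have h2 : (t ^ 2 + (t ^ 2 - 4 * w)) / 2 = t ^ 2 - 2 * w := by
      field_simp
      ring
    rw [h1, h2, ht]
    linear_combination hw
  generalize (X - ((t + q) / 2) ^ 2) = e₂ at hs hp ⊢
  generalize (X - ((t - q) / 2) ^ 2) = e₃ at hs hp ⊢
  refine ⟨h.a₁, ?_, h.a₃, ?_, ?_, ?_, ?_, ?_, two⟩
  · rw [h.a₂]
    linear_combination hs
  · rw [h.a₄]
    linear_combination -hp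
  · rw [h.a₆]
    ring
  · intro h0
    apply h.hb
    rw [← hp, ← h0, zero_mul]
  · intro h0
    apply h.hb
    rw [← hp, ← h0, mul_zero]
  · intro h0
    apply h.hd
    rw [h0] at hs hp
    linear_combination (a - 2 * e₃) * hs + 4 * hp

private theorem Mul_sq_half {k : Type*} [Field k] {X s : k} : s ^ 2 = X - (X - s ^ 2) := by ring

theorem mul_lc {F Ω : Type*} [Field F] [Field Ω] [Algebra F Ω] [IsGalois F Ω] [IsAlgClosed Ω]
    {E : WeierstrassCurve Ω} (h : Inv F E) {a b d : F}
    (hE : IsTw E (algebraMap F Ω a) (algebraMap F Ω b)) {r : Ω} (hr : r ≠ 0)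
    (hd : r ^ 2 = algebraMap F Ω d) (H : QPt a b d) :
    ∃ R : E.toAffine.Point, ∀ τ : Ω ≃ₐ[F] Ω, (act h τ R - R) + (act h τ R - R) = 0 ∧
      τ r = ((sg (act h τ R - R) : ℤ) : Ω) * r := by
  obtain ⟨M, e, N, hMe, hN⟩ := H
  have hd0 : d ≠ 0 := by
    rintro rfl
    rw [map_zero] at hd
    exact hr (pow_eq_zero_iff (two_ne_zero)|>.1 hd)
  -- the sign of `τ` on `r`
  have hsgn : ∀ τ : Ω ≃ₐ[F] Ω, τ r = r ∨ τ r = -r := by
    intro τ
    refine sq_eq_sq_iff_eq_or_eq_neg.1 ?_
    rw [← map_pow, hd, τ.commutes]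
  by_cases he : e = 0
  · subst he
    have hM : M ≠ 0 := hMe.resolve_right (fun h => h rfl)
    have h1 : (algebraMap F Ω (N / M ^ 2)) ^ 2 = r ^ 2 := by
      rw [← map_pow, hd]
      congr 1
      rw [div_pow, div_eq_iff (by positivity)]
      have : d * N ^ 2 = d * (d * (M ^ 2) ^ 2) := by linear_combination hN
      exact mul_left_cancel₀ hd0 this
    have h2 : ∀ τ : Ω ≃ₐ[F] Ω, τ r = r := by
      intro τ
      rcases sq_eq_sq_iff_eq_or_eq_neg.1 h1 with h3 | h3
      · rw [← h3, τ.commutes]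
      · have h4 : r = -algebraMap F Ω (N / M ^ 2) := by rw [h3, neg_neg]
        rw [h4, map_neg, τ.commutes]
    refine ⟨0, fun τ => ⟨?_, ?_⟩⟩
    · rw [map_zero, sub_zero, add_zero]
    · rw [map_zero, sub_zero, sg_zero, h2]
      simp
  -- the main case
  have two := hE.two
  set c : F := M / e with hc
  set n : F := N / e ^ 2 with hn
  have hcn : d * n ^ 2 = d ^ 2 * c ^ 4 + a * d * c ^ 2 + b := by
    rw [hc, hn]
    field_simp
    linear_combination hN
  set s1 : Ω := r * algebraMap F Ω c with hs1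
  set w : Ω := r * algebraMap F Ω n with hw
  set X : Ω := algebraMap F Ω (d * c ^ 2) with hX
  have hs1X : s1 ^ 2 = X := by
    rw [hs1, hX, mul_pow, hd, map_mul, map_pow]
  have hwX : w ^ 2 = X ^ 2 + algebraMap F Ω a * X + algebraMap F Ω b := by
    rw [hw, hX, mul_pow, hd]
    simp only [← map_pow, ← map_mul, ← map_add]
    congr 1
    linear_combination hcn
  obtain ⟨t, ht⟩ := IsAlgClosed.exists_pow_nat_eq (2 * X + algebraMap F Ω a + 2 * w)
    (n := 2) (by norm_num)
  obtain ⟨q0, hq0⟩ := IsAlgClosed.exists_pow_nat_eq (t ^ 2 - 4 * w) (n := 2) (by norm_num)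
  have hns : E.toAffine.Nonsingular (X + s1 * t + w) ((X + s1 * t + w) * t) := by
    have h1 := (Mul_cub hE ht hwX hq0).nonsingular
      (IsCub.half_eq (x := X) (s₁ := s1) (s₂ := (t + q0) / 2) (s₃ := (t - q0) / 2)
        (by rw [hs1X, sub_zero]) Mul_sq_half Mul_sq_half)
    have e1 : X + s1 * ((t + q0) / 2) + s1 * ((t - q0) / 2) + (t + q0) / 2 * ((t - q0) / 2) =
        X + s1 * t + w := by
      have : X + s1 * ((t + q0) / 2) + s1 * ((t - q0) / 2) + (t + q0) / 2 * ((t - q0) / 2) =
        X + s1 * t + (t ^ 2 - q0 ^ 2) / (2 * 2) := by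
        field_simp
        ring
      rw [this, hq0]
      field_simp
      ring
    have e2 : (s1 + (t + q0) / 2) * (s1 + (t - q0) / 2) * ((t + q0) / 2 + (t - q0) / 2) =
        (X + s1 * t + w) * t := by
      have h2 : (t + q0) / 2 + (t - q0) / 2 = t := by
        field_simp
        ring
      have h3 : (s1 + (t + q0) / 2) * (s1 + (t - q0) / 2) = X + s1 * t + w := by
        rw [← e1, ← hs1X]
        ring
      rw [h2, h3]
    rw [e1, e2] at h1
    exact h1
  refine ⟨Affine.Point.some _ _ hns, fun τ => ?_⟩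
  have hτX : τ X = X := by rw [hX, τ.commutes]
  have hEτ : E.map (τ : Ω →+* Ω) = E := h τ
  have hnsτ : E.toAffine.Nonsingular (τ (X + s1 * t + w)) (τ ((X + s1 * t + w) * t)) := by
    rw [← hEτ]
    exact (Affine.map_nonsingular E (τ : Ω →+* Ω).injective _ _).mpr hns
  have hact : act h τ (Affine.Point.some _ _ hns) = Affine.Point.some (τ (X + s1 * t + w))
      (τ ((X + s1 * t + w) * t)) hnsτ := rfl
  rcases hsgn τ with h1 | h1
  · -- `τ r = r`
    have hτs : τ s1 = s1 := by rw [hs1, map_mul, h1, τ.commutes]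
    have hτw : τ w = w := by rw [hw, map_mul, h1, τ.commutes]
    have hτt : τ t = t ∨ τ t = -t := by
      refine sq_eq_sq_iff_eq_or_eq_neg.1 ?_
      rw [← map_pow, ht]
      simp only [map_add, map_mul, hτX, hτw, τ.commutes, map_ofNat]
    rcases hτt with h2 | h2
    · have h3 : act h τ (Affine.Point.some _ _ hns) = Affine.Point.some _ _ hns := by
        rw [hact, Affine.Point.some.injEq]
        simp only [map_add, map_mul, hτX, hτs, hτw, h2, and_self]
      rw [h3, sub_self, add_zero, sg_zero, h1]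
      exact ⟨rfl, by simp⟩
    · have hC := Mul_cub hE ht hwX hq0
      have g1 : s1 ^ 2 = X - 0 := by rw [hs1X, sub_zero]
      have e0 : (t + q0) / 2 * ((t - q0) / 2) = w := by
        have : (t + q0) / 2 * ((t - q0) / 2) = (t ^ 2 - q0 ^ 2) / (2 * 2) := by
          field_simp
          ring
        rw [this, hq0]
        field_simp
        ring
      have e1 : (t + q0) / 2 + (t - q0) / 2 = t := by
        field_simp
        ring
      have hR : Affine.Point.some _ _ hns =
          hC.half X s1 ((t + q0) / 2) ((t - q0) / 2) g1 Mul_sq_half Mul_sq_half := by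
        unfold IsCub.half
        rw [Affine.Point.some.injEq]
        constructor
        · linear_combination -s1 * e1 - e0
        · linear_combination (-(X + s1 * t + w)) * e1 -
            (s1 * e1 + e0 + hs1X) * ((t + q0) / 2 + (t - q0) / 2)
      have h3 : act h τ (Affine.Point.some _ _ hns) = Affine.Point.some _ _ hns + hC.T₁ := by
        rw [hact, hR, hC.half_add_T₁]
        unfold IsCub.half
        rw [Affine.Point.some.injEq]
        simp only [map_add, map_mul, hτX, hτs, hτw, h2]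
        constructor
        · linear_combination s1 * e1 - e0
        · linear_combination (X - s1 * t + w) * e1 +
            (-s1 * e1 + e0 + hs1X) * ((t + q0) / 2 + (t - q0) / 2)
      have h4 : act h τ (Affine.Point.some _ _ hns) - Affine.Point.some _ _ hns = hC.T₁ := by
        rw [h3, add_sub_cancel_left]
      rw [h4]
      refine ⟨hC.T_add_self, ?_⟩
      have h5 : sg hC.T₁ = 1 := by
        unfold IsCub.T₁
        rw [sg_some, if_pos rfl]
      rw [h5, h1]
      simp
  · -- `τ r = -r`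
    have hτs : τ s1 = -s1 := by
      rw [hs1, map_mul, h1, τ.commutes]
      ring
    have hτw : τ w = -w := by
      rw [hw, map_mul, h1, τ.commutes]
      ring
    have hτt : (τ t) ^ 2 = t ^ 2 - 4 * w := by
      rw [← map_pow, ht]
      simp only [map_add, map_mul, hτX, hτw, τ.commutes, map_ofNat]
      ring
    have hC := Mul_cub hE ht hwX hτt
    have g1 : s1 ^ 2 = X - 0 := by rw [hs1X, sub_zero]
    have e0 : (t + τ t) / 2 * ((t - τ t) / 2) = w := by
      have : (t + τ t) / 2 * ((t - τ t) / 2) = (t ^ 2 - (τ t) ^ 2) / (2 * 2) := by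
        field_simp
        ring
      rw [this, hτt]
      field_simp
      ring
    have e1 : (t + τ t) / 2 + (t - τ t) / 2 = t := by
      field_simp
      ring
    have e2 : (t + τ t) / 2 - (t - τ t) / 2 = τ t := by
      field_simp
      ring
    have hR : Affine.Point.some _ _ hns =
        hC.half X s1 ((t + τ t) / 2) ((t - τ t) / 2) g1 Mul_sq_half Mul_sq_half := by
      unfold IsCub.half
      rw [Affine.Point.some.injEq]
      constructor
      · linear_combination -s1 * e1 - e0
      · linear_combination (-(X + s1 * t + w)) * e1 -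
          (s1 * e1 + e0 + hs1X) * ((t + τ t) / 2 + (t - τ t) / 2)
    have h3 : act h τ (Affine.Point.some _ _ hns) = Affine.Point.some _ _ hns + hC.T₂ := by
      rw [hact, hR, hC.half_add_T₂]
      unfold IsCub.half
      rw [Affine.Point.some.injEq]
      simp only [map_add, map_mul, hτX, hτs, hτw]
      generalize (t + τ t) / 2 = s2 at *
      generalize (t - τ t) / 2 = s3 at *
      generalize τ t = t' at *
      subst e2
      constructor
      · linear_combination e0
      · linear_combination (s2 - s3) * (e0 - hs1X)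
    have h4 : act h τ (Affine.Point.some _ _ hns) - Affine.Point.some _ _ hns = hC.T₂ := by
      rw [h3, add_sub_cancel_left]
    rw [h4]
    refine ⟨hC.swap12.T_add_self, ?_⟩
    have h5 : sg hC.T₂ = -1 := by
      unfold IsCub.T₂
      rw [sg_some, if_neg hC.h12.symm]
    rw [h5, h1]
    simp

theorem QPt.mul {F : Type*} [Field F] [CharZero F] {a b d₁ d₂ : F} (hb : b ≠ 0)
    (hab : a ^ 2 - 4 * b ≠ 0) (h1 : d₁ ≠ 0) (h2 : d₂ ≠ 0) (H₁ : QPt a b d₁) (H₂ : QPt a b d₂) :
    QPt a b (d₁ * d₂) := by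
  have two : (2 : F) ≠ 0 := two_ne_zero
  let Ω := AlgebraicClosure F
  let V : WeierstrassCurve F := ⟨0, a, 0, b, 0⟩
  have hV : IsTw V a b := ⟨rfl, rfl, rfl, rfl, rfl, hb, hab, two⟩
  let E : WeierstrassCurve Ω := V.map (algebraMap F Ω)
  have hE : IsTw E (algebraMap F Ω a) (algebraMap F Ω b) := hV.up rfl
  have h : Inv F E := inv_of_map rfl
  obtain ⟨r₁, n1, q1⟩ := exists_sqrt Ω h1
  obtain ⟨r₂, n2, q2⟩ := exists_sqrt Ω h2
  obtain ⟨R₁, hR₁⟩ := mul_lc h hE n1 q1 H₁
  obtain ⟨R₂, hR₂⟩ := mul_lc h hE n2 q2 H₂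
  have hsplit : ∀ τ : Ω ≃ₐ[F] Ω, act h τ (R₁ + R₂) - (R₁ + R₂) =
      (act h τ R₁ - R₁) + (act h τ R₂ - R₂) := by
    intro τ
    rw [map_add]
    abel
  refine la h hE (mul_ne_zero n1 n2) (by rw [mul_pow, q1, q2, map_mul]) (R₁ + R₂)
    (fun τ => ?_) (fun τ => ?_)
  · rw [hsplit]
    calc _ = ((act h τ R₁ - R₁) + (act h τ R₁ - R₁)) +
          ((act h τ R₂ - R₂) + (act h τ R₂ - R₂)) := by abel
      _ = 0 := by rw [(hR₁ τ).1, (hR₂ τ).1, add_zero]
  · rw [hsplit, sg_add hE (hR₁ τ).1 (hR₂ τ).1, map_mul, (hR₁ τ).2, (hR₂ τ).2, units_cast_mul]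
    ring

end H73IS
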