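import Pool.Agent.H73.IS.Bas

/-!
Row Par (about 90 lines): parity of the valuation at a prime where b is a unit.

PROOF. Suppose log (V d) is odd. Put A := d^2 M^4, C := b e^4, B := a d M^2 e^2; A + B + C = d N^2. If e = 0: A = d N^2 ≠ 0, log V A = 2 log V d + 4 log V M even, log V (d N^2) = log V d + 2 log V N odd (log_mul_sq in H10/ValPar). If M = 0: C = d N^2 the same.
 Both nonzero: V A ≠ V C because log V A - log V C = 2 log V d + 4 (..) is 2 mod 4 (log V b = 0). V B ≤ V (d M^2 e^2) and V (d M^2 e^2)^2 = V A * V C, so V B < max (V A) (V C) strictly, hence V (A + B + C) = max (V A) (V C) has even log, contradiction with d N^2 (N ≠ 0 as the sum is not 0).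
 Tools: Valuation.map_add_eq_of_lt_left/right, WithZero.log, exp_log, log_mul, log_pow.
-/

set_option autoImplicit false
open scoped Classical

open WithZero Pool.Agent.H10

namespace H73IS

theorem even_of_qpt {F : Type*} [Field F] (V : Valuation F (WithZero (Multiplicative ℤ)))
    {a b d : F} (ha : V a ≤ 1) (hb : V b = 1) (hd : d ≠ 0) (H : QPt a b d) :
    Even (log (V d)) := by
  by_contra hne
  rw [Int.not_even_iff_odd] at hne
  obtain ⟨M, e, N, hz, H⟩ := H
  have key : ∀ x : F, x ≠ 0 → V (d * N ^ 2) = V (x ^ 2) → False := by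
    intro x hx h
    have hN : N ≠ 0 := by
      rintro rfl
      rw [zero_pow two_ne_zero, mul_zero, map_zero, eq_comm, map_eq_zero] at h
      exact hx ((pow_eq_zero_iff two_ne_zero).1 h)
    have h1 := congrArg log h
    rw [log_mul_sq V hd hN, map_pow, log_pow] at h1
    rw [Int.odd_iff] at hne
    simp only [nsmul_eq_mul, Nat.cast_ofNat] at h1
    omega
  by_cases he : e = 0
  · have hM : M ≠ 0 := by
      rcases hz with h | h
      · exact h
      · exact absurd he h
    refine key (d * M ^ 2) (mul_ne_zero hd (pow_ne_zero 2 hM)) ?_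
    rw [H, he]
    congr 1
    ring
  by_cases hM : M = 0
  · refine key (e ^ 2) (pow_ne_zero 2 he) ?_
    rw [H, hM]
    have h1 : d ^ 2 * 0 ^ 4 + a * d * 0 ^ 2 * e ^ 2 + b * e ^ 4 = b * (e ^ 2) ^ 2 := by ring
    rw [h1, map_mul, hb, one_mul]
  have hP0 : V (d * M ^ 2) ≠ 0 := (Valuation.ne_zero_iff V).2 (mul_ne_zero hd (pow_ne_zero 2 hM))
  have hQ0 : V (e ^ 2) ≠ 0 := (Valuation.ne_zero_iff V).2 (pow_ne_zero 2 he)
  have hPQ : V (d * M ^ 2) ≠ V (e ^ 2) := by
    intro h
    have h1 := congrArg log h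
    rw [log_mul_sq V hd hM, map_pow, log_pow] at h1
    rw [Int.odd_iff] at hne
    simp only [nsmul_eq_mul, Nat.cast_ofNat] at h1
    omega
  have hA : V (d ^ 2 * M ^ 4) = V (d * M ^ 2) * V (d * M ^ 2) := by
    rw [← map_mul]
    congr 1
    ring
  have hC : V (b * e ^ 4) = V (e ^ 2) * V (e ^ 2) := by
    rw [map_mul, hb, one_mul, ← map_mul]
    congr 1
    ring
  have hB : V (a * d * M ^ 2 * e ^ 2) ≤ V (d * M ^ 2) * V (e ^ 2) := by
    have h1 : a * d * M ^ 2 * e ^ 2 = a * ((d * M ^ 2) * e ^ 2) := by ring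
    rw [h1, map_mul, map_mul V (d * M ^ 2)]
    exact mul_le_of_le_one_left' ha
  rcases lt_or_gt_of_ne hPQ with h | h
  · have hQ : 0 < V (e ^ 2) := zero_lt_iff.2 hQ0
    have hP : 0 < V (d * M ^ 2) := zero_lt_iff.2 hP0
    have h1 : V (a * d * M ^ 2 * e ^ 2) < V (b * e ^ 4) := by
      rw [hC]
      exact lt_of_le_of_lt hB (mul_lt_mul_of_pos_right h hQ)
    have h2 : V (d ^ 2 * M ^ 4) < V (b * e ^ 4) := by
      rw [hA, hC]
      exact (mul_lt_mul_of_pos_left h hP).trans (mul_lt_mul_of_pos_right h hQ)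
    have h3 : V (d ^ 2 * M ^ 4 + a * d * M ^ 2 * e ^ 2) < V (b * e ^ 4) :=
      lt_of_le_of_lt (V.map_add _ _) (max_lt h2 h1)
    have h4 := Valuation.map_add_eq_of_lt_left V h3
    rw [add_comm, ← H, hC, ← map_mul] at h4
    exact key (e ^ 2) (pow_ne_zero 2 he) (by rw [h4]; congr 1; ring)
  · have hQ : 0 < V (e ^ 2) := zero_lt_iff.2 hQ0
    have hP : 0 < V (d * M ^ 2) := zero_lt_iff.2 hP0
    have h1 : V (a * d * M ^ 2 * e ^ 2) < V (d ^ 2 * M ^ 4) := by
      rw [hA]
      exact lt_of_le_of_lt hB (mul_lt_mul_of_pos_left h hP)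
    have h2 : V (b * e ^ 4) < V (d ^ 2 * M ^ 4) := by
      rw [hA, hC]
      exact (mul_lt_mul_of_pos_left h hQ).trans (mul_lt_mul_of_pos_right h hP)
    have h3 : V (a * d * M ^ 2 * e ^ 2 + b * e ^ 4) < V (d ^ 2 * M ^ 4) :=
      lt_of_le_of_lt (V.map_add _ _) (max_lt h1 h2)
    have h4 := Valuation.map_add_eq_of_lt_right V h3
    rw [add_comm, ← add_assoc, ← H, hA, ← map_mul] at h4
    exact key (d * M ^ 2) (mul_ne_zero hd (pow_ne_zero 2 hM)) (by rw [h4]; congr 1; ring)

end H73IS
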