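import Pool.Agent.H73.IS.Nq

/-!
Row Two (about 90 lines): both curves at once.

PROOF. b' := a^2 - 4 b, a' := -2 a, a' = 4^i (-2 a0), b' = 16^i (a0^2 - 4 b0). The primes dividing b, 2 b, b', 2 b' all divide 2 b b' (hbad applies: Ideal.mul_mem_left/right after push_cast).
 Case RPos a b: ¬ Small a0 b0 by hst. First: nq_pos. Second: nq_small for a', b': Red: if 4 | -2 a0 then a0 = 2 a1 and a0^2 - 4 b0 = 4 (a1^2 - b0); 16 | it iff 4 | a1^2 - b0, excluded by ¬ Small (omega after writing a0 = 2 a1; a1^2 as an atom). Small: -2 a0 is even, (-2 a0)/2 = -a0, (a0^2 - 4 b0) - a0^2 = -4 b0.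
 Case ¬ RPos a b: Small a0 b0. First: nq_small. Second: nq_pos for a', b': RPos a' b': b < 0: (-2a)^2 < 4 (a^2 - 4 b). b > 0 (b ≠ 0): ¬ (a^2 < 4 b), a^2 ≠ 4 b so b' > 0; ¬ (a < 0), a ≠ 0, so a > 0 and a' < 0.
-/

set_option autoImplicit false
open scoped Classical

open WeierstrassCurve IsDedekindDomain NumberField WithZero Pool.Agent.H10

namespace H73IS

variable {K L : Type} [Field K] [NumberField K] [Field L] [NumberField L] [Algebra K L]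

private lemma two_red {a₀ b₀ : ℤ} (h : ¬ Small a₀ b₀) : Red (-2 * a₀) (a₀ ^ 2 - 4 * b₀) := by
  rintro ⟨h1, h2⟩
  apply h
  obtain ⟨c, hc⟩ : ∃ c, a₀ = 2 * c := ⟨a₀ / 2, by omega⟩
  subst hc
  refine ⟨by omega, ?_⟩
  have e1 : (2 * c) / 2 = c := by omega
  rw [e1]
  have e2 : (2 * c) ^ 2 = 4 * c ^ 2 := by ring
  rw [e2] at h2
  generalize c ^ 2 = u at *
  omega

private lemma two_small (a₀ b₀ : ℤ) : Small (-2 * a₀) (a₀ ^ 2 - 4 * b₀) := by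
  refine ⟨by omega, ?_⟩
  have e1 : (-2 * a₀) / 2 = -a₀ := by omega
  rw [e1]
  have e2 : a₀ ^ 2 - 4 * b₀ - (-a₀) ^ 2 = 4 * (-b₀) := by ring
  rw [e2]
  omega

private lemma two_pos {a b : ℤ} (hb0 : b ≠ 0) (hd0 : a ^ 2 - 4 * b ≠ 0) (h : ¬ RPos a b) :
    RPos (-2 * a) (a ^ 2 - 4 * b) := by
  unfold RPos at h ⊢
  push Not at h
  obtain ⟨h1, h2⟩ := h
  rcases lt_or_gt_of_ne hb0 with hb | hb
  · left
    nlinarith
  · right
    have h3 : 0 < a ^ 2 - 4 * b := lt_of_le_of_ne (by linarith) (Ne.symm hd0)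
    refine ⟨h3, ?_⟩
    have h4 := h2 hb
    have h5 : a ≠ 0 := by
      rintro rfl
      simp at h3
      omega
    omega

theorem nq_two [IsGalois K L] (hodd : Odd (Module.finrank K L)) (R1 : NoNewPositive K L)
    (R2 : NoNewUnramified K L) {a b a₀ b₀ : ℤ} {i : ℕ} (hb0 : b ≠ 0) (hd0 : a ^ 2 - 4 * b ≠ 0)
    (ha : a = 4 ^ i * a₀) (hb : b = 16 ^ i * b₀) (hR : Red a₀ b₀)
    (hst : RPos a b ↔ ¬ Small a₀ b₀)
    (hbad : ∀ v : HeightOneSpectrum (𝓞 K), ((2 * b * (a ^ 2 - 4 * b) : ℤ) : 𝓞 K) ∈ v.asIdeal →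
      UniqueOver K L v.asIdeal)
    (hunr : ∀ w : HeightOneSpectrum (𝓞 L), (2 : 𝓞 L) ∈ w.asIdeal →
      (2 : 𝓞 L) ∉ w.asIdeal ^ 2)
    (h3 : ¬ 3 ∣ Module.finrank K L ∨ ∀ v : HeightOneSpectrum (𝓞 K), (2 : 𝓞 K) ∈ v.asIdeal →
      ∃ c : 𝓞 K, c ^ 3 + c ^ 2 + 1 ∈ v.asIdeal) :
    NewTrivQ K L (a : L) (b : L) ∧ NewTrivQ K L (-2 * (a : L)) ((a : L) ^ 2 - 4 * (b : L)) := by
  have key : ∀ (m n : ℤ), m * n = 2 * b * (a ^ 2 - 4 * b) →
      ∀ v : HeightOneSpectrum (𝓞 K), ((m : ℤ) : 𝓞 K) ∈ v.asIdeal → UniqueOver K L v.asIdeal := by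
    intro m n h v hv
    apply hbad v
    rw [← h]
    push_cast
    exact Ideal.mul_mem_right _ _ hv
  have ea : ((-2 * a : ℤ) : L) = -2 * (a : L) := by push_cast; ring
  have eb : ((a ^ 2 - 4 * b : ℤ) : L) = (a : L) ^ 2 - 4 * (b : L) := by push_cast; ring
  have ha' : -2 * a = 4 ^ i * (-2 * a₀) := by rw [ha]; ring
  have hb' : a ^ 2 - 4 * b = 16 ^ i * (a₀ ^ 2 - 4 * b₀) := by
    rw [ha, hb]
    have e : (16 : ℤ) ^ i = (4 ^ i) ^ 2 := by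
      rw [← pow_mul, mul_comm, pow_mul]; norm_num
    rw [e]; ring
  by_cases hP : RPos a b
  · have hS : ¬ Small a₀ b₀ := hst.mp hP
    refine ⟨nq_pos hodd R1 hP (key b (2 * (a ^ 2 - 4 * b)) (by ring)), ?_⟩
    have := nq_small hodd R2 (a := -2 * a) (b := a ^ 2 - 4 * b) ha' hb' (two_red hS)
      (two_small a₀ b₀) (key (2 * (a ^ 2 - 4 * b)) b (by ring)) hunr h3
    rw [ea, eb] at this
    exact this
  · have hS : Small a₀ b₀ := by
      by_contra h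
      exact hP (hst.mpr h)
    refine ⟨nq_small hodd R2 ha hb hR hS (key (2 * b) (a ^ 2 - 4 * b) (by ring)) hunr h3, ?_⟩
    have := nq_pos hodd R1 (a := -2 * a) (b := a ^ 2 - 4 * b) (two_pos hb0 hd0 hP)
      (key (a ^ 2 - 4 * b) (2 * b) (by ring))
    rw [ea, eb] at this
    exact this

end H73IS
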