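import Pool.Agent.H73.IS.Mw
import Pool.Agent.H73.IS.Two
import Pool.Agent.H10.OddIndex

/-!
Assembly (helper73): bijectivity on the two-primary part and odd index.
-/

set_option autoImplicit false
open scoped Classical

open WeierstrassCurve IsDedekindDomain NumberField Pool.Agent.H10

namespace H73IS

theorem IsTw.isElliptic {k : Type*} [Field k] {W : WeierstrassCurve k} {a b : k}
    (h : IsTw W a b) : W.IsElliptic := by
  constructor
  rw [isUnit_iff_ne_zero]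
  have h1 : W.Δ = 2 ^ 4 * (b ^ 2 * (a ^ 2 - 4 * b)) := by
    unfold WeierstrassCurve.Δ WeierstrassCurve.b₂ WeierstrassCurve.b₄ WeierstrassCurve.b₆
      WeierstrassCurve.b₈
    rw [h.a₁, h.a₂, h.a₃, h.a₄, h.a₆]
    ring
  rw [h1]
  exact mul_ne_zero (pow_ne_zero 4 h.two) (mul_ne_zero (pow_ne_zero 2 h.hb) h.hd)

section

variable {K L : Type} [Field K] [NumberField K] [Field L] [NumberField L] [Algebra K L]
  [IsGalois K L] {V : WeierstrassCurve K} {V' : WeierstrassCurve L} {a b : K}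

theorem bijOn (hodd : Odd (Module.finrank K L)) (h : IsTw V a b)
    (hV : V.map (algebraMap K L) = V')
    (H : NewTrivQ K L (algebraMap K L a) (algebraMap K L b))
    (H' : NewTrivQ K L (algebraMap K L (-2 * a)) (algebraMap K L (a ^ 2 - 4 * b))) :
    Set.BijOn (Sha.res hV) {x | ∃ m : ℕ, 2 ^ m • x = 0} {x | ∃ m : ℕ, 2 ^ m • x = 0} :=
  bijOn_of_two (Sha.res hV) (Sha.cor hV) hodd (Sha.cor_res hV)
    (two_up hodd h hV H H')

theorem mw_odd (hodd : Odd (Module.finrank K L)) (h : IsTw V a b)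
    (hV : V.map (algebraMap K L) = V')
    (H : NewTrivQ K L (algebraMap K L a) (algebraMap K L b))
    (H' : NewTrivQ K L (algebraMap K L (-2 * a)) (algebraMap K L (a ^ 2 - 4 * b))) :
    ∃ m : ℕ, Odd m ∧ ∀ P : V'.toAffine.Point, ∃ Q : V.toAffine.Point,
      m • P = pm (algebraMap K L) hV Q := by
  have h' := (h.up hV).isElliptic
  exact odd_exponent (pm (algebraMap K L) hV) (Pool.Agent.H11.mordell_weil V')
    (mw_up hodd h hV H H')

/-- The statement for one layer. -/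
theorem stable (hodd : Odd (Module.finrank K L)) (R1 : NoNewPositive K L)
    (R2 : NoNewUnramified K L) {a b a₀ b₀ : ℤ} {i : ℕ} (hb0 : b ≠ 0) (hd0 : a ^ 2 - 4 * b ≠ 0)
    (ha : a = 4 ^ i * a₀) (hb : b = 16 ^ i * b₀) (hR : Red a₀ b₀)
    (hst : RPos a b ↔ ¬ Small a₀ b₀)
    (hbad : ∀ v : HeightOneSpectrum (𝓞 K), ((2 * b * (a ^ 2 - 4 * b) : ℤ) : 𝓞 K) ∈ v.asIdeal →
      UniqueOver K L v.asIdeal)
    (hunr : ∀ w : HeightOneSpectrum (𝓞 L), (2 : 𝓞 L) ∈ w.asIdeal →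
      (2 : 𝓞 L) ∉ w.asIdeal ^ 2)
    (h3 : ¬ 3 ∣ Module.finrank K L ∨ ∀ v : HeightOneSpectrum (𝓞 K), (2 : 𝓞 K) ∈ v.asIdeal →
      ∃ c : 𝓞 K, c ^ 3 + c ^ 2 + 1 ∈ v.asIdeal)
    (E : WeierstrassCurve K) (hE : E = ⟨0, (a : K), 0, (b : K), 0⟩) :
    ShaTwoBijective K E L ∧
      ∃ m : ℕ, Odd m ∧ ∀ P : (E.baseChange L).toAffine.Point,
        ∃ Q : (E.baseChange K).toAffine.Point,
          m • P = WeierstrassCurve.Affine.Point.map (Algebra.ofId K L) Q := by
  have hT : IsTw E (a : K) (b : K) := by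
    subst hE
    refine ⟨rfl, rfl, rfl, rfl, rfl, by exact_mod_cast hb0, ?_, two_ne_zero⟩
    exact_mod_cast hd0
  obtain ⟨H, H'⟩ := nq_two (K := K) (L := L) hodd R1 R2 hb0 hd0 ha hb hR hst hbad hunr h3
  have G : NewTrivQ K L (algebraMap K L (a : K)) (algebraMap K L (b : K)) := by
    rwa [map_intCast, map_intCast]
  have G' : NewTrivQ K L (algebraMap K L (-2 * (a : K)))
      (algebraMap K L ((a : K) ^ 2 - 4 * (b : K))) := by
    have e1 : algebraMap K L (-2 * (a : K)) = -2 * (a : L) := by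
      rw [map_mul, map_neg, map_ofNat, map_intCast]
    have e2 : algebraMap K L ((a : K) ^ 2 - 4 * (b : K)) = (a : L) ^ 2 - 4 * (b : L) := by
      rw [map_sub, map_pow, map_mul, map_ofNat, map_intCast, map_intCast]
    rwa [e1, e2]
  refine ⟨shaTwoBijective rfl (bijOn hodd hT rfl G G'), ?_⟩
  obtain ⟨m, hm, hP⟩ := mw_odd (V := E) (V' := E.baseChange L) hodd hT rfl G G'
  refine ⟨m, hm, fun P => ?_⟩
  obtain ⟨Q, hQ⟩ := hP P
  refine ⟨Q, ?_⟩
  rw [hQ]
  exact (map_eq_pm (S := K) E (Algebra.ofId K L) Q).symm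

end

end H73IS
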