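import Pool.Agent.H73.IS.KDf2
import Pool.Agent.H10.StarGal

/-!
Row KDs (about 90 lines): from the completion to L.

PROOF: copy KapForm.descend (end of H10/StarGal.lean): t', y' ∈ L close to t, y (exists_close); the cubic polynomial instead of the three alternatives: P(y') - P(y) = (y' - y) * (integral), V < 1; the coefficients algebraMap k (completion) c = algebraMap L (completion) (algebraMap k L c) (IsScalarTower, hypothesis hkL).
-/

set_option autoImplicit false
open scoped Classical

open NumberField IsDedekindDomain WithZero Pool.Agent.H10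

namespace H73IS

theorem kapK_descend {k L : Type} [Field k] [NumberField k] [Field L] [NumberField L]
    [Algebra k L] (w : HeightOneSpectrum (𝓞 L)) [Algebra k (w.adicCompletion L)]
    [IsScalarTower k L (w.adicCompletion L)]
    (h2 : w.valuation L 2 = exp (-1 : ℤ)) {x : L}
    (h : KapK k Valued.v (algebraMap L (w.adicCompletion L) x)) :
    KapK k (w.valuation L) x := by
  obtain ⟨t, y, c₂, c₁, c₀, ht, hy, hc2, hc1, hc0, hd, hroot⟩ := h
  have e2 : Valued.v (2 : w.adicCompletion L) = exp (-1 : ℤ) := by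
    rw [valued_ofNat w 2]; exact h2
  have hkL : ∀ c : k, algebraMap k (w.adicCompletion L) c =
      algebraMap L (w.adicCompletion L) (algebraMap k L c) := fun c =>
    IsScalarTower.algebraMap_apply k L (w.adicCompletion L) c
  rw [hkL] at hc2 hc1 hc0
  rw [hkL, hkL, hkL] at hroot
  set X := algebraMap L (w.adicCompletion L) x with hX
  set C₂ := algebraMap L (w.adicCompletion L) (algebraMap k L c₂) with hC2
  set C₁ := algebraMap L (w.adicCompletion L) (algebraMap k L c₁) with hC1
  set C₀ := algebraMap L (w.adicCompletion L) (algebraMap k L c₀) with hC0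
  have h1 : Valued.v (1 : w.adicCompletion L) ≤ 1 := by rw [map_one]
  have hXt : Valued.v (X * t ^ 2) ≤ 1 := by
    have h5 : X * t ^ 2 = (X * t ^ 2 - (1 + 2 * y)) + (1 + 2 * y) := by ring
    rw [h5]
    exact V_add_le (hd.trans (exp_neg_two_lt.trans exp_neg_lt_one).le)
      (V_add_le h1 (V_two_mul_lt e2 hy).le)
  have hvt : Valued.v t ≠ 0 := (Valuation.ne_zero_iff _).mpr ht
  obtain ⟨t', ht'⟩ := exists_close w t (-2 + log (Valued.v t))
  rw [exp_add, exp_log hvt] at ht'
  obtain ⟨y', hy'⟩ := exists_close w y 0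
  rw [exp_zero] at hy'
  set T := algebraMap L (w.adicCompletion L) t' with hT
  set Y := algebraMap L (w.adicCompletion L) y' with hY
  have hlt : Valued.v (T - t) < Valued.v t := by
    refine ht'.trans_le ?_
    exact mul_le_of_le_one_left' (exp_neg_two_lt.trans exp_neg_lt_one).le
  have hVT : Valued.v T = Valued.v t := by
    have : T = (T - t) + t := by ring
    rw [this, Valuation.map_add_eq_of_lt_right _ hlt]
  have hVY : Valued.v Y ≤ 1 := by
    have : Y = (Y - y) + y := by ring
    rw [this]
    exact V_add_le hy'.le hy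
  refine ⟨t', y', c₂, c₁, c₀, ?_, ?_, ?_, ?_, ?_, ?_, ?_⟩
  · rintro rfl
    rw [hT, map_zero, map_zero] at hVT
    exact hvt hVT.symm
  · rw [← valued_algebraMap]; exact hVY
  · rw [← valued_algebraMap]; exact hc2
  · rw [← valued_algebraMap]; exact hc1
  · rw [← valued_algebraMap]; exact hc0
  · rw [← valued_algebraMap, map_sub, map_mul, map_pow, map_add, map_one, map_mul, map_ofNat]
    rw [← hX, ← hT, ← hY]
    have e1 : X * T ^ 2 - (1 + 2 * Y) = X * ((T - t) * (T + t)) +
        ((X * t ^ 2 - (1 + 2 * y)) - 2 * (Y - y)) := by ring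
    rw [e1]
    refine V_add_le ?_ (V_sub_le hd (V_two_mul e2 hy'))
    rw [map_mul, map_mul]
    have h6 : Valued.v (T + t) ≤ Valued.v t :=
      (Valuation.map_add _ _ _).trans (max_le hVT.le le_rfl)
    calc Valued.v X * (Valued.v (T - t) * Valued.v (T + t))
        ≤ Valued.v X * ((exp (-2) * Valued.v t) * Valued.v t) :=
          mul_le_mul_right (mul_le_mul' ht'.le h6) _
      _ = exp (-2) * (Valued.v X * Valued.v t ^ 2) := by
          rw [pow_two]; ac_rfl
      _ ≤ exp (-2) * 1 := by
          refine mul_le_mul_right ?_ _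
          rw [← map_pow, ← map_mul]; exact hXt
      _ = exp (-2) := mul_one _
  · have e3 : algebraMap L (w.adicCompletion L) (y' ^ 3 + algebraMap k L c₂ * y' ^ 2 +
        algebraMap k L c₁ * y' + algebraMap k L c₀) = Y ^ 3 + C₂ * Y ^ 2 + C₁ * Y + C₀ := by
      rw [map_add, map_add, map_add, map_mul, map_mul, map_pow, map_pow]
    rw [← valued_algebraMap, e3]
    have : Y ^ 3 + C₂ * Y ^ 2 + C₁ * Y + C₀ = (y ^ 3 + C₂ * y ^ 2 + C₁ * y + C₀) +
        ((Y ^ 3 - y ^ 3) + (C₂ * (Y ^ 2 - y ^ 2) + C₁ * (Y - y))) := by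
      ring
    rw [this]
    exact V_add_lt hroot (V_add_lt (pow_close hVY hy hy' 3)
      (V_add_lt (V_mul_lt hc2 (pow_close hVY hy hy' 2)) (V_mul_lt hc1 hy')))

end H73IS
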