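import Pool.Agent.H73.IS.KDf2
import Pool.Agent.H10.StarGal

/-!
Row KVal (about 200 lines): valuations above two when two is unramified in L.

below: w ∩ 𝓞 k =: v is a prime of k with 2 ∈ v. val_eq: w.valuation L (algebraMap k L x) = v.valuation k x: for x ∈ 𝓞 k, x ∈ v^n ⇒ x ∈ w^n (Ideal.map_le, pow), so w-val ≤ v-val for integers; conversely write v.intValuation x = exp (-n) (x ≠ 0): use an element: x^? Simplest: there is e ≥ 1 with
 w.valuation (x) = (v.valuation x)^e for all x (private lemma exists_val_below in H5/SW/L3b.lean, copy it with a prefix; here L, k for F, L), and 2: exp (-1) = w-val of 2 = (v-val of 2)^e with v-val of 2 ≤ exp (-1) (2 ∈ v), so e = 1.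
 mem_iff: x ∈ v^n ↔ w.valuation L x ≤ exp (-n) (HeightOneSpectrum.intValuation_le_pow_iff_mem, valuation_of_algebraMap). perf: finite residue field 𝓞 k / v of characteristic 2 (2 ∈ v): every element is a square (Frobenius bijective on a finite field of characteristic 2: FiniteField.isSquare_of_char_two),
 lifted to x ∈ k with v-valuation ≤ 1: x = a/b with b ∉ v (or use v.valuation ≤ 1 → ∃ a ∈ 𝓞 k, v-val (x - a) < 1, exists in Mathlib as density/residue surjectivity: HeightOneSpectrum.exists_adicValued... or Pool.Agent.H10 exists_close; elementary: x = a/b, choose b' with b b' - 1 ∈ v after multiplying numerator and denominator by an element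
 prime to v: IsLocalization / Ideal.Quotient). int_close: the same for one element.
-/

set_option autoImplicit false
open scoped Classical

open NumberField IsDedekindDomain WithZero Pool.Agent.H10

namespace H73IS

section

variable {k L : Type} [Field k] [NumberField k] [Field L] [NumberField L] [Algebra k L]

/-- The prime of `k` below. -/
noncomputable def below (k : Type) {L : Type} [Field k] [NumberField k] [Field L] [NumberField L]
    [Algebra k L] (w : HeightOneSpectrum (𝓞 L)) : HeightOneSpectrum (𝓞 k) :=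
  ⟨w.asIdeal.under (𝓞 k), inferInstance, Ideal.IsIntegral.comap_ne_bot _ w.ne_bot⟩

theorem mem_below (w : HeightOneSpectrum (𝓞 L)) (x : 𝓞 k) :
    x ∈ (below k w).asIdeal ↔ algebraMap (𝓞 k) (𝓞 L) x ∈ w.asIdeal := Iff.rfl

theorem val_eq (w : HeightOneSpectrum (𝓞 L)) (h : (2 : 𝓞 L) ∈ w.asIdeal)
    (h' : (2 : 𝓞 L) ∉ w.asIdeal ^ 2) (x : k) :
    w.valuation L (algebraMap k L x) = (below k w).valuation k x := by
  have : w.asIdeal.LiesOver (below k w).asIdeal := ⟨rfl⟩
  set e := (below k w).asIdeal.ramificationIdx' w.asIdeal with he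
  have hval : ∀ x : k, (below k w).valuation k x ^ e = w.valuation L (algebraMap k L x) :=
    fun x => HeightOneSpectrum.valuation_liesOver L (below k w) w x
  have h2L : w.valuation L (2 : L) = exp (-1 : ℤ) := by
    have e1 : w.valuation L (2 : L) = w.intValuation (2 : 𝓞 L) := by
      rw [← w.valuation_of_algebraMap (K := L) (2 : 𝓞 L)]
      exact congrArg _ (map_ofNat (algebraMap (𝓞 L) L) 2).symm
    rw [e1]
    apply le_antisymm
    · have := (w.intValuation_le_pow_iff_mem (2 : 𝓞 L) 1).mpr (by simpa using h)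
      simpa using this
    · by_contra hlt
      rw [not_le] at hlt
      apply h'
      rw [← w.intValuation_le_pow_iff_mem]
      have h0 : w.intValuation (2 : 𝓞 L) ≠ 0 := w.intValuation_ne_zero _ two_ne_zero
      rw [← exp_log h0] at hlt ⊢
      rw [exp_lt_exp] at hlt
      rw [exp_le_exp]
      push_cast
      omega
  have h2k : (below k w).valuation k (2 : k) ≤ exp (-1 : ℤ) := by
    have e1 : (below k w).valuation k (2 : k) = (below k w).intValuation (2 : 𝓞 k) := by
      rw [← (below k w).valuation_of_algebraMap (K := k) (2 : 𝓞 k)]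
      exact congrArg _ (map_ofNat (algebraMap (𝓞 k) k) 2).symm
    rw [e1]
    have := ((below k w).intValuation_le_pow_iff_mem (2 : 𝓞 k) 1).mpr (by
      rw [pow_one, mem_below, map_ofNat]
      exact h)
    simpa using this
  have h20 : (below k w).valuation k (2 : k) ≠ 0 := by
    rw [Valuation.ne_zero_iff]
    exact two_ne_zero
  have hv2 := hval 2
  rw [map_ofNat (algebraMap k L) 2, h2L, ← exp_log h20, ← exp_nsmul, exp_inj] at hv2
  rw [← exp_log h20, exp_le_exp] at h2k
  have he1 : e = 1 := by
    rw [nsmul_eq_mul] at hv2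
    have h3 : (e : ℤ) * (-log ((below k w).valuation k (2 : k))) = 1 := by linarith
    have h4 : (e : ℤ) ∣ 1 := ⟨_, h3.symm⟩
    have h5 : (e : ℤ) = 1 := Int.eq_one_of_dvd_one (Int.natCast_nonneg _) h4
    exact_mod_cast h5
  rw [← hval x, he1, pow_one]

theorem mem_pow_iff (w : HeightOneSpectrum (𝓞 L)) (h : (2 : 𝓞 L) ∈ w.asIdeal)
    (h' : (2 : 𝓞 L) ∉ w.asIdeal ^ 2) (x : 𝓞 k) (n : ℕ) :
    x ∈ (below k w).asIdeal ^ n ↔ w.valuation L (algebraMap k L x) ≤ exp (-(n : ℤ)) := by
  rw [val_eq w h h' (x : k), ← HeightOneSpectrum.intValuation_le_pow_iff_mem]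
  have e1 : (below k w).valuation k (x : k) = (below k w).intValuation x :=
    (below k w).valuation_of_algebraMap (K := k) x
  rw [e1]

/-- Integral elements of a number field are congruent to algebraic integers. -/
theorem int_close (v : HeightOneSpectrum (𝓞 k)) (x : k) (hx : v.valuation k x ≤ 1) :
    ∃ y : 𝓞 k, v.valuation k (x - y) < 1 := by
  obtain ⟨a, ha⟩ := HeightOneSpectrum.exists_valuation_sub_lt_of_integer v hx 1
  refine ⟨a, ?_⟩
  rw [Valuation.map_sub_swap]
  simpa using ha

theorem perf (v : HeightOneSpectrum (𝓞 k)) (h : (2 : 𝓞 k) ∈ v.asIdeal) (x : k)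
    (hx : v.valuation k x ≤ 1) : ∃ s : k, v.valuation k (x - s ^ 2) < 1 := by
  obtain ⟨y, hy⟩ := int_close v x hx
  have : v.asIdeal.IsMaximal := v.isMaximal
  let _ : Field (𝓞 k ⧸ v.asIdeal) := Ideal.Quotient.field v.asIdeal
  have : Finite (𝓞 k ⧸ v.asIdeal) := inferInstance
  have h2 : (2 : 𝓞 k ⧸ v.asIdeal) = 0 := by
    have h2' := Ideal.Quotient.eq_zero_iff_mem.mpr h
    exact h2'
  have : CharP (𝓞 k ⧸ v.asIdeal) 2 := CharTwo.of_one_ne_zero_of_two_eq_zero one_ne_zero h2
  obtain ⟨r, hr⟩ := isSquare_of_charTwo' (Ideal.Quotient.mk v.asIdeal y)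
  obtain ⟨s, rfl⟩ := Ideal.Quotient.mk_surjective r
  refine ⟨(s : k), ?_⟩
  have h3 : y - s ^ 2 ∈ v.asIdeal := by
    rw [← Ideal.Quotient.eq_zero_iff_mem, map_sub, hr, map_pow]
    ring
  have h4 : v.valuation k ((y : k) - (s : k) ^ 2) < 1 := by
    have h5 := (v.valuation_lt_one_iff_mem (K := k) (y - s ^ 2)).mpr h3
    have h6 : ((y - s ^ 2 : 𝓞 k) : k) = (y : k) - (s : k) ^ 2 := by
      push_cast
      rfl
    rwa [← h6]
  have h7 : x - (s : k) ^ 2 = (x - y) + ((y : k) - (s : k) ^ 2) := by ring
  rw [h7]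
  exact lt_of_le_of_lt (Valuation.map_add _ _ _) (max_lt hy h4)

end

end H73IS
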