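import Pool.Agent.H73.IS.KCj
import Pool.Agent.H73.IS.KVal

/-!
Row KSq (about 130 lines): an element with even valuations and square norm, of the form KapK at the primes above two, is a square.

PROOF. Model: row Sqk (H73/IS/Sqk.lean, sq_of_kap), with kap_conj replaced by kapK_conj. The second alternative of h3 there from CubIn: y ∈ L with w-valuation ≤ 1 and c_i ∈ k with valuation ≤ 1: int_close (row KVal) gives y' ∈ 𝓞 L and c_i' ∈ 𝓞 k (for v = below k w; val_eq with hunr) congruent to them;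
 the cubic of y' with the c_i' lies in w (valuation_lt_one_iff_mem), CubIn gives c ∈ 𝓞 K, V (y - c) < 1.
-/

set_option autoImplicit false
open scoped Classical

open NumberField IsDedekindDomain WithZero Pool.Agent.H10

namespace H73IS

theorem KSq_add {F : Type*} [Field F] {V : Valuation F (WithZero (Multiplicative ℤ))} {x y : F}
    (hx : V x < 1) (hy : V y < 1) : V (x + y) < 1 := V.map_add_lt hx hy

theorem KSq_mul {F : Type*} [Field F] {V : Valuation F (WithZero (Multiplicative ℤ))} {x y : F}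
    (hx : V x < 1) (hy : V y ≤ 1) : V (x * y) < 1 := by
  rw [map_mul]
  exact (mul_le_of_le_one_right' hy).trans_lt hx

theorem KSq_cub {F : Type*} [Field F] {V : Valuation F (WithZero (Multiplicative ℤ))}
    {y y' c₂ c₁ c₀ d₂ d₁ d₀ : F} (hy : V y ≤ 1) (hy' : V y' ≤ 1)
    (hd₂ : V d₂ ≤ 1) (hd₁ : V d₁ ≤ 1) (e : V (y - y') < 1) (e₂ : V (c₂ - d₂) < 1)
    (e₁ : V (c₁ - d₁) < 1) (e₀ : V (c₀ - d₀) < 1)
    (h : V (y ^ 3 + c₂ * y ^ 2 + c₁ * y + c₀) < 1) :
    V (y' ^ 3 + d₂ * y' ^ 2 + d₁ * y' + d₀) < 1 := by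
  have m : ∀ {a b : F}, V a ≤ 1 → V b ≤ 1 → V (a * b) ≤ 1 := by
    intro a b ha hb
    rw [map_mul]
    exact mul_le_one' ha hb
  have p : ∀ {a b : F}, V a ≤ 1 → V b ≤ 1 → V (a + b) ≤ 1 := by
    intro a b ha hb
    exact V.map_add_le ha hb
  have t1 : V ((y - y') * -(y * y + y * y' + y' * y')) < 1 := by
    apply KSq_mul e
    rw [Valuation.map_neg]
    exact p (p (m hy hy) (m hy hy')) (m hy' hy')
  have t2 : V ((c₂ - d₂) * -(y * y)) < 1 := by
    apply KSq_mul e₂
    rw [Valuation.map_neg]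
    exact m hy hy
  have t3 : V ((y - y') * -(d₂ * (y + y'))) < 1 := by
    apply KSq_mul e
    rw [Valuation.map_neg]
    exact m hd₂ (p hy hy')
  have t4 : V ((c₁ - d₁) * -y) < 1 := by
    apply KSq_mul e₁
    rw [Valuation.map_neg]
    exact hy
  have t5 : V ((y - y') * -d₁) < 1 := by
    apply KSq_mul e
    rw [Valuation.map_neg]
    exact hd₁
  have t6 : V ((c₀ - d₀) * -1) < 1 := by
    apply KSq_mul e₀
    rw [Valuation.map_neg, map_one]
  have t := KSq_add (KSq_add (KSq_add (KSq_add (KSq_add (KSq_add h t1) t2) t3) t4) t5) t6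
  have he : y ^ 3 + c₂ * y ^ 2 + c₁ * y + c₀ + (y - y') * -(y * y + y * y' + y' * y') +
      (c₂ - d₂) * -(y * y) + (y - y') * -(d₂ * (y + y')) + (c₁ - d₁) * -y + (y - y') * -d₁ +
      (c₀ - d₀) * -1 = y' ^ 3 + d₂ * y' ^ 2 + d₁ * y' + d₀ := by ring
  rwa [he] at t

theorem sq_of_kapK {k K L : Type} [Field k] [NumberField k] [Field K] [NumberField K] [Field L]
    [NumberField L] [Algebra k K] [Algebra K L] [Algebra k L] [IsScalarTower k K L]
    [IsGalois K L] (hodd : Odd (Module.finrank K L)) (R2 : NoNewUnramified K L)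
    (hbad : ∀ v : HeightOneSpectrum (𝓞 K), (2 : 𝓞 K) ∈ v.asIdeal → UniqueOver K L v.asIdeal)
    (hunr : ∀ w : HeightOneSpectrum (𝓞 L), (2 : 𝓞 L) ∈ w.asIdeal →
      (2 : 𝓞 L) ∉ w.asIdeal ^ 2)
    (h3 : ¬ 3 ∣ Module.finrank K L ∨ CubIn k K L)
    {d : L} (hd : d ≠ 0) (ev : ∀ w : HeightOneSpectrum (𝓞 L), Even (log (w.valuation L d)))
    (N : IsSquare (Algebra.norm K d))
    (kap : ∀ w : HeightOneSpectrum (𝓞 L), (2 : 𝓞 L) ∈ w.asIdeal → KapK k (w.valuation L) d) :
    IsSquare d := by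
  -- primes of `K` below
  have bne : ∀ w : HeightOneSpectrum (𝓞 L), w.asIdeal.under (𝓞 K) ≠ ⊥ := fun w =>
    Ideal.IsIntegral.comap_ne_bot _ w.ne_bot
  have mem_iff : ∀ (w : HeightOneSpectrum (𝓞 L)),
      (2 : 𝓞 K) ∈ w.asIdeal.under (𝓞 K) ↔ (2 : 𝓞 L) ∈ w.asIdeal := by
    intro w
    change algebraMap (𝓞 K) (𝓞 L) (2 : 𝓞 K) ∈ w.asIdeal ↔ _
    rw [map_ofNat]
  have huniq : ∀ w : HeightOneSpectrum (𝓞 L), (2 : 𝓞 L) ∈ w.asIdeal →
      UniqueOver K L (w.asIdeal.under (𝓞 K)) := by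
    intro w hw
    exact hbad ⟨w.asIdeal.under (𝓞 K), inferInstance, bne w⟩ ((mem_iff w).mpr hw)
  -- the product with a conjugate
  have hcardG : Nat.card (L ≃ₐ[K] L) = Module.finrank K L := IsGalois.card_aut_eq_finrank K L
  have prodsq : ∀ σ : L ≃ₐ[K] L, IsSquare (d * σ d) := by
    intro σ
    have hσ0 : σ d ≠ 0 := by
      intro h0
      apply hd
      rw [← σ.symm_apply_apply d, h0, map_zero]
    have hord : orderOf σ ∣ Module.finrank K L := by
      rw [← hcardG]
      exact orderOf_dvd_natCard σ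
    apply R2 _ (mul_ne_zero hd hσ0)
    · intro w
      rw [map_mul, log_mul ((Valuation.ne_zero_iff _).mpr hd) ((Valuation.ne_zero_iff _).mpr hσ0)]
      exact (ev w).add (even_conj σ ev w)
    · rw [map_mul, Algebra.norm_eq_of_algEquiv σ d]
      exact ⟨_, rfl⟩
    · intro w hw
      have hu := huniq w hw
      have hv2 := val_two_of_unram hw (hunr w hw)
      have hσ : ∀ x, w.valuation L (σ x) = w.valuation L x := val_conj_of_unique σ w hu
      refine kapK_conj hv2 hσ (Odd.of_dvd_nat hodd hord) ?_ (kap w hw)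
      rcases h3 with h3 | h3
      · left
        rw [Nat.coprime_comm, Nat.coprime_comm]
        exact (Nat.Prime.coprime_iff_not_dvd Nat.prime_three).mpr fun h => h3 (h.trans hord)
      · right
        intro c₂ c₁ c₀ y hy hc₂ hc₁ hc₀ hlt
        have hun := hunr w hw
        obtain ⟨y', hy'⟩ := int_close w y hy
        have cl : ∀ c : k, w.valuation L (algebraMap k L c) ≤ 1 →
            ∃ c' : 𝓞 k, w.valuation L (algebraMap k L c -
              algebraMap (𝓞 L) L (algebraMap (𝓞 k) (𝓞 L) c')) < 1 := by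
          intro c hc
          rw [val_eq w hw hun] at hc
          obtain ⟨c', hc'⟩ := int_close (below k w) c hc
          refine ⟨c', ?_⟩
          rw [← val_eq w hw hun, map_sub] at hc'
          have e7 : algebraMap k L ((algebraMap (𝓞 k) k) c') =
              algebraMap (𝓞 L) L (algebraMap (𝓞 k) (𝓞 L) c') := by
            rw [← IsScalarTower.algebraMap_apply (𝓞 k) k L,
              ← IsScalarTower.algebraMap_apply (𝓞 k) (𝓞 L) L]
          rw [← e7]
          exact hc'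
        obtain ⟨d₂, hd₂⟩ := cl c₂ hc₂
        obtain ⟨d₁, hd₁⟩ := cl c₁ hc₁
        obtain ⟨d₀, hd₀⟩ := cl c₀ hc₀
        have hlt' := KSq_cub hy (w.valuation_le_one y') (w.valuation_le_one _)
          (w.valuation_le_one _) hy' hd₂ hd₁ hd₀ hlt
        have e9 : algebraMap (𝓞 L) L y' ^ 3 +
            algebraMap (𝓞 L) L (algebraMap (𝓞 k) (𝓞 L) d₂) * algebraMap (𝓞 L) L y' ^ 2 +
            algebraMap (𝓞 L) L (algebraMap (𝓞 k) (𝓞 L) d₁) * algebraMap (𝓞 L) L y' +
            algebraMap (𝓞 L) L (algebraMap (𝓞 k) (𝓞 L) d₀) =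
            algebraMap (𝓞 L) L (y' ^ 3 + algebraMap (𝓞 k) (𝓞 L) d₂ * y' ^ 2 +
              algebraMap (𝓞 k) (𝓞 L) d₁ * y' + algebraMap (𝓞 k) (𝓞 L) d₀) := by
          simp only [map_add, map_pow, map_mul]
        rw [e9] at hlt'
        obtain ⟨c, hc⟩ := h3 w hw d₂ d₁ d₀ y' ((w.valuation_lt_one_iff_mem _).mp hlt')
        have hc1 := (w.valuation_lt_one_iff_mem (K := L) _).mpr hc
        refine ⟨algebraMap (𝓞 K) K c, ?_⟩
        have e7 : algebraMap K L ((algebraMap (𝓞 K) K) c) =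
            algebraMap (𝓞 L) L (algebraMap (𝓞 K) (𝓞 L) c) := by
          rw [← IsScalarTower.algebraMap_apply (𝓞 K) K L,
            ← IsScalarTower.algebraMap_apply (𝓞 K) (𝓞 L) L]
        rw [e7]
        have hs := KSq_add hy' hc1
        have e10 : y - algebraMap (𝓞 L) L y' +
            algebraMap (𝓞 L) L (y' - algebraMap (𝓞 K) (𝓞 L) c) =
            y - algebraMap (𝓞 L) L (algebraMap (𝓞 K) (𝓞 L) c) := by
          rw [map_sub]
          ring
        exact e10 ▸ hs
  have h4 : IsSquare (∏ σ : L ≃ₐ[K] L, (d * σ d)) :=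
    Finset.isSquare_prod _ fun σ _ => prodsq σ
  rw [Finset.prod_mul_distrib, Finset.prod_const, ← Algebra.norm_eq_prod_automorphisms,
    Finset.card_univ, ← Nat.card_eq_fintype_card, hcardG] at h4
  obtain ⟨q, hq⟩ := N
  obtain ⟨r, hr⟩ := h4
  obtain ⟨kk, hk⟩ := hodd
  have hq0 : algebraMap K L q ≠ 0 := by
    intro h0
    have : algebraMap K L (Algebra.norm K d) = 0 := by rw [hq, map_mul, h0, mul_zero]
    rw [map_eq_zero, Algebra.norm_eq_zero_iff] at this
    exact hd this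
  rw [hq, map_mul, hk] at hr
  refine ⟨r / (algebraMap K L q * d ^ kk), ?_⟩
  have hk0 : d ^ kk ≠ 0 := pow_ne_zero kk hd
  field_simp
  rw [pow_two r, ← hr]
  ring

end H73IS
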