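import Pool.Agent.H73.IS.KTa

/-!
Row KTb (about 140 lines): the local lemma at two over a general base field, second case: 4 | A, 4 | B, not 16 | B.

Model: row Tb (H73/IS/Tb.lean). hB gives V (4 B) ≤ exp (-4), so V B ≤ exp (-2); hB' : V B > exp (-4), so V B = exp (-2) or exp (-3). Use kapK_one, kapK_base (row KTa).
 M, e, N with d N^2 = d^2 M^4 + A d M^2 e^2 + B e^4. e = 0: d (M^2/N)^2 = 1. M = 0: d (N/e^2)^2 = B: parity (log V d even) excludes V B = exp (-3); V B = exp (-2): m = B/4, t = N/(2 e^2): kapK_base.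
 Otherwise X := d (M/e)^2, n := N/e^2: log V X even, d n^2 = X^2 + A X + B. (1) V X ≥ 1: t = n/X: d t^2 - 1 = A/X + B/X^2, V ≤ exp (-2).
 (2) V X < 1: V X ≤ exp (-2): X = 4 X', B = 4 B1, A = 4 A': d (n/2)^2 = 4 X'^2 + 4 A' X' + B1 (V A' ≤ 1, V X' ≤ 1). V B1 = 1: kapK_base with m = B1, t = n/2. V B1 = exp (-1): V (d (n/2)^2) = exp (-1), but its log is even: contradiction.
-/

set_option autoImplicit false
open scoped Classical

open WithZero Pool.Agent.H10

namespace H73IS

section KTb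

variable {k F : Type*} [Field k] [Field F] [Algebra k F]
  {V : Valuation F (WithZero (Multiplicative ℤ))}

theorem KTb_even {d u : F} (hd : d ≠ 0) (hev : Even (log (V d))) (hu : u ≠ 0) :
    Even (log (V (d * u ^ 2))) := by
  rw [log_mul_sq V hd hu]
  rw [Int.even_iff] at hev ⊢
  omega

theorem KTb_odd {d u : F} (hd : d ≠ 0) (hev : Even (log (V d)))
    (h : V (d * u ^ 2) = exp (-1 : ℤ)) : False := by
  have hu0 : u ≠ 0 := by
    rintro rfl
    rw [zero_pow two_ne_zero, mul_zero, map_zero] at h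
    exact exp_ne_zero h.symm
  have h3 := KTb_even hd hev hu0
  rw [h, log_exp, Int.even_iff] at h3
  omega

theorem KTb_two (h2 : V 2 = exp (-1 : ℤ)) : (2 : F) ≠ 0 := by
  intro h
  rw [h, map_zero] at h2
  exact exp_ne_zero h2.symm

theorem KTb_four (h2 : V 2 = exp (-1 : ℤ)) : (4 : F) ≠ 0 := by
  intro h
  have h4 := V_four h2
  rw [h, map_zero] at h4
  exact exp_ne_zero h4.symm

theorem KTb_quarter (h2 : V 2 = exp (-1 : ℤ)) {x y : F} (h : x = 4 * y)
    (hx : V x ≤ exp (-2 : ℤ)) : V y ≤ 1 := by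
  rw [h, map_mul, V_four h2] at hx
  by_contra hcon
  rw [not_le] at hcon
  have h3 : exp (-2 : ℤ) * 1 < exp (-2 : ℤ) * V y := mul_lt_mul_of_pos_left hcon (exp_pos)
  rw [mul_one] at h3
  exact absurd h3 (not_lt.2 hx)

/-- `V B ≤ exp (-2)` from `V (A^2 - 4 B) ≤ exp (-4)`. -/
theorem KTb_B (h2 : V 2 = exp (-1 : ℤ)) {A B : F} (hA : V A ≤ exp (-2 : ℤ))
    (hB : V (A ^ 2 - 4 * B) ≤ exp (-4 : ℤ)) : V B ≤ exp (-2 : ℤ) := by
  have e4 : (exp (-4 : ℤ) : WithZero (Multiplicative ℤ)) = exp (-2) * exp (-2) := by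
    rw [← exp_add]; norm_num
  have h1 : V (A ^ 2) ≤ exp (-4 : ℤ) := by
    rw [map_pow, pow_two, e4]
    exact mul_le_mul' hA hA
  have h3 : V (4 * B) ≤ exp (-4 : ℤ) := by
    have e1 : 4 * B = A ^ 2 - (A ^ 2 - 4 * B) := by ring
    rw [e1]
    exact V_sub_le h1 hB
  rw [map_mul, V_four h2, e4] at h3
  by_contra hcon
  rw [not_le] at hcon
  have h4 : exp (-2 : ℤ) * exp (-2 : ℤ) < exp (-2 : ℤ) * V B :=
    mul_lt_mul_of_pos_left hcon (exp_pos)
  exact absurd h4 (not_lt.2 h3)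

theorem KTb_small (h2 : V 2 = exp (-1 : ℤ))
    (hP : ∀ x : k, V (algebraMap k F x) ≤ 1 → ∃ s : k, V (algebraMap k F (x - s ^ 2)) < 1)
    {A B : k} (hA : V (algebraMap k F A) ≤ exp (-2 : ℤ))
    (hB : V (algebraMap k F B) ≤ exp (-2 : ℤ))
    (hB' : ¬ V (algebraMap k F B) ≤ exp (-4 : ℤ))
    {d : F} (hd : d ≠ 0) (hev : Even (log (V d))) {X n : F}
    (hX : V X ≤ exp (-2 : ℤ))
    (h : d * n ^ 2 = X ^ 2 + algebraMap k F A * X + algebraMap k F B) : KapK k V d := by
  have h20 := KTb_two h2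
  have h40 := KTb_four h2
  have h4k : (4 : k) ≠ 0 := by
    intro h0
    refine h40 ?_
    have h1 : algebraMap k F 4 = 0 := by rw [h0, map_zero]
    rwa [map_ofNat] at h1
  obtain ⟨A', hA'⟩ : ∃ A' : F, algebraMap k F A = 4 * A' :=
    ⟨algebraMap k F A / 4, by field_simp⟩
  obtain ⟨B1, hB1⟩ : ∃ B1 : k, B = 4 * B1 := ⟨B / 4, by field_simp⟩
  obtain ⟨X', hX'⟩ : ∃ X' : F, X = 4 * X' := ⟨X / 4, by field_simp⟩
  have hB1' : algebraMap k F B = 4 * algebraMap k F B1 := by
    rw [hB1, map_mul, map_ofNat]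
  have hX1 : V X' ≤ 1 := KTb_quarter h2 hX' hX
  have hA1 : V A' ≤ 1 := KTb_quarter h2 hA' hA
  have hB2 : V (algebraMap k F B1) ≤ 1 := KTb_quarter h2 hB1' hB
  have e1 : d * (n / 2) ^ 2 = 4 * (X' ^ 2 + A' * X') + algebraMap k F B1 := by
    have h4 : d * n ^ 2 = 4 * (4 * (X' ^ 2 + A' * X') + algebraMap k F B1) := by
      rw [h, hX', hA', hB1']
      ring
    have h5 : d * (n / 2) ^ 2 = d * n ^ 2 / 4 := by
      field_simp
      norm_num
    rw [h5, h4]
    field_simp
  have e2 : V (4 * (X' ^ 2 + A' * X')) ≤ exp (-2 : ℤ) := by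
    rw [map_mul, V_four h2]
    apply mul_le_of_le_one_right'
    refine V_add_le ?_ (V_mul_le hA1 hX1)
    rw [map_pow]
    exact pow_le_one' hX1 2
  have h0 : V (algebraMap k F B1) ≠ 0 := by
    intro h0
    refine hB' ?_
    rw [hB1', map_mul, h0, mul_zero]
    exact zero_le
  have hlog : log (V (algebraMap k F B1)) = 0 ∨ log (V (algebraMap k F B1)) = -1 := by
    have h5 : log (V (algebraMap k F B1)) ≤ 0 := by
      rw [← exp_log h0, ← exp_zero, exp_le_exp] at hB2
      exact hB2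
    have h6 : ¬ (-2 + log (V (algebraMap k F B1)) ≤ -4) := by
      intro h6
      refine hB' ?_
      rw [hB1', map_mul, V_four h2, ← exp_log h0, ← exp_add, exp_le_exp]
      exact h6
    omega
  rcases hlog with ho | ho
  · have h6 : V (algebraMap k F B1) = 1 := by
      rw [← exp_log h0, ho, exp_zero]
    refine kapK_base (t := n / 2) h2 hP ?_ h6 ?_
    · intro h0
      rw [h0, zero_pow two_ne_zero, mul_zero] at e1
      have h7 : algebraMap k F B1 = -(4 * (X' ^ 2 + A' * X')) := by linear_combination -e1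
      have h8 : V (algebraMap k F B1) ≤ exp (-2 : ℤ) := by
        rw [h7, Valuation.map_neg]
        exact e2
      rw [h6] at h8
      exact absurd (exp_neg_two_lt.trans exp_neg_lt_one) (not_lt.2 h8)
    · have e3 : d * (n / 2) ^ 2 - algebraMap k F B1 = 4 * (X' ^ 2 + A' * X') := by
        rw [e1]
        ring
      rw [e3]
      exact e2
  · exfalso
    have h6 : V (algebraMap k F B1) = exp (-1 : ℤ) := by
      rw [← exp_log h0, ho]
    refine KTb_odd hd hev (u := n / 2) ?_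
    rw [e1, Valuation.map_add_eq_of_lt_right V ?_, h6]
    rw [h6]
    exact e2.trans_lt exp_neg_two_lt

theorem KTb_big {A B : k} (hA : V (algebraMap k F A) ≤ exp (-2 : ℤ))
    (hB : V (algebraMap k F B) ≤ exp (-2 : ℤ))
    {d : F} {X n : F} (hX : 1 ≤ V X)
    (h : d * n ^ 2 = X ^ 2 + algebraMap k F A * X + algebraMap k F B) : KapK k V d := by
  have hX0 : X ≠ 0 := by
    rintro rfl
    rw [map_zero] at hX
    exact absurd hX (not_le.2 one_pos)
  have hi : V X⁻¹ ≤ 1 := by
    rw [map_inv₀]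
    exact inv_le_one_of_one_le₀ hX
  have e1 : d * (n / X) ^ 2 - 1 =
      algebraMap k F A * X⁻¹ + algebraMap k F B * (X⁻¹ * X⁻¹) := by
    field_simp
    linear_combination h
  have e2 : V (algebraMap k F A * X⁻¹ + algebraMap k F B * (X⁻¹ * X⁻¹)) ≤ exp (-2 : ℤ) := by
    refine V_add_le ?_ ?_
    · rw [map_mul]
      exact (mul_le_of_le_one_right' hi).trans hA
    · rw [map_mul]
      exact (mul_le_of_le_one_right' (V_mul_le hi hi)).trans hB
  refine kapK_one (t := n / X) ?_ ?_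
  · intro h0
    rw [h0, zero_pow two_ne_zero, mul_zero, zero_sub] at e1
    rw [← e1, Valuation.map_neg, map_one] at e2
    exact absurd (exp_neg_two_lt.trans exp_neg_lt_one) (not_lt.2 e2)
  · rw [e1]
    exact e2

end KTb

theorem kapK_b {k F : Type*} [Field k] [Field F] [Algebra k F]
    {V : Valuation F (WithZero (Multiplicative ℤ))} (h2 : V 2 = exp (-1 : ℤ))
    (hP : ∀ x : k, V (algebraMap k F x) ≤ 1 → ∃ s : k, V (algebraMap k F (x - s ^ 2)) < 1)
    {A B : k} (hA : V (algebraMap k F A) ≤ exp (-2 : ℤ))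
    (hB : V (algebraMap k F (A ^ 2 - 4 * B)) ≤ exp (-4 : ℤ))
    (hB' : ¬ V (algebraMap k F B) ≤ exp (-4 : ℤ))
    {d : F} (hd : d ≠ 0) (hev : Even (log (V d)))
    (H : QPt (algebraMap k F A) (algebraMap k F B) d) : KapK k V d := by
  have hB2 : V (algebraMap k F B) ≤ exp (-2 : ℤ) := by
    refine KTb_B h2 hA ?_
    rwa [map_sub, map_mul, map_pow, map_ofNat] at hB
  obtain ⟨M, e, N, hMe, hE⟩ := H
  by_cases he : e = 0
  · have hM : M ≠ 0 := by
      rcases hMe with h | h
      · exact h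
      · exact absurd he h
    rw [he] at hE
    have h1 : N ^ 2 = d * M ^ 4 := by
      have h3 : d * N ^ 2 = d * (d * M ^ 4) := by
        rw [hE]
        ring
      exact mul_left_cancel₀ hd h3
    have hN : N ≠ 0 := by
      rintro rfl
      rw [zero_pow two_ne_zero] at h1
      exact mul_ne_zero hd (pow_ne_zero 4 hM) h1.symm
    refine kapK_one (t := M ^ 2 / N) (div_ne_zero (pow_ne_zero 2 hM) hN) ?_
    have e1 : d * (M ^ 2 / N) ^ 2 - 1 = 0 := by
      have h4 : d * (M ^ 2 / N) ^ 2 = d * M ^ 4 / N ^ 2 := by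
        field_simp
      rw [h4, ← h1, div_self (pow_ne_zero 2 hN), sub_self]
    rw [e1, map_zero]
    exact zero_le
  · have h1 : d * (N / e ^ 2) ^ 2 = (d * (M / e) ^ 2) ^ 2 +
        algebraMap k F A * (d * (M / e) ^ 2) + algebraMap k F B := by
      field_simp
      linear_combination hE
    rcases le_or_gt 1 (V (d * (M / e) ^ 2)) with h | h
    · exact KTb_big hA hB2 h h1
    · refine KTb_small h2 hP hA hB2 hB' hd hev ?_ h1
      by_cases hM : M = 0
      · rw [hM, zero_div, zero_pow two_ne_zero, mul_zero, map_zero]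
        exact zero_le
      · have h3 : Even (log (V (d * (M / e) ^ 2))) := KTb_even hd hev (div_ne_zero hM he)
        have h4 : V (d * (M / e) ^ 2) ≠ 0 :=
          (Valuation.ne_zero_iff V).2 (mul_ne_zero hd (pow_ne_zero 2 (div_ne_zero hM he)))
        rw [← exp_log h4, ← exp_zero, exp_lt_exp] at h
        rw [← exp_log h4, exp_le_exp]
        rw [Int.even_iff] at h3
        omega

end H73IS
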