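import Pool.Agent.H73.IS.Par
import Pool.Agent.H73.IS.KTb
import Pool.Agent.H73.IS.KDs
import Pool.Agent.H73.IS.KSq

/-!
Row KNq (about 220 lines): no new soluble classes, curves over k.

Model: row Nq (H73/IS/Nq.lean). For x ∈ 𝓞 k write x for its image in L (algebraMap k L x).
evK: at w with b ∈ w: UniqueOver for the prime of K below and even_of_norm_sq; otherwise V a ≤ 1, V b = 1 and even_of_qpt in the completion. posK: the real numbers: same proof as pos_of_qpt (row Rel) with real a, b. nqK_pos: R1, exists_completion (H10/RealPl), φ restricted to k: φ.comp (algebraMap k L).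
nqK_small: sq_of_kapK: at w above 2: val_two_of_unram (H10/Star), F = w.adicCompletion L with its algebra structure over k (letI := ((algebraMap L F).comp (algebraMap k L)).toAlgebra, IsScalarTower k L F), SmallAt (below k w) a b: i; A := a/4^i, B := b/16^i ∈ k. mem_pow_iff: V a ≤ exp (-(2i+1)), V (4^i) = exp (-2i), so V A ≤ exp (-1),
 V (A^2 - 4 B) ≤ exp (-4); and not (V A ≤ exp (-2) and V B ≤ exp (-4)). If V A = exp (-1): kapK_a. If V A ≤ exp (-2): then not V B ≤ exp (-4): kapK_b. QPt A B d from QPt a b d by QPt.scale with r = 2^i. hP from perf (v = below k w) and val_eq. Then kapK_descend.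
-/

set_option autoImplicit false
open scoped Classical

open NumberField IsDedekindDomain WithZero Pool.Agent.H10

namespace H73IS

theorem posK {a b d : ℝ} (h : a ^ 2 < 4 * b ∨ (0 < b ∧ a < 0)) (hd : d ≠ 0) (H : QPt a b d) :
    0 < d := by
  obtain ⟨M, e, N, hne, hE⟩ := H
  by_contra hcon
  have hd0 : d < 0 := lt_of_le_of_ne (not_lt.mp hcon) hd
  have hL : d * N ^ 2 ≤ 0 := mul_nonpos_of_nonpos_of_nonneg hd0.le (sq_nonneg N)
  have hpos : 0 < d ^ 2 * M ^ 4 + a * d * M ^ 2 * e ^ 2 + b * e ^ 4 := by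
    by_cases he : e = 0
    · have hM : M ≠ 0 := by
        rcases hne with h1 | h1
        · exact h1
        · exact absurd he h1
      have h2 : 0 < d ^ 2 * M ^ 4 := by positivity
      rw [he]
      linarith
    · have he4 : 0 < e ^ 4 := by positivity
      rcases h with h1 | ⟨h3, h4⟩
      · have h4 : 0 < (4 * b - a ^ 2) * e ^ 4 := mul_pos (by linarith) he4
        nlinarith [sq_nonneg (2 * d * M ^ 2 + a * e ^ 2)]
      · have h5 : 0 < a * d := mul_pos_of_neg_of_neg h4 hd0
        have h6 : 0 ≤ a * d * M ^ 2 * e ^ 2 := by positivity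
        have h7 : 0 ≤ d ^ 2 * M ^ 4 := by positivity
        have h8 : 0 < b * e ^ 4 := mul_pos h3 he4
        linarith
  linarith

section

variable {k K L : Type} [Field k] [NumberField k] [Field K] [NumberField K] [Field L]
  [NumberField L] [Algebra k K] [Algebra K L] [Algebra k L] [IsScalarTower k K L]

theorem KNq_tower (x : 𝓞 k) : algebraMap (𝓞 K) (𝓞 L) (algebraMap (𝓞 k) (𝓞 K) x) =
    algebraMap (𝓞 k) (𝓞 L) x := by
  apply RingOfIntegers.coe_injective
  change algebraMap K L (algebraMap k K (x : k)) = algebraMap k L (x : k)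
  exact (IsScalarTower.algebraMap_apply k K L (x : k)).symm

theorem evK (hodd : Odd (Module.finrank K L)) {a b : 𝓞 k}
    (hbad : ∀ v : HeightOneSpectrum (𝓞 K), algebraMap (𝓞 k) (𝓞 K) b ∈ v.asIdeal →
      UniqueOver K L v.asIdeal) {d : L} (hd : d ≠ 0)
    (Hf : FinQ L (algebraMap k L a) (algebraMap k L b) d)
    (N : IsSquare (Algebra.norm K d)) (w : HeightOneSpectrum (𝓞 L)) :
    Even (log (w.valuation L d)) := by
  by_cases hw : algebraMap (𝓞 k) (𝓞 L) b ∈ w.asIdeal
  · let v : HeightOneSpectrum (𝓞 K) :=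
      ⟨w.asIdeal.under (𝓞 K), inferInstance, Ideal.IsIntegral.comap_ne_bot _ w.ne_bot⟩
    have hv : algebraMap (𝓞 k) (𝓞 K) b ∈ v.asIdeal := by
      change algebraMap (𝓞 K) (𝓞 L) (algebraMap (𝓞 k) (𝓞 K) b) ∈ w.asIdeal
      rw [KNq_tower]
      exact hw
    have hvw : v.asIdeal.map (algebraMap (𝓞 K) (𝓞 L)) ≤ w.asIdeal := Ideal.map_comap_le
    exact even_of_norm_sq (v := v) hodd (hbad v hv) hvw hd N
  · have vB : w.valuation L (algebraMap k L (b : k)) = 1 :=
      (w.valuation_eq_one_iff_notMem (K := L)).mpr hw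
    have vA : w.valuation L (algebraMap k L (a : k)) ≤ 1 :=
      w.valuation_le_one (algebraMap (𝓞 k) (𝓞 L) a)
    rw [← valued_algebraMap]
    have H := Hf w
    refine even_of_qpt (F := w.adicCompletion L) Valued.v ?_ ?_ ?_ H
    · rw [valued_algebraMap]
      exact vA
    · rw [valued_algebraMap, vB]
    · rw [Ne, map_eq_zero]
      exact hd

theorem nqK_pos (hodd : Odd (Module.finrank K L)) (R1 : NoNewPositive K L) {a b : 𝓞 k}
    (h : RR k a b)
    (hbad : ∀ v : HeightOneSpectrum (𝓞 K), algebraMap (𝓞 k) (𝓞 K) b ∈ v.asIdeal →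
      UniqueOver K L v.asIdeal) : NewTrivQ K L (algebraMap k L a) (algebraMap k L b) := by
  intro d hd Hf Hi N
  apply R1 d hd (evK hodd hbad hd Hf N) N
  intro φ
  obtain ⟨v, ψ, hψ⟩ := exists_completion φ
  have h1 := (Hi v).map ψ
  rw [hψ, hψ, hψ] at h1
  refine posK (h (φ.comp (algebraMap k L))) ?_ h1
  rw [Ne, map_eq_zero]
  exact hd

theorem KNq_two {F : Type*} [Field F] {V : Valuation F (WithZero (Multiplicative ℤ))}
    (h2 : V 2 = exp (-1 : ℤ)) (n : ℕ) : V (2 ^ n) = exp (-(n : ℤ)) := by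
  rw [map_pow, h2, ← exp_nsmul]
  congr 1
  simp

theorem nqK_small [IsGalois K L] (hodd : Odd (Module.finrank K L)) (R2 : NoNewUnramified K L)
    {a b : 𝓞 k} (hb0 : b ≠ 0)
    (hS : ∀ v : HeightOneSpectrum (𝓞 k), (2 : 𝓞 k) ∈ v.asIdeal → SmallAt v a b)
    (hbad : ∀ v : HeightOneSpectrum (𝓞 K), algebraMap (𝓞 k) (𝓞 K) (2 * b) ∈ v.asIdeal →
      UniqueOver K L v.asIdeal)
    (hunr : ∀ w : HeightOneSpectrum (𝓞 L), (2 : 𝓞 L) ∈ w.asIdeal →
      (2 : 𝓞 L) ∉ w.asIdeal ^ 2)
    (h3 : ¬ 3 ∣ Module.finrank K L ∨ CubIn k K L) :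
    NewTrivQ K L (algebraMap k L a) (algebraMap k L b) := by
  intro d hd Hf Hi N
  have hbb : ∀ v : HeightOneSpectrum (𝓞 K), algebraMap (𝓞 k) (𝓞 K) b ∈ v.asIdeal →
      UniqueOver K L v.asIdeal := by
    intro v hv
    refine hbad v ?_
    rw [map_mul]
    exact Ideal.mul_mem_left _ _ hv
  have hb2 : ∀ v : HeightOneSpectrum (𝓞 K), (2 : 𝓞 K) ∈ v.asIdeal →
      UniqueOver K L v.asIdeal := by
    intro v hv
    refine hbad v ?_
    rw [map_mul, map_ofNat]
    exact Ideal.mul_mem_right _ _ hv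
  have hev := evK hodd hbb hd Hf N
  refine sq_of_kapK (k := k) hodd R2 hb2 hunr h3 hd hev N ?_
  intro w hw
  have hv2 := val_two_of_unram hw (hunr w hw)
  letI : Algebra k (w.adicCompletion L) :=
    ((algebraMap L (w.adicCompletion L)).comp (algebraMap k L)).toAlgebra
  haveI hST : IsScalarTower k L (w.adicCompletion L) := IsScalarTower.of_algebraMap_eq fun x => rfl
  apply kapK_descend w hv2
  have e2 : Valued.v (2 : w.adicCompletion L) = exp (-1 : ℤ) := by
    rw [valued_ofNat w 2]; exact hv2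
  have h20 : (2 : w.adicCompletion L) ≠ 0 := by
    intro h0
    rw [h0, map_zero] at e2
    exact exp_ne_zero e2.symm
  have hd' : algebraMap L (w.adicCompletion L) d ≠ 0 := by
    rw [Ne, map_eq_zero]
    exact hd
  have hev' : Even (log (Valued.v (algebraMap L (w.adicCompletion L) d))) := by
    rw [valued_algebraMap]
    exact hev w
  -- valuations of elements of `k`
  have hk : ∀ x : k, Valued.v (algebraMap k (w.adicCompletion L) x) =
      w.valuation L (algebraMap k L x) := fun x => by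
    change Valued.v (algebraMap L (w.adicCompletion L) (algebraMap k L x)) = _
    rw [valued_algebraMap]
  have hkv : ∀ x : k, Valued.v (algebraMap k (w.adicCompletion L) x) =
      (below k w).valuation k x := fun x => by
    rw [hk, val_eq w hw (hunr w hw)]
  have h2k : (2 : 𝓞 k) ∈ (below k w).asIdeal := by
    rw [mem_below, map_ofNat]
    exact hw
  have hP : ∀ x : k, Valued.v (algebraMap k (w.adicCompletion L) x) ≤ 1 →
      ∃ s : k, Valued.v (algebraMap k (w.adicCompletion L) (x - s ^ 2)) < 1 := by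
    intro x hx
    rw [hkv] at hx
    obtain ⟨s, hs⟩ := perf (below k w) h2k x hx
    exact ⟨s, by rw [hkv]; exact hs⟩
  obtain ⟨i, s1, s2, s3, s4⟩ := hS (below k w) h2k
  have hmem := fun (x : 𝓞 k) (n : ℕ) => mem_pow_iff w hw (hunr w hw) x n
  rw [hmem, ← hk] at s1 s2 s3
  rw [hmem, hmem, ← hk, ← hk] at s4
  have h20k : (2 : k) ≠ 0 := by
    intro h0
    apply h20
    rw [← map_ofNat (algebraMap k (w.adicCompletion L)) 2, h0, map_zero]
  -- powers of two
  have p2 : ∀ n : ℕ, Valued.v (algebraMap k (w.adicCompletion L) (2 ^ n)) = exp (-(n : ℤ)) := by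
    intro n
    rw [map_pow, map_ofNat, KNq_two e2]
  have hdiv : ∀ (x : k) (n m : ℕ), Valued.v (algebraMap k (w.adicCompletion L) (x / 2 ^ n)) ≤
      exp (-(m : ℤ)) ↔ Valued.v (algebraMap k (w.adicCompletion L) x) ≤ exp (-((n + m : ℕ) : ℤ)) := by
    intro x n m
    have hx : x = (x / 2 ^ n) * 2 ^ n := by
      rw [div_mul_cancel₀ _ (pow_ne_zero n h20k)]
    conv_rhs => rw [hx]
    rw [map_mul (algebraMap k (w.adicCompletion L)), map_mul Valued.v, p2]
    have e1 : (exp (-((n + m : ℕ) : ℤ)) : WithZero (Multiplicative ℤ)) =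
        exp (-(m : ℤ)) * exp (-(n : ℤ)) := by
      rw [← exp_add]
      congr 1
      push_cast
      ring
    rw [e1]
    exact (mul_le_mul_iff_left₀ (zero_lt_iff.2 exp_ne_zero)).symm
  obtain ⟨A, hA⟩ : ∃ A : k, A = (a : k) / 2 ^ (2 * i) := ⟨_, rfl⟩
  obtain ⟨B, hB⟩ : ∃ B : k, B = (b : k) / 2 ^ (4 * i) := ⟨_, rfl⟩
  have hA2 : (a : k) = (2 ^ i) ^ 2 * A := by
    rw [hA]
    field_simp
    ring
  have hB2 : (b : k) = (2 ^ i) ^ 4 * B := by
    rw [hB]
    field_simp
    ring
  have tA : Valued.v (algebraMap k (w.adicCompletion L) A) ≤ exp (-((1 : ℕ) : ℤ)) := by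
    rw [hA, hdiv]
    exact s1
  have tB : Valued.v (algebraMap k (w.adicCompletion L) (A ^ 2 - 4 * B)) ≤ exp (-4 : ℤ) := by
    have e1 : A ^ 2 - 4 * B = ((a ^ 2 - 4 * b : 𝓞 k) : k) / 2 ^ (4 * i) := by
      have e0 : ((a ^ 2 - 4 * b : 𝓞 k) : k) = (a : k) ^ 2 - 4 * (b : k) := by
        change algebraMap (𝓞 k) k (a ^ 2 - 4 * b) = algebraMap (𝓞 k) k a ^ 2 - 4 * algebraMap (𝓞 k) k b
        rw [map_sub, map_pow, map_mul, map_ofNat]
      rw [e0, hA2, hB2]
      field_simp
      ring
    rw [e1]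
    exact (hdiv _ _ 4).2 s3
  -- the point
  have L1 := Hf w
  have L2 : QPt (algebraMap k (w.adicCompletion L) A) (algebraMap k (w.adicCompletion L) B)
      (algebraMap L (w.adicCompletion L) d) := by
    rw [← QPt.scale (r := (2 : w.adicCompletion L) ^ i) (pow_ne_zero i h20)]
    have e5 : ((2 : w.adicCompletion L) ^ i) ^ 2 * algebraMap k (w.adicCompletion L) A =
        algebraMap L (w.adicCompletion L) (algebraMap k L (a : k)) := by
      change _ = algebraMap k (w.adicCompletion L) (a : k)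
      rw [hA2, map_mul, map_pow, map_pow, map_ofNat]
    have e6 : ((2 : w.adicCompletion L) ^ i) ^ 4 * algebraMap k (w.adicCompletion L) B =
        algebraMap L (w.adicCompletion L) (algebraMap k L (b : k)) := by
      change _ = algebraMap k (w.adicCompletion L) (b : k)
      rw [hB2, map_mul, map_pow, map_pow, map_ofNat]
    rw [e5, e6]
    exact L1
  by_cases hc : Valued.v (algebraMap k (w.adicCompletion L) A) ≤ exp (-2 : ℤ)
  · refine kapK_b e2 hP hc tB ?_ hd' hev' L2
    intro hB4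
    apply s4
    constructor
    · have h5 := (hdiv (a : k) (2 * i) 2).1 (by rw [← hA]; exact hc)
      exact h5
    · have h5 := (hdiv (b : k) (4 * i) 4).1 (by rw [← hB]; exact hB4)
      exact h5
  · refine kapK_a e2 hP ?_ tB hd' L2
    apply le_antisymm
    · exact tA
    · rw [not_le] at hc
      have h0 : Valued.v (algebraMap k (w.adicCompletion L) A) ≠ 0 := fun h0 => by
        rw [h0] at hc
        exact absurd hc (by simp)
      rw [← exp_log h0, exp_lt_exp] at hc
      rw [← exp_log h0, exp_le_exp]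
      omega

end

end H73IS
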