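import Pool.Agent.H73.IS.KDf2

/-!
Row KCub (about 220 lines): the property CubIn for p = 3.

Setting: k ⊂ K ⊂ L, [L : K] odd and Galois, the primes of K above 2 have one prime above them in L, and modulo each prime v of K above 2 there is a root of X^3 + X^2 + 1 (hypothesis hc); the residue field of k at its primes above 2 has 2^(2^s) elements (hypothesis hres).
PROOF. w above 2 in L, v, u below in K, k. κ_u ⊂ κ_v ⊂ κ_w finite fields; |κ_u| = q = 2^(2^s), |κ_v| = q^e. hc: κ_v contains a root of X^3 + X^2 + 1, so F_8 ⊂ κ_v and 3 divides [κ_v : F_2] = 2^s e (an element c with c^3 + c^2 + 1 = 0 satisfies c^7 = 1, c ≠ 1, so 7 divides |κ_v| - 1 = 2^(2^s e) - 1, so 3 | 2^s e), so 3 | e.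
 [κ_w : κ_v] is odd: it divides [L : K] (Galois with a unique prime above: e f = [L:K]: Ideal.ncard_primesOver_mul_ramificationIdxIn_mul_inertiaDegIn; or: |κ_w| = |κ_v|^f, sum e f = n with one term). So |κ_w| = q^(e f), f odd.
 y ∈ κ_w root of a monic cubic over κ_u: y^(q^6) = y (the degree d of y over κ_u is 1, 2 or 3: y ∈ κ_u(y) has q^d elements, y^(q^d) = y, d | 6; Mathlib: minpoly degree ≤ 3, FiniteField.pow_card on the field κ_u(y), or: IntermediateField.adjoin finrank = natDegree minpoly). Also y^(q^(e f)) = y. Hence y^(q^g) = y with g = gcd (6, e f)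
 (Frobenius powers: the set {n : y^(q^n) = y} is closed under gcd: Function.IsPeriodicPt.gcd for x ↦ x^q). gcd (6, e f) divides e: 3 | e; if 2 | e f then 2 | e (f odd). So y^(q^e) = y, and the elements of κ_w with y^(|κ_v|) = y are those of κ_v (at most |κ_v| roots of X^|κ_v| - X, all elements of κ_v are roots). So y is the image of an element of κ_v, i.e. congruent mod w to an element of 𝓞 K.
-/

set_option autoImplicit false
open scoped Classical

open NumberField IsDedekindDomain Pool.Agent.H10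

namespace H73IS

theorem KCub_iter {C : Type} [Monoid C] (q n : ℕ) (x : C) : (fun z : C => z ^ q)^[n] x = x ^ q ^ n := by
  induction n with
  | zero => simp
  | succ n ih => rw [Function.iterate_succ_apply', ih, pow_succ, pow_mul]

theorem KCub_per {C : Type} [Monoid C] (q n : ℕ) (x : C) :
    Function.IsPeriodicPt (fun z : C => z ^ q) n x ↔ x ^ q ^ n = x := by
  rw [Function.IsPeriodicPt, Function.IsFixedPt, KCub_iter]

theorem KCub_card {C : Type} [Field C] [Finite C] (x : C) : x ^ Nat.card C = x := by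
  have := Fintype.ofFinite C
  rw [Nat.card_eq_fintype_card]
  exact FiniteField.pow_card x

/-- the elements with `y ^ |B| = y` come from `B` -/
theorem KCub_range {B C : Type} [Field B] [Field C] [Finite C] [Algebra B C] {y : C}
    (h : y ^ Nat.card B = y) : ∃ b : B, algebraMap B C b = y := by
  have : Finite B := Finite.of_injective _ (algebraMap B C).injective
  have := Fintype.ofFinite B
  by_contra hcon
  push Not at hcon
  set P : Polynomial C := Polynomial.X ^ Nat.card B - Polynomial.X with hP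
  have h1 : 1 < Nat.card B := by
    rw [Nat.card_eq_fintype_card]
    exact Fintype.one_lt_card
  have hdeg : P.natDegree = Nat.card B := FiniteField.X_pow_card_sub_X_natDegree_eq C h1
  have hP0 : P ≠ 0 := FiniteField.X_pow_card_sub_X_ne_zero C h1
  have hroot : ∀ x : C, x ^ Nat.card B = x → x ∈ P.roots := by
    intro x hx
    rw [Polynomial.mem_roots hP0, Polynomial.IsRoot.def, hP, Polynomial.eval_sub,
      Polynomial.eval_pow, Polynomial.eval_X, hx, sub_self]
  let S : Finset C := insert y (Finset.univ.image (algebraMap B C))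
  have hS : S.card = Nat.card B + 1 := by
    rw [Finset.card_insert_of_notMem, Finset.card_image_of_injective _ (algebraMap B C).injective,
      Finset.card_univ, Nat.card_eq_fintype_card]
    intro hy
    obtain ⟨b, -, hb⟩ := Finset.mem_image.1 hy
    exact hcon b hb
  have hSub : S ⊆ P.roots.toFinset := by
    intro x hx
    rw [Multiset.mem_toFinset]
    apply hroot
    rcases Finset.mem_insert.1 hx with rfl | hx
    · exact h
    · obtain ⟨b, -, rfl⟩ := Finset.mem_image.1 hx
      rw [← map_pow, KCub_card]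
  have h2 := (Finset.card_le_card hSub).trans ((Multiset.toFinset_card_le _).trans
    (Polynomial.card_roots' P))
  rw [hS, hdeg] at h2
  omega

theorem KCub_dvd {e f : ℕ} (h3 : 3 ∣ e) (hf : Odd f) : Nat.gcd 6 (e * f) ∣ e := by
  have h6 : Nat.gcd 6 (e * f) ∣ 6 := Nat.gcd_dvd_left _ _
  have hef : Nat.gcd 6 (e * f) ∣ e * f := Nat.gcd_dvd_right _ _
  have hcop : Nat.Coprime 2 f := (Nat.coprime_two_left).2 hf
  have h2 : 2 ∣ Nat.gcd 6 (e * f) → 2 ∣ e := by
    intro h
    exact hcop.dvd_of_dvd_mul_right (h.trans hef)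
  have hle : Nat.gcd 6 (e * f) ≤ 6 := Nat.le_of_dvd (by norm_num) h6
  generalize Nat.gcd 6 (e * f) = g at *
  have hpos : 0 < g := Nat.pos_of_dvd_of_pos h6 (by norm_num)
  interval_cases g
  · exact one_dvd _
  · exact h2 (dvd_refl 2)
  · exact h3
  · exact absurd h6 (by decide)
  · exact absurd h6 (by decide)
  · exact Nat.Coprime.mul_dvd_of_dvd_of_dvd (by decide) (h2 (by decide)) h3

/-- a root of a monic cubic is fixed by the sixth power of the Frobenius map -/
theorem KCub_six {A C : Type} [Field A] [Field C] [Finite C] [Algebra A C] {y : C} {a₂ a₁ a₀ : A}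
    (hy : y ^ 3 + algebraMap A C a₂ * y ^ 2 + algebraMap A C a₁ * y + algebraMap A C a₀ = 0) :
    y ^ Nat.card A ^ 6 = y := by
  have : Finite A := Finite.of_injective _ (algebraMap A C).injective
  set p : Polynomial A := Polynomial.C 1 * Polynomial.X ^ 3 + Polynomial.C a₂ * Polynomial.X ^ 2 +
    Polynomial.C a₁ * Polynomial.X + Polynomial.C a₀ with hp
  have hdeg : p.natDegree = 3 := Polynomial.natDegree_cubic one_ne_zero
  have hp0 : p ≠ 0 := by
    intro h
    rw [h, Polynomial.natDegree_zero] at hdeg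
    omega
  have hpy : Polynomial.aeval y p = 0 := by
    rw [hp]
    simp only [map_add, map_mul, map_pow, Polynomial.aeval_C, Polynomial.aeval_X, map_one, one_mul]
    exact hy
  have hint : IsIntegral A y := IsIntegral.of_finite A y
  have hd3 : (minpoly A y).natDegree ≤ 3 := by
    rw [← hdeg]
    exact Polynomial.natDegree_le_of_dvd (minpoly.dvd A y hpy) hp0
  have hd1 : 0 < (minpoly A y).natDegree := minpoly.natDegree_pos hint
  have hfr : Module.finrank A (IntermediateField.adjoin A {y}) = (minpoly A y).natDegree :=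
    IntermediateField.adjoin.finrank hint
  have hcard : Nat.card (IntermediateField.adjoin A {y}) =
      Nat.card A ^ (minpoly A y).natDegree := by
    rw [← hfr]
    exact Module.natCard_eq_pow_finrank
  have h1 := KCub_card (⟨y, IntermediateField.mem_adjoin_simple_self A y⟩ :
    IntermediateField.adjoin A {y})
  rw [hcard] at h1
  have h2 : y ^ Nat.card A ^ (minpoly A y).natDegree = y := congrArg Subtype.val h1
  rw [← KCub_per] at h2 ⊢
  apply h2.trans_dvd
  generalize (minpoly A y).natDegree = d at *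
  interval_cases d
  · exact one_dvd _
  · decide
  · decide

/-- the statement for finite fields -/
theorem KCub_fin {A B C : Type} [Field A] [Field B] [Field C] [Finite C] [Algebra A B]
    [Algebra B C] [Algebra A C] {s : ℕ} (hq : Nat.card A = 2 ^ 2 ^ s)
    (hodd : Odd (Module.finrank B C)) {c : B} (hc : c ^ 3 + c ^ 2 + 1 = 0) {y : C} {a₂ a₁ a₀ : A}
    (hy : y ^ 3 + algebraMap A C a₂ * y ^ 2 + algebraMap A C a₁ * y + algebraMap A C a₀ = 0) :
    ∃ b : B, algebraMap B C b = y := by
  have : Finite B := Finite.of_injective _ (algebraMap B C).injective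
  have : Finite A := Finite.of_injective _ (algebraMap A C).injective
  have hB : Nat.card B = Nat.card A ^ Module.finrank A B := Module.natCard_eq_pow_finrank
  have hC : Nat.card C = Nat.card B ^ Module.finrank B C := Module.natCard_eq_pow_finrank
  have two : (2 : B) = 0 := by
    have := Fintype.ofFinite B
    have h1 := Nat.cast_card_eq_zero B
    rw [← Nat.card_eq_fintype_card, hB, hq, ← pow_mul] at h1
    push_cast at h1
    refine (pow_eq_zero_iff ?_).1 h1
    intro h0
    rw [h0, pow_zero] at h1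
    exact one_ne_zero h1
  have h3 : 3 ∣ Module.finrank A B := by
    have h7 : c ^ 7 = 1 := by
      linear_combination (c ^ 4 + c ^ 3 + c ^ 2 + 1) * hc -
        (c ^ 6 + c ^ 5 + c ^ 4 + c ^ 3 + c ^ 2 + 1) * two
    have h8 : c ^ 2 ^ 3 = c := by
      have : (2 : ℕ) ^ 3 = 7 + 1 := by norm_num
      rw [this, pow_succ, h7, one_mul]
    have h9 : c ^ 2 ^ (2 ^ s * Module.finrank A B) = c := by
      have h10 := KCub_card c
      rwa [hB, hq, ← pow_mul] at h10
    rw [← KCub_per] at h8 h9
    by_contra hnd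
    have hcop : Nat.gcd 3 (2 ^ s * Module.finrank A B) = 1 := by
      apply (Nat.Prime.coprime_iff_not_dvd Nat.prime_three).2
      intro hdvd
      rcases (Nat.Prime.dvd_mul Nat.prime_three).1 hdvd with h | h
      · have := Nat.Prime.dvd_of_dvd_pow Nat.prime_three h
        exact absurd this (by decide)
      · exact hnd h
    have h10 := h8.gcd h9
    rw [hcop, KCub_per, pow_one] at h10
    have h11 : c * (c - 1) = 0 := by linear_combination h10
    rcases mul_eq_zero.1 h11 with h12 | h12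
    · rw [h12] at hc
      simp at hc
    · rw [sub_eq_zero.1 h12] at hc
      apply one_ne_zero (α := B)
      linear_combination hc - two
  apply KCub_range
  have hy6 := KCub_six hy
  have hyC := KCub_card y
  rw [hC, hB, ← pow_mul] at hyC
  rw [← KCub_per] at hy6 hyC
  have h10 := (hy6.gcd hyC).trans_dvd (KCub_dvd h3 hodd)
  rw [KCub_per] at h10
  rw [hB]
  exact h10

theorem cubIn_of {k K L : Type} [Field k] [NumberField k] [Field K] [NumberField K] [Field L]
    [NumberField L] [Algebra k K] [Algebra K L] [Algebra k L] [IsScalarTower k K L]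
    [IsGalois K L] (hodd : Odd (Module.finrank K L))
    (hu : ∀ v : HeightOneSpectrum (𝓞 K), (2 : 𝓞 K) ∈ v.asIdeal → UniqueOver K L v.asIdeal)
    (hc : ∀ v : HeightOneSpectrum (𝓞 K), (2 : 𝓞 K) ∈ v.asIdeal →
      ∃ c : 𝓞 K, c ^ 3 + c ^ 2 + 1 ∈ v.asIdeal)
    (hres : ∀ u : HeightOneSpectrum (𝓞 k), (2 : 𝓞 k) ∈ u.asIdeal →
      ∃ s : ℕ, Nat.card (𝓞 k ⧸ u.asIdeal) = 2 ^ 2 ^ s) : CubIn k K L := by
  intro w hw c₂ c₁ c₀ y hy
  have _ := hu
  have hPv0 : w.asIdeal.under (𝓞 K) ≠ ⊥ := by
    intro h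
    have h2 : (2 : 𝓞 K) ∈ w.asIdeal.under (𝓞 K) := by
      rw [Ideal.under_def, Ideal.mem_comap, map_ofNat]
      exact hw
    rw [h, Ideal.mem_bot] at h2
    exact two_ne_zero h2
  have hPu0 : w.asIdeal.under (𝓞 k) ≠ ⊥ := by
    intro h
    have h2 : (2 : 𝓞 k) ∈ w.asIdeal.under (𝓞 k) := by
      rw [Ideal.under_def, Ideal.mem_comap, map_ofNat]
      exact hw
    rw [h, Ideal.mem_bot] at h2
    exact two_ne_zero h2
  let v : HeightOneSpectrum (𝓞 K) := ⟨w.asIdeal.under (𝓞 K), inferInstance, hPv0⟩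
  let u : HeightOneSpectrum (𝓞 k) := ⟨w.asIdeal.under (𝓞 k), inferInstance, hPu0⟩
  have hv2 : (2 : 𝓞 K) ∈ v.asIdeal := by
    change (2 : 𝓞 K) ∈ w.asIdeal.under (𝓞 K)
    rw [Ideal.under_def, Ideal.mem_comap, map_ofNat]
    exact hw
  have hu2 : (2 : 𝓞 k) ∈ u.asIdeal := by
    change (2 : 𝓞 k) ∈ w.asIdeal.under (𝓞 k)
    rw [Ideal.under_def, Ideal.mem_comap, map_ofNat]
    exact hw
  obtain ⟨s, hs⟩ := hres u hu2
  obtain ⟨c, hcv⟩ := hc v hv2
  have hwm : w.asIdeal.IsMaximal := w.isMaximal
  have hvm : v.asIdeal.IsMaximal := v.isMaximal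
  have hum : u.asIdeal.IsMaximal := u.isMaximal
  have : w.asIdeal.LiesOver v.asIdeal := inferInstanceAs (w.asIdeal.LiesOver (w.asIdeal.under (𝓞 K)))
  have : w.asIdeal.LiesOver u.asIdeal := inferInstanceAs (w.asIdeal.LiesOver (w.asIdeal.under (𝓞 k)))
  have : v.asIdeal.LiesOver u.asIdeal :=
    inferInstanceAs ((w.asIdeal.under (𝓞 K)).LiesOver (w.asIdeal.under (𝓞 k)))
  let : Field (𝓞 L ⧸ w.asIdeal) := Ideal.Quotient.field _
  let : Field (𝓞 K ⧸ v.asIdeal) := Ideal.Quotient.field _
  let : Field (𝓞 k ⧸ u.asIdeal) := Ideal.Quotient.field _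
  have : Finite (𝓞 L ⧸ w.asIdeal) := Ring.HasFiniteQuotients.finiteQuotient w.ne_bot
  have hf : Odd (Module.finrank (𝓞 K ⧸ v.asIdeal) (𝓞 L ⧸ w.asIdeal)) := by
    rw [← Ideal.inertiaDeg_eq_of_isMaximal v.asIdeal w.asIdeal,
      ← Ideal.inertiaDegIn_eq_inertiaDeg v.asIdeal w.asIdeal (L ≃ₐ[K] L)]
    have h1 := Ideal.ncard_primesOver_mul_ramificationIdxIn_mul_inertiaDegIn v.asIdeal (𝓞 L)
      (L ≃ₐ[K] L)
    rw [IsGalois.card_aut_eq_finrank] at h1
    rw [← h1, ← mul_assoc] at hodd
    exact Nat.Odd.of_mul_right hodd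
  have hcc : (Ideal.Quotient.mk v.asIdeal c) ^ 3 + (Ideal.Quotient.mk v.asIdeal c) ^ 2 + 1 = 0 := by
    rw [← map_pow, ← map_pow, ← map_add, ← map_one (Ideal.Quotient.mk v.asIdeal), ← map_add]
    exact Ideal.Quotient.eq_zero_iff_mem.2 hcv
  have hyy : (Ideal.Quotient.mk w.asIdeal y) ^ 3 +
      algebraMap (𝓞 k ⧸ u.asIdeal) (𝓞 L ⧸ w.asIdeal) (Ideal.Quotient.mk u.asIdeal c₂) *
        (Ideal.Quotient.mk w.asIdeal y) ^ 2 +
      algebraMap (𝓞 k ⧸ u.asIdeal) (𝓞 L ⧸ w.asIdeal) (Ideal.Quotient.mk u.asIdeal c₁) *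
        (Ideal.Quotient.mk w.asIdeal y) +
      algebraMap (𝓞 k ⧸ u.asIdeal) (𝓞 L ⧸ w.asIdeal) (Ideal.Quotient.mk u.asIdeal c₀) = 0 := by
    rw [Ideal.Quotient.algebraMap_mk_of_liesOver, Ideal.Quotient.algebraMap_mk_of_liesOver,
      Ideal.Quotient.algebraMap_mk_of_liesOver]
    simp only [← map_pow, ← map_mul, ← map_add]
    exact Ideal.Quotient.eq_zero_iff_mem.2 hy
  obtain ⟨b, hb⟩ := KCub_fin hs hf hcc hyy
  obtain ⟨b', rfl⟩ := Ideal.Quotient.mk_surjective b
  refine ⟨b', ?_⟩
  rw [Ideal.Quotient.algebraMap_mk_of_liesOver] at hb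
  exact Ideal.Quotient.eq.1 hb.symm

end H73IS
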