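import Pool.Agent.H73.IS.KDf2

/-!
Row KRes (about 130 lines): the residue fields above two of a field contained in a Galois extension of 2-power degree.

PROOF. hk.gal: F Galois over ℚ, [F : ℚ] = 2^m, k →+* F (algebra structure by toAlgebra). A prime P of 𝓞 F above u (going up: exists because 𝓞 k → 𝓞 F is integral and injective: Ideal.exists_ideal_over_maximal_of_isIntegral or exists_place_above). κ_u ⊂ κ_P finite fields, |κ_P| = 2^f with f = inertia degree over ℤ (or ℚ) and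
 e f g = [F : ℚ] = 2^m for the Galois extension F/ℚ (Ideal.ncard_primesOver_mul_ramificationIdxIn_mul_inertiaDegIn), so f is a power of 2. |κ_u|^r = |κ_P| = 2^f (r = [κ_P : κ_u]), |κ_u| = 2^n with n r = f, n divides a power of two, so n = 2^s. Alternatively Ideal.absNorm and inertiaDeg multiplicativity.
 Nat.card (𝓞 k ⧸ u) = Ideal.absNorm u (Submodule.cardQuot / Ideal.absNorm_apply).
-/

set_option autoImplicit false
open scoped Classical

open NumberField IsDedekindDomain Pool.Agent.H10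

namespace H73IS

/-- The residue fields of a two-base field. -/
theorem res_twoBase {k : Type} [Field k] [NumberField k] (hk : TwoBase k)
    (u : HeightOneSpectrum (𝓞 k)) (h2 : (2 : 𝓞 k) ∈ u.asIdeal) :
    ∃ s : ℕ, Nat.card (𝓞 k ⧸ u.asIdeal) = 2 ^ 2 ^ s := by
  obtain ⟨F, _, _, hG, ⟨m, hm⟩, ⟨φ⟩⟩ := hk.gal
  letI : Algebra k F := φ.toAlgebra
  haveI hFact : Fact (Nat.Prime 2) := ⟨Nat.prime_two⟩
  have hpm : (Ideal.span {(2 : ℤ)}).IsMaximal := by
    have := Int.ideal_span_isMaximal_of_prime 2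
    exact_mod_cast this
  have hum : u.asIdeal.IsMaximal := u.isMaximal
  have hu : u.asIdeal.LiesOver (Ideal.span {(2 : ℤ)}) := by
    constructor
    refine hpm.eq_of_le (Ideal.comap_ne_top _ hum.ne_top) ?_
    rw [Ideal.span_singleton_le_iff_mem, Ideal.under_def, Ideal.mem_comap]
    have h3 : algebraMap ℤ (𝓞 k) 2 = 2 := by simp
    rw [h3]
    exact h2
  obtain ⟨P, hP1, hP2⟩ := Ideal.exists_maximal_ideal_liesOver_of_isIntegral u.asIdeal (S := 𝓞 F)
  have hP3 : P.LiesOver (Ideal.span {(2 : ℤ)}) := Ideal.LiesOver.trans P u.asIdeal _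
  have h4 := Ideal.inertiaDeg_below_dvd (R := ℤ) u.asIdeal P
  have h5 := Ideal.inertiaDegIn_eq_inertiaDeg (Ideal.span {(2 : ℤ)}) P (F ≃ₐ[ℚ] F)
  have h6 := Ideal.ncard_primesOver_mul_ramificationIdxIn_mul_inertiaDegIn
    (Ideal.span {(2 : ℤ)}) (𝓞 F) (F ≃ₐ[ℚ] F)
  rw [IsGalois.card_aut_eq_finrank, hm] at h6
  have h7 : u.asIdeal.inertiaDeg ℤ ∣ 2 ^ m := by
    rw [← h6, h5]
    exact (h4.trans (Dvd.intro_left _ rfl)).trans (Dvd.intro_left _ rfl)
  obtain ⟨s, -, hs⟩ := (Nat.dvd_prime_pow Nat.prime_two).1 h7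
  refine ⟨s, ?_⟩
  have h8 := Ideal.absNorm_pow_inertiaDeg (Ideal.span {(2 : ℤ)}) u.asIdeal
  rw [hs, Ideal.absNorm_span_singleton] at h8
  have h9 : (Algebra.norm ℤ (2 : ℤ)).natAbs = 2 := by
    rw [Algebra.norm_self]
    rfl
  rw [h9] at h8
  rw [h8, Ideal.absNorm_apply, Submodule.cardQuot_apply]

end H73IS
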