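import Pool.Agent.H73.IS.Asm
import Pool.Agent.H5.SW.Fin

/-!
The theorem over real cyclotomic towers (helper73, after the assembly of helper5).
-/

set_option autoImplicit false
set_option linter.style.haveILetI false
open scoped Classical

open NumberField IsDedekindDomain WeierstrassCurve Pool.Agent.H10 H5SW

namespace H73IS

section

variable {K L : Type} [Field K] [NumberField K] [Field L] [NumberField L] [Algebra K L]

/-- The data which a high layer of the tower provides. -/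
theorem layer {p k0 T : ℕ} [Fact p.Prime] (hp2 : p ≠ 2) (hS : NV p k0) {D : ℤ} (hD : D ≠ 0)
    (hT : ∀ q : ℕ, q.Prime → q ∣ D.natAbs → q ≠ p → ¬ p ^ (T + 1) ∣ q ^ (p - 1) - 1)
    (hL : IsR p L) {i : ℕ} (hi : Module.finrank K L = p ^ i)
    (hk : k0 ≤ padicValNat p (Module.finrank ℚ K) + 1) (hTm : T ≤ padicValNat p (Module.finrank ℚ K) + 1)
    (h3 : p = 3 → (i = 0 ∨ 3 ∣ Module.finrank ℚ K)) :
    IsGalois K L ∧ NoNewPositive K L ∧ NoNewUnramified K L ∧
      (∀ v : HeightOneSpectrum (𝓞 K), (D : 𝓞 K) ∈ v.asIdeal → UniqueOver K L v.asIdeal) ∧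
      (∀ w : HeightOneSpectrum (𝓞 L), (2 : 𝓞 L) ∈ w.asIdeal → (2 : 𝓞 L) ∉ w.asIdeal ^ 2) ∧
      (¬ 3 ∣ Module.finrank K L ∨ ∀ v : HeightOneSpectrum (𝓞 K), (2 : 𝓞 K) ∈ v.asIdeal →
        ∃ c : 𝓞 K, c ^ 3 + c ^ 2 + 1 ∈ v.asIdeal) := by
  have hp := (Fact.out : p.Prime)
  obtain ⟨n, M, F, _, _, _, _, _, _, _, ⟨Tw⟩⟩ := exists_tower (p := p) hp2 hL hi
  haveI : IsGalois K L := galois_KL hp2 Tw
  obtain ⟨R1, R2⟩ := noNew_of_tower hp2 hS hk Tw
  refine ⟨inferInstance, R1, R2, ?_, two_unramified hp2 Tw, ?_⟩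
  · intro v hv
    obtain ⟨q, hq, hqD, hqv⟩ : ∃ q : ℕ, q.Prime ∧ q ∣ D.natAbs ∧ (q : 𝓞 K) ∈ v.asIdeal := by
      set N := D.natAbs with hN
      have hN0 : N ≠ 0 := Int.natAbs_ne_zero.mpr hD
      have hNv : (N : 𝓞 K) ∈ v.asIdeal := by
        rcases Int.natAbs_eq D with h | h
        · rwa [h, ← hN, Int.cast_natCast] at hv
        · rw [h, ← hN, Int.cast_neg, Int.cast_natCast] at hv
          exact neg_mem_iff.mp hv
      have key : ∀ n : ℕ, n ≠ 0 → n ∣ N → (n : 𝓞 K) ∈ v.asIdeal →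
          ∃ q : ℕ, q.Prime ∧ q ∣ N ∧ (q : 𝓞 K) ∈ v.asIdeal := by
        intro n
        induction n using Nat.recOnMul with
        | zero => intro h; exact absurd rfl h
        | one =>
          intro _ _ h
          exact absurd ((Ideal.eq_top_iff_one _).mpr (by simpa using h)) v.isPrime.ne_top
        | prime q hq => intro _ hqD hqv; exact ⟨q, hq, hqD, hqv⟩
        | mul x y ihx ihy =>
          intro h0 hxy hm
          push_cast at hm
          rcases v.isPrime.mem_or_mem hm with h | h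
          · exact ihx (left_ne_zero_of_mul h0) ((dvd_mul_right x y).trans hxy) h
          · exact ihy (right_ne_zero_of_mul h0) ((dvd_mul_left y x).trans hxy) h
      exact key N hN0 dvd_rfl hNv
    exact unique_tower hp2 Tw hq (fun hqp => hT q hq hqD hqp) hTm v hqv
  · by_cases hp3 : p = 3
    · subst hp3
      rcases h3 rfl with h | h
      · left
        rw [hi, h, pow_zero]
        norm_num
      · right
        exact cubic Tw rfl h
    · left
      rw [hi]
      intro h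
      have := (Nat.prime_dvd_prime_iff_eq Nat.prime_three hp).mp (Nat.prime_three.dvd_of_dvd_pow h)
      exact hp3 this.symm

end

/-- Stability of the two-primary part of the Tate-Shafarevich group and of the Mordell-Weil group
in the tower of the totally real subfields of `ℚ(ζ_{p^∞})`. -/
theorem tower (p : ℕ) [Fact p.Prime] (hp2 : p ≠ 2) {a b a₀ b₀ : ℤ} {i₀ : ℕ} (hb0 : b ≠ 0)
    (hd0 : a ^ 2 - 4 * b ≠ 0) (ha : a = 4 ^ i₀ * a₀) (hb : b = 16 ^ i₀ * b₀) (hR : Red a₀ b₀)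
    (hst : RPos a b ↔ ¬ Small a₀ b₀) :
    ∃ N : ℕ, ∀ (K L : Type) [Field K] [NumberField K] [Field L] [NumberField L] [Algebra K L],
      IsR p L → (∃ i : ℕ, Module.finrank K L = p ^ i) → p ^ N ∣ Module.finrank ℚ K →
      ∀ (E : WeierstrassCurve K), E = ⟨0, (a : K), 0, (b : K), 0⟩ →
      ShaTwoBijective K E L ∧
      ∃ m : ℕ, Odd m ∧ ∀ P : (E.baseChange L).toAffine.Point,
        ∃ Q : (E.baseChange K).toAffine.Point,
          m • P = WeierstrassCurve.Affine.Point.map (Algebra.ofId K L) Q := by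
  have hp := (Fact.out : p.Prime)
  obtain ⟨k0, hk0⟩ := sinnott (p := p) hp2
  have hDz : 2 * b * (a ^ 2 - 4 * b) ≠ 0 := mul_ne_zero (mul_ne_zero two_ne_zero hb0) hd0
  have hD : (2 * b * (a ^ 2 - 4 * b)).natAbs ≠ 0 := Int.natAbs_ne_zero.mpr hDz
  obtain ⟨T, hT⟩ := exists_val_bound (p := p) hD
  refine ⟨k0 + T + 1, ?_⟩
  intro K L _ _ _ _ _ hL ⟨i, hi⟩ hN E hE
  have hK0 : Module.finrank ℚ K ≠ 0 := Module.finrank_pos.ne'
  have hm : k0 + T + 1 ≤ padicValNat p (Module.finrank ℚ K) :=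
    (padicValNat_dvd_iff_le hK0).mp hN
  have hodd : Odd (Module.finrank K L) := by
    rw [hi]
    exact (hp.odd_of_ne_two hp2).pow
  obtain ⟨g, R1, R2, hbad, hunr, h3⟩ := layer (K := K) (L := L) hp2 hk0 hDz hT hL hi (by omega)
    (by omega) (by
      intro h3
      right
      subst h3
      exact (dvd_pow_self 3 (by omega)).trans hN)
  exact stable hodd R1 R2 hb0 hd0 ha hb hR hst hbad hunr h3 E hE

end H73IS
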