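import Pool.Agent.H73.IS.KTwo
import Pool.Agent.H73.IS.KCub
import Pool.Agent.H73.IS.KRes
import Pool.Agent.H73.IS.Tow

/-!
Stability in the towers over `k` (helper73), from the data of one layer.
-/

set_option autoImplicit false
open scoped Classical

open NumberField IsDedekindDomain WeierstrassCurve Pool.Agent.H10

namespace H73IS

/-- The curve `y^2 = x (x^2 + a x + b)`, with `a`, `b` in `𝓞 k`, over an extension `K` of `k`. -/
def ecurve {k : Type} [Field k] [NumberField k] (K : Type) [Field K] [Algebra k K] (a b : 𝓞 k) :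
    WeierstrassCurve K := ⟨0, algebraMap k K a, 0, algebraMap k K b, 0⟩

/-- Bijectivity on the two-primary part of the Tate-Shafarevich group, and odd index. -/
def StableW (K L : Type) [Field K] [NumberField K] [Field L] [NumberField L] [Algebra K L]
    (E : WeierstrassCurve K) : Prop :=
  ShaTwoBijective K E L ∧
    ∃ m : ℕ, Odd m ∧ ∀ P : (E.baseChange L).toAffine.Point,
      ∃ Q : (E.baseChange K).toAffine.Point,
        m • P = WeierstrassCurve.Affine.Point.map (Algebra.ofId K L) Q

theorem stableW_of {K L : Type} [Field K] [NumberField K] [Field L] [NumberField L] [Algebra K L]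
    [IsGalois K L] (hodd : Odd (Module.finrank K L)) {E : WeierstrassCurve K} {a b : K}
    (hT : IsTw E a b) (H : NewTrivQ K L (algebraMap K L a) (algebraMap K L b))
    (H' : NewTrivQ K L (algebraMap K L (-2 * a)) (algebraMap K L (a ^ 2 - 4 * b))) :
    StableW K L E := by
  refine ⟨shaTwoBijective rfl (bijOn hodd hT rfl H H'), ?_⟩
  obtain ⟨m, hm, hP⟩ := mw_odd (V := E) (V' := E.baseChange L) hodd hT rfl H H'
  refine ⟨m, hm, fun P => ?_⟩
  obtain ⟨Q, hQ⟩ := hP P
  refine ⟨Q, ?_⟩
  rw [hQ]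
  exact (map_eq_pm (S := K) E (Algebra.ofId K L) Q).symm

lemma NewTrivQ.scale {K L : Type} [Field K] [NumberField K] [Field L] [NumberField L]
    [Algebra K L] {a b : L} (H : NewTrivQ K L a b) : NewTrivQ K L (4 * a) (16 * b) := by
  intro d hd hf hi hN
  refine H d hd ?_ ?_ hN
  · intro v
    have h := hf v
    have e1 : algebraMap L (v.adicCompletion L) (4 * a) = 2 ^ 2 * algebraMap L _ a := by
      rw [map_mul, map_ofNat]; norm_num
    have e2 : algebraMap L (v.adicCompletion L) (16 * b) = 2 ^ 4 * algebraMap L _ b := by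
      rw [map_mul, map_ofNat]; norm_num
    have h2 : (2 : v.adicCompletion L) ≠ 0 := by
      have := (algebraMap L (v.adicCompletion L)).injective.ne (two_ne_zero (α := L))
      rwa [map_ofNat, map_zero] at this
    rw [e1, e2, QPt.scale h2] at h
    exact h
  · intro v
    have h := hi v
    have e1 : algebraMap L v.Completion (4 * a) = 2 ^ 2 * algebraMap L _ a := by
      rw [map_mul, map_ofNat]; norm_num
    have e2 : algebraMap L v.Completion (16 * b) = 2 ^ 4 * algebraMap L _ b := by
      rw [map_mul, map_ofNat]; norm_num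
    have h2 : (2 : v.Completion) ≠ 0 := by
      have := (algebraMap L v.Completion).injective.ne (two_ne_zero (α := L))
      rwa [map_ofNat, map_zero] at this
    rw [e1, e2, QPt.scale h2] at h
    exact h

section

variable {k K L : Type} [Field k] [NumberField k] [Field K] [NumberField K] [Field L]
  [NumberField L] [Algebra k K] [Algebra K L] [Algebra k L] [IsScalarTower k K L]

/-- One layer: both curves are stable. -/
theorem layer_stable [IsGalois K L] (hodd : Odd (Module.finrank K L)) (R1 : NoNewPositive K L)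
    (R2 : NoNewUnramified K L) {a b : 𝓞 k} (hb0 : b ≠ 0) (hd0 : a ^ 2 - 4 * b ≠ 0)
    (hR : RR k a b)
    (hS : ∀ v : HeightOneSpectrum (𝓞 k), (2 : 𝓞 k) ∈ v.asIdeal → ¬ SmallAt v a b)
    (hunrk : ∀ v : HeightOneSpectrum (𝓞 k), (2 : 𝓞 k) ∈ v.asIdeal → (2 : 𝓞 k) ∉ v.asIdeal ^ 2)
    (hbad : ∀ v : HeightOneSpectrum (𝓞 K),
      algebraMap (𝓞 k) (𝓞 K) (2 * b * (a ^ 2 - 4 * b)) ∈ v.asIdeal → UniqueOver K L v.asIdeal)
    (hunr : ∀ w : HeightOneSpectrum (𝓞 L), (2 : 𝓞 L) ∈ w.asIdeal →
      (2 : 𝓞 L) ∉ w.asIdeal ^ 2)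
    (h3 : ¬ 3 ∣ Module.finrank K L ∨ CubIn k K L) :
    StableW K L (ecurve K a b) ∧ StableW K L (ecurve K (-2 * a) (a ^ 2 - 4 * b)) := by
  obtain ⟨H, H'⟩ := twoK (k := k) (K := K) (L := L) hodd R1 R2 hb0 hd0 hR hS hunrk hbad hunr h3
  have ea : algebraMap k K ((-2 * a : 𝓞 k) : k) = -2 * algebraMap k K a := by
    have e : ((-2 * a : 𝓞 k) : k) = -2 * (a : k) := by
      change algebraMap (𝓞 k) k (-2 * a) = -2 * algebraMap (𝓞 k) k a
      rw [map_mul, map_neg, map_ofNat]
    rw [e, map_mul, map_neg, map_ofNat]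
  have eb : algebraMap k K ((a ^ 2 - 4 * b : 𝓞 k) : k) =
      algebraMap k K a ^ 2 - 4 * algebraMap k K b := by
    have e : ((a ^ 2 - 4 * b : 𝓞 k) : k) = (a : k) ^ 2 - 4 * (b : k) := by
      change algebraMap (𝓞 k) k (a ^ 2 - 4 * b) = algebraMap (𝓞 k) k a ^ 2 - 4 * algebraMap (𝓞 k) k b
      rw [map_sub, map_pow, map_mul, map_ofNat]
    rw [e, map_sub, map_pow, map_mul, map_ofNat]
  have inj : Function.Injective (fun x : 𝓞 k => algebraMap k K x) :=
    (algebraMap k K).injective.comp (RingOfIntegers.coe_injective)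
  have hbK : algebraMap k K b ≠ 0 := by
    intro h
    exact hb0 (inj (by simpa using h))
  have hdK : algebraMap k K a ^ 2 - 4 * algebraMap k K b ≠ 0 := by
    intro h
    apply hd0
    apply inj
    change algebraMap k K ((a ^ 2 - 4 * b : 𝓞 k) : k) = algebraMap k K ((0 : 𝓞 k) : k)
    rw [eb, h]
    simp
  have tw : ∀ x : k, algebraMap K L (algebraMap k K x) = algebraMap k L x := fun x =>
    (IsScalarTower.algebraMap_apply k K L x).symm
  have hT : IsTw (ecurve K a b) (algebraMap k K a) (algebraMap k K b) :=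
    ⟨rfl, rfl, rfl, rfl, rfl, hbK, hdK, two_ne_zero⟩
  have hT' : IsTw (ecurve K (-2 * a) (a ^ 2 - 4 * b)) (-2 * algebraMap k K a)
      (algebraMap k K a ^ 2 - 4 * algebraMap k K b) := by
    refine ⟨rfl, ea, rfl, eb, rfl, hdK, ?_, two_ne_zero⟩
    have e : (-2 * algebraMap k K a) ^ 2 -
        4 * (algebraMap k K a ^ 2 - 4 * algebraMap k K b) = 16 * algebraMap k K b := by ring
    rw [e]
    exact mul_ne_zero (by norm_num) hbK
  have e1 : algebraMap K L (-2 * algebraMap k K a) = -2 * algebraMap k L a := by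
    rw [map_mul, map_neg, map_ofNat, tw]
  have e2 : algebraMap K L (algebraMap k K a ^ 2 - 4 * algebraMap k K b) =
      algebraMap k L a ^ 2 - 4 * algebraMap k L b := by
    rw [map_sub, map_pow, map_mul, map_ofNat, tw, tw]
  refine ⟨stableW_of hodd hT (by rwa [tw, tw]) (by rwa [e1, e2]), ?_⟩
  refine stableW_of hodd hT' (by rwa [e1, e2]) ?_
  have e3 : algebraMap K L (-2 * (-2 * algebraMap k K a)) = 4 * algebraMap k L a := by
    rw [map_mul, map_neg, map_ofNat, e1]; ring
  have e4 : algebraMap K L ((-2 * algebraMap k K a) ^ 2 -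
      4 * (algebraMap k K a ^ 2 - 4 * algebraMap k K b)) = 16 * algebraMap k L b := by
    rw [map_sub, map_pow, e1, map_mul (algebraMap K L) 4, map_ofNat, e2]; ring
  rw [e3, e4]
  exact H.scale

end

end H73IS
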