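import Pool.Agent.H73.IS.KDf2
import Pool.Agent.H10.StarGal

/-!
Row KCj (about 170 lines): the product of d and its conjugate is a square modulo four.

PROOF. cub_close: P monic cubic with integral coefficients, y0, y1, y2, y3 integral roots modulo the maximal ideal: two of them are congruent. If y0, y1, y2 are pairwise incongruent: P(y1) - P(y0) = (y1 - y0) Q(y0, y1), Q(u, v) = u^2 + u v + v^2 + c2 (u + v) + c1, so V (Q(y0, y1)) < 1, V (Q(y0, y2)) < 1;
 Q(y0, y2) - Q(y0, y1) = (y2 - y1)(y0 + y1 + y2 + c2), so V (y0 + y1 + y2 + c2) < 1. If y3 is incongruent to y0, y1 the same argument gives V (y0 + y1 + y3 + c2) < 1, so V (y3 - y2) < 1.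
 kapK_conj: y_j := (σ^j) y, j = 0..3: P(y_j) is σ^j of P(y) (c_i ∈ k ⊂ K fixed). cub_close: V (σ^i y - σ^j y) < 1 for some i < j ≤ 3, so V ((σ^r) y - y) < 1, r = j - i ∈ {1, 2, 3}: near_of_pow (H10/StarGal): r coprime to orderOf σ (odd, and prime to 3 in the first alternative): V (σ y - y) < 1.
 Second alternative: V (y - c) < 1 with c ∈ K: σ y - y = σ (y - c) - (y - c). Then as in kap_conj (H10/StarGal) with e := y, e' := σ y: SqModFour V (d * σ d) with t * σ t and 1.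
-/

set_option autoImplicit false
open scoped Classical

open WithZero Pool.Agent.H10

namespace H73IS

theorem cub_close {F : Type*} [Field F] {V : Valuation F (WithZero (Multiplicative ℤ))}
    {c₂ c₁ c₀ : F} (h₂ : V c₂ ≤ 1) (h₁ : V c₁ ≤ 1) (h₀ : V c₀ ≤ 1) (y : ℕ → F)
    (hy : ∀ j, V (y j) ≤ 1) (h : ∀ j, V (y j ^ 3 + c₂ * y j ^ 2 + c₁ * y j + c₀) < 1) :
    ∃ i j : ℕ, i < j ∧ j ≤ 3 ∧ V (y j - y i) < 1 := by
  by_contra hcon
  push Not at hcon
  have hone : ∀ i j : ℕ, i < j → j ≤ 3 → V (y j - y i) = 1 := fun i j h1 h2 =>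
    le_antisymm (V_sub_le (hy j) (hy i)) (hcon i j h1 h2)
  have hq : ∀ j, 0 < j → j ≤ 3 →
      V (y 0 ^ 2 + y 0 * y j + y j ^ 2 + c₂ * (y 0 + y j) + c₁) < 1 := by
    intro j hj hj3
    have h1 : V ((y j - y 0) * (y 0 ^ 2 + y 0 * y j + y j ^ 2 + c₂ * (y 0 + y j) + c₁)) < 1 := by
      have e1 : (y j - y 0) * (y 0 ^ 2 + y 0 * y j + y j ^ 2 + c₂ * (y 0 + y j) + c₁) =
          (y j ^ 3 + c₂ * y j ^ 2 + c₁ * y j + c₀) - (y 0 ^ 3 + c₂ * y 0 ^ 2 + c₁ * y 0 + c₀) := by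
        ring
      rw [e1]
      exact V_sub_lt (h j) (h 0)
    rw [map_mul, hone 0 j hj hj3, one_mul] at h1
    exact h1
  have hs : ∀ j, 1 < j → j ≤ 3 → V (y 0 + y 1 + y j + c₂) < 1 := by
    intro j hj hj3
    have h1 : V ((y j - y 1) * (y 0 + y 1 + y j + c₂)) < 1 := by
      have e1 : (y j - y 1) * (y 0 + y 1 + y j + c₂) =
          (y 0 ^ 2 + y 0 * y j + y j ^ 2 + c₂ * (y 0 + y j) + c₁) -
          (y 0 ^ 2 + y 0 * y 1 + y 1 ^ 2 + c₂ * (y 0 + y 1) + c₁) := by ring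
      rw [e1]
      exact V_sub_lt (hq j (by omega) hj3) (hq 1 (by norm_num) (by norm_num))
    rw [map_mul, hone 1 j hj hj3, one_mul] at h1
    exact h1
  have h1 : V (y 3 - y 2) < 1 := by
    have e1 : y 3 - y 2 = (y 0 + y 1 + y 3 + c₂) - (y 0 + y 1 + y 2 + c₂) := by ring
    rw [e1]
    exact V_sub_lt (hs 3 (by norm_num) le_rfl) (hs 2 (by norm_num) (by norm_num))
  rw [hone 2 3 (by norm_num) le_rfl] at h1
  exact lt_irrefl _ h1

theorem kapK_conj {k K L : Type} [Field k] [Field K] [Field L] [Algebra k K] [Algebra K L]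
    [Algebra k L] [IsScalarTower k K L] {V : Valuation L (WithZero (Multiplicative ℤ))}
    (h2 : V 2 = exp (-1 : ℤ)) {σ : L ≃ₐ[K] L} (hσ : ∀ x, V (σ x) = V x)
    (hodd : Odd (orderOf σ))
    (h3 : Nat.Coprime 3 (orderOf σ) ∨ ∀ (c₂ c₁ c₀ : k) (y : L), V y ≤ 1 →
      V (algebraMap k L c₂) ≤ 1 → V (algebraMap k L c₁) ≤ 1 → V (algebraMap k L c₀) ≤ 1 →
      V (y ^ 3 + algebraMap k L c₂ * y ^ 2 + algebraMap k L c₁ * y + algebraMap k L c₀) < 1 →
      ∃ c : K, V (y - algebraMap K L c) < 1)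
    {d : L} (h : KapK k V d) : SqModFour V (d * σ d) := by
  obtain ⟨t, y, c₂, c₁, c₀, ht, hy, g₂, g₁, g₀, hd, hroot⟩ := h
  have hσn : ∀ (j : ℕ) x, V ((σ ^ j) x) = V x := by
    intro j x
    induction j with
    | zero => rw [pow_zero, AlgEquiv.one_apply]
    | succ j ih => rw [pow_succ', AlgEquiv.mul_apply, hσ, ih]
  have hfix : ∀ (j : ℕ) (c : k), (σ ^ j) (algebraMap k L c) = algebraMap k L c := by
    intro j c
    rw [IsScalarTower.algebraMap_apply k K L, AlgEquiv.commutes]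
  have hclose : V (σ y - y) < 1 := by
    rcases h3 with h3 | h3
    · obtain ⟨i, j, hij, hj3, hlt⟩ := cub_close g₂ g₁ g₀ (fun j => (σ ^ j) y)
        (fun j => by rw [hσn]; exact hy) (fun j => by
          have e1 : ((σ ^ j) y) ^ 3 + algebraMap k L c₂ * ((σ ^ j) y) ^ 2 +
              algebraMap k L c₁ * ((σ ^ j) y) + algebraMap k L c₀ =
              (σ ^ j) (y ^ 3 + algebraMap k L c₂ * y ^ 2 + algebraMap k L c₁ * y +
                algebraMap k L c₀) := by
            simp only [map_add, map_mul, map_pow, hfix]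
          rw [e1, hσn]
          exact hroot)
      have e2 : (σ ^ j) y - (σ ^ i) y = (σ ^ i) ((σ ^ (j - i)) y - y) := by
        rw [map_sub, ← AlgEquiv.mul_apply, ← pow_add, Nat.add_sub_cancel' hij.le]
      have hlt' : V ((σ ^ (j - i)) y - y) < 1 := by
        have h5 : V ((σ ^ j) y - (σ ^ i) y) < 1 := hlt
        rw [e2, hσn] at h5
        exact h5
      have hr : j - i = 1 ∨ j - i = 2 ∨ j - i = 3 := by omega
      refine near_of_pow hσ (r := j - i) ?_ hlt'
      rcases hr with hr | hr | hr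
      · rw [hr]
        exact Nat.coprime_one_left _
      · rw [hr]
        exact hodd.coprime_two_left
      · rw [hr]
        exact h3
    · obtain ⟨c, hc⟩ := h3 c₂ c₁ c₀ y hy g₂ g₁ g₀ hroot
      have e1 : σ y - y = σ (y - algebraMap K L c) - (y - algebraMap K L c) := by
        rw [map_sub, AlgEquiv.commutes]
        ring
      rw [e1]
      exact V_sub_lt (by rw [hσ]; exact hc) hc
  have hσy : V (σ y) ≤ 1 := by rw [hσ]; exact hy
  have h1 : V (1 : L) ≤ 1 := by rw [map_one]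
  have hσt : σ t ≠ 0 := by
    intro h0
    apply ht
    rw [← σ.symm_apply_apply t, h0, map_zero]
  set δ := d * t ^ 2 - (1 + 2 * y) with hδ
  have hP : V (1 + 2 * y) ≤ 1 := V_add_le h1 ((V_two_mul_lt h2 hy).le)
  have hδ1 : V δ ≤ 1 := hd.trans (exp_neg_two_lt.trans exp_neg_lt_one).le
  have hA : V (d * t ^ 2) ≤ 1 := by
    have : d * t ^ 2 = δ + (1 + 2 * y) := by rw [hδ]; ring
    rw [this]; exact V_add_le hδ1 hP
  refine ⟨t * σ t, 1, mul_ne_zero ht hσt, map_one V, ?_⟩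
  rw [V_four h2]
  have e1 : d * σ d * (t * σ t) ^ 2 - 1 ^ 2 = (2 * (σ y - y) + 4 * (y + y * σ y)) +
      (δ * σ (d * t ^ 2) + (1 + 2 * y) * σ δ) := by
    have : σ δ = σ (d * t ^ 2) - (1 + 2 * σ y) := by
      rw [hδ, map_sub, map_add, map_mul σ 2 y, map_one, map_ofNat]
    rw [this, hδ, map_mul, map_pow]
    ring
  rw [e1]
  have h4 : V (4 * (y + y * σ y)) ≤ exp (-2 : ℤ) := by
    rw [map_mul, V_four h2]
    exact mul_le_of_le_one_right' (V_add_le hy (V_mul_le hy hσy))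
  refine V_add_le (V_add_le (V_two_mul h2 hclose) h4) (V_add_le ?_ ?_)
  · rw [map_mul, hσ]
    exact (mul_le_mul' hd hA).trans (by rw [mul_one])
  · rw [map_mul, hσ]
    exact (mul_le_mul' hP hd).trans (by rw [one_mul])

end H73IS
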