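import Mathlib

/-!
Towers over a base field `k` (definitions, no row).
-/

set_option autoImplicit false

open NumberField IsDedekindDomain

namespace H73IS

/-- `k` is totally real, unramified above two, and contained in a Galois extension of the
rationals whose degree is a power of two. -/
structure TwoBase (k : Type) [Field k] [NumberField k] : Prop where
  real : IsTotallyReal k
  unr : ∀ v : HeightOneSpectrum (𝓞 k), (2 : 𝓞 k) ∈ v.asIdeal → (2 : 𝓞 k) ∉ v.asIdeal ^ 2
  gal : ∃ (F : Type) (_ : Field F) (_ : NumberField F), IsGalois ℚ F ∧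
    (∃ m : ℕ, Module.finrank ℚ F = 2 ^ m) ∧ Nonempty (k →+* F)

/-- `L` is a totally real field between `k` and some `k(ζ_{p^n})`. -/
def IsLay (p : ℕ) (k L : Type) [Field k] [NumberField k] [Field L] [NumberField L]
    [Algebra k L] : Prop :=
  IsTotallyReal L ∧ ∃ n : ℕ, Nonempty (L →ₐ[k] CyclotomicField (p ^ (n + 1)) k)

end H73IS
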