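import Pool.Agent.H73.IS.KNq

/-!
Row KTwo (about 120 lines): the conditions for E and for E' = (-2 a, a^2 - 4 b).

PROOF of small_dual. v above 2, 2 ∉ v^2, b ≠ 0. Let i be maximal with a ∈ v^(2i) and b ∈ v^(4i) (i = 0 works; bounded because b ≠ 0 lies in only finitely many powers of v: b ∈ v^n for all n implies b = 0; use multiplicity / intValuation or Nat.find on the negation). Then not (a ∈ v^(2i+2) and b ∈ v^(4i+4)). Claim: i works for SmallAt v (-2a) (a^2-4b):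
 -2 a ∈ v^(2i+1) (2 ∈ v, a ∈ v^(2i)); a^2 - 4 b ∈ v^(4i) (a^2 ∈ v^(4i)); (-2a)^2 - 4 (a^2 - 4b) = 16 b ∈ v^(4i+4) (16 ∈ v^4); if -2a ∈ v^(2i+2) then a ∈ v^(2i+1) (2 ∈ v \ v^2: valuations, v.intValuation 2 = exp (-1)), and with a^2 - 4b ∈ v^(4i+4): SmallAt v a b: contradiction.
 twoK: first: nqK_pos for (a, b); second: nqK_small for (-2a, a^2 - 4b): the images: algebraMap k L (-2 a) = -2 * algebraMap k L a etc. (push map_mul ...); a^2 - 4b ≠ 0. The primes dividing b, 2 (a^2 - 4 b) divide 2 b (a^2 - 4b).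
 hunr for k: if 2 ∈ v (prime of k) then 2 ∉ v^2: hypothesis hunrk.
-/

set_option autoImplicit false
open scoped Classical

open NumberField IsDedekindDomain WithZero Pool.Agent.H10

namespace H73IS

theorem KTwo_cancel {k : Type} [Field k] [NumberField k] (v : HeightOneSpectrum (𝓞 k))
    (h : (2 : 𝓞 k) ∈ v.asIdeal) (h' : (2 : 𝓞 k) ∉ v.asIdeal ^ 2) {a : 𝓞 k} {m : ℕ}
    (ha : 2 * a ∈ v.asIdeal ^ (m + 1)) : a ∈ v.asIdeal ^ m := by
  have h2 : v.intValuation (2 : 𝓞 k) = exp (-1 : ℤ) := by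
    apply le_antisymm
    · have := (v.intValuation_le_pow_iff_mem (2 : 𝓞 k) 1).2 (by rwa [pow_one])
      simpa using this
    · by_contra hcon
      push Not at hcon
      apply h'
      rw [← v.intValuation_le_pow_iff_mem]
      have h20 : v.intValuation (2 : 𝓞 k) ≠ 0 := by
        have : (2 : 𝓞 k) ≠ 0 := two_ne_zero
        exact v.intValuation_ne_zero _ this
      rw [← exp_log h20] at hcon ⊢
      rw [exp_lt_exp] at hcon
      rw [exp_le_exp]
      push_cast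
      omega
  rw [← v.intValuation_le_pow_iff_mem] at ha ⊢
  rw [map_mul, h2] at ha
  rcases eq_or_ne (v.intValuation a) 0 with h0 | h0
  · rw [h0]
    exact zero_le
  · rw [← exp_log h0] at ha ⊢
    rw [← exp_add, exp_le_exp] at ha
    rw [exp_le_exp]
    push_cast at ha
    omega

theorem KTwo_bound {k : Type} [Field k] [NumberField k] (v : HeightOneSpectrum (𝓞 k))
    {b : 𝓞 k} (hb : b ≠ 0) : ∃ n : ℕ, b ∉ v.asIdeal ^ (4 * n) := by
  have h0 := v.intValuation_ne_zero b hb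
  obtain ⟨t, ht⟩ : ∃ t : ℤ, v.intValuation b = exp t := ⟨_, (exp_log h0).symm⟩
  refine ⟨(-t).toNat + 1, fun hmem => ?_⟩
  rw [← v.intValuation_le_pow_iff_mem, ht, exp_le_exp] at hmem
  push_cast at hmem
  omega

theorem small_dual {k : Type} [Field k] [NumberField k] (v : HeightOneSpectrum (𝓞 k))
    (h : (2 : 𝓞 k) ∈ v.asIdeal) (h' : (2 : 𝓞 k) ∉ v.asIdeal ^ 2) {a b : 𝓞 k} (hb : b ≠ 0)
    (hn : ¬ SmallAt v a b) : SmallAt v (-2 * a) (a ^ 2 - 4 * b) := by
  have hex : ∃ j : ℕ, ¬ (a ∈ v.asIdeal ^ (2 * j) ∧ b ∈ v.asIdeal ^ (4 * j)) := by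
    obtain ⟨n, hn⟩ := KTwo_bound v hb
    exact ⟨n, fun hc => hn hc.2⟩
  obtain ⟨i, hi1, hi2⟩ : ∃ i : ℕ, (a ∈ v.asIdeal ^ (2 * i) ∧ b ∈ v.asIdeal ^ (4 * i)) ∧
      ¬ (a ∈ v.asIdeal ^ (2 * (i + 1)) ∧ b ∈ v.asIdeal ^ (4 * (i + 1))) := by
    have hf := Nat.find_spec hex
    have hpos : Nat.find hex ≠ 0 := by
      intro h0
      rw [h0] at hf
      apply hf
      rw [mul_zero, mul_zero, pow_zero, Ideal.one_eq_top]
      exact ⟨Submodule.mem_top, Submodule.mem_top⟩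
    obtain ⟨i, hi⟩ := Nat.exists_eq_succ_of_ne_zero hpos
    refine ⟨i, ?_, ?_⟩
    · have hm := Nat.find_min hex (m := i) (by omega)
      push Not at hm
      exact hm
    · rw [hi] at hf
      exact hf
  obtain ⟨ha1, hb1⟩ := hi1
  have h4 : (4 : 𝓞 k) ∈ v.asIdeal ^ 2 := by
    have e : (4 : 𝓞 k) = 2 * 2 := by norm_num
    rw [e, pow_two]
    exact Ideal.mul_mem_mul h h
  have h16 : (16 : 𝓞 k) ∈ v.asIdeal ^ 4 := by
    have e : (16 : 𝓞 k) = 4 * 4 := by norm_num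
    rw [e, show 4 = 2 + 2 from rfl, pow_add]
    exact Ideal.mul_mem_mul h4 h4
  refine ⟨i, ?_, ?_, ?_, ?_⟩
  · have h5 : 2 * a ∈ v.asIdeal ^ (2 * i + 1) := by
      rw [pow_succ']
      exact Ideal.mul_mem_mul h ha1
    have e : -2 * a = -(2 * a) := by ring
    rw [e]
    exact neg_mem h5
  · refine sub_mem ?_ (Ideal.mul_mem_left _ _ hb1)
    have e : 4 * i = 2 * i + 2 * i := by ring
    rw [e, pow_add, pow_two]
    exact Ideal.mul_mem_mul ha1 ha1
  · have e : (-2 * a) ^ 2 - 4 * (a ^ 2 - 4 * b) = b * 16 := by ring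
    rw [e, pow_add]
    exact Ideal.mul_mem_mul hb1 h16
  · rintro ⟨c1, c2⟩
    apply hn
    refine ⟨i, ?_, hb1, c2, ?_⟩
    · apply KTwo_cancel v h h'
      have e : 2 * a = -(-2 * a) := by ring
      rw [e]
      exact neg_mem c1
    · intro hc
      apply hi2
      rw [show 2 * (i + 1) = 2 * i + 2 by ring, show 4 * (i + 1) = 4 * i + 4 by ring]
      exact hc

theorem twoK {k K L : Type} [Field k] [NumberField k] [Field K] [NumberField K] [Field L]
    [NumberField L] [Algebra k K] [Algebra K L] [Algebra k L] [IsScalarTower k K L]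
    [IsGalois K L] (hodd : Odd (Module.finrank K L)) (R1 : NoNewPositive K L)
    (R2 : NoNewUnramified K L) {a b : 𝓞 k} (hb0 : b ≠ 0) (hd0 : a ^ 2 - 4 * b ≠ 0)
    (hR : RR k a b)
    (hS : ∀ v : HeightOneSpectrum (𝓞 k), (2 : 𝓞 k) ∈ v.asIdeal → ¬ SmallAt v a b)
    (hunrk : ∀ v : HeightOneSpectrum (𝓞 k), (2 : 𝓞 k) ∈ v.asIdeal → (2 : 𝓞 k) ∉ v.asIdeal ^ 2)
    (hbad : ∀ v : HeightOneSpectrum (𝓞 K),
      algebraMap (𝓞 k) (𝓞 K) (2 * b * (a ^ 2 - 4 * b)) ∈ v.asIdeal → UniqueOver K L v.asIdeal)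
    (hunr : ∀ w : HeightOneSpectrum (𝓞 L), (2 : 𝓞 L) ∈ w.asIdeal →
      (2 : 𝓞 L) ∉ w.asIdeal ^ 2)
    (h3 : ¬ 3 ∣ Module.finrank K L ∨ CubIn k K L) :
    NewTrivQ K L (algebraMap k L a) (algebraMap k L b) ∧
      NewTrivQ K L (-2 * algebraMap k L a) (algebraMap k L a ^ 2 - 4 * algebraMap k L b) := by
  constructor
  · refine nqK_pos hodd R1 hR fun v hv => hbad v ?_
    have e : (2 : 𝓞 k) * b * (a ^ 2 - 4 * b) = (2 * (a ^ 2 - 4 * b)) * b := by ring
    rw [e, map_mul]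
    exact Ideal.mul_mem_left _ _ hv
  · have h := nqK_small (k := k) (K := K) (L := L) hodd R2 (a := -2 * a) (b := a ^ 2 - 4 * b) hd0
      (fun v hv => small_dual v hv (hunrk v hv) hb0 (hS v hv)) (fun v hv => hbad v (by
        have e : (2 : 𝓞 k) * b * (a ^ 2 - 4 * b) = b * (2 * (a ^ 2 - 4 * b)) := by ring
        rw [e, map_mul]
        exact Ideal.mul_mem_left _ _ hv)) hunr h3
    have e1 : algebraMap k L ((-2 * a : 𝓞 k) : k) = -2 * algebraMap k L a := by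
      change algebraMap k L (algebraMap (𝓞 k) k (-2 * a)) = -2 * algebraMap k L (algebraMap (𝓞 k) k a)
      rw [map_mul, map_mul, map_neg, map_neg, map_ofNat, map_ofNat]
    have e2 : algebraMap k L ((a ^ 2 - 4 * b : 𝓞 k) : k) =
        algebraMap k L a ^ 2 - 4 * algebraMap k L b := by
      change algebraMap k L (algebraMap (𝓞 k) k (a ^ 2 - 4 * b)) =
        algebraMap k L (algebraMap (𝓞 k) k a) ^ 2 - 4 * algebraMap k L (algebraMap (𝓞 k) k b)
      rw [map_sub, map_sub, map_pow, map_pow, map_mul, map_mul, map_ofNat, map_ofNat]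
    rw [e1, e2] at h
    exact h

end H73IS
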