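import Pool.Agent.H73.IS.Res

/-!
Row Mw (about 140 lines): points over L are points over K plus doubles.

PROOF (compare mw_up in H10/Iso3.lean). R' over L^al with R' + R' = pm P (exists_two). f τ := act τ R' - R' is a two-torsion valued coboundary, so Sl L V' f (isCoc_cob; shaB_le gives the local triviality). For every g ∈ Gal(L^al/K): i0: cj g f = f + ∂S_g, and cj g f = ∂(g R') (cj_cob),
 so Z_g := act g R' - R' - S_g is fixed by all τ over L: by pm_descent (H10/Iso3) Z_g = pm A_g, A_g ∈ V'(L), and act g R' = R' + S_g + pm A_g, 2 S_g = 0.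
 Put R0 := ∑ φ : L →ₐ[K] L^al, act (lft φ) R'. For σ ∈ Gal(L^al/K): act σ (act (lft φ) R') = act (lft (mv σ φ)) (act (hh σ φ) R') (lft_hh) = act (lft (mv σ φ)) (R' + f (hh σ φ)), so act σ R0 = R0 + (killed by two) (sum_mv), and act σ (R0 + R0) = R0 + R0.
 By pm_descent over K (for the closure L^al of K: V.map (algebraMap K L^al) = E is map_up hV, IsGalois K L^al) R0 + R0 = pm Q. Also R0 = n • R' + ∑ S + pm (∑ A), so R0 + R0 = n • pm P + 2 • pm (∑ A), n = finrank K L = 2 m + 1 (AlgHom.card). By injectivity (pm_injective over L -> L^al, pm_pm)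
 pm_{K→L} Q = n • P + 2 • A, so P = pm Q + (R + R) with R = -A - m • P.
-/

set_option autoImplicit false
open scoped Classical

open WeierstrassCurve IsDedekindDomain NumberField Pool.Agent.H10

namespace H73IS

variable {K L : Type} [Field K] [NumberField K] [Field L] [NumberField L] [Algebra K L]
  [IsGalois K L] {V : WeierstrassCurve K} {V' : WeierstrassCurve L} {a b : K}

theorem mw_up (hodd : Odd (Module.finrank K L)) (h : IsTw V a b)
    (hV : V.map (algebraMap K L) = V')
    (H : NewTrivQ K L (algebraMap K L a) (algebraMap K L b))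
    (H' : NewTrivQ K L (algebraMap K L (-2 * a)) (algebraMap K L (a ^ 2 - 4 * b)))
    (P : V'.toAffine.Point) : ∃ (Q : V.toAffine.Point) (R : V'.toAffine.Point),
      P = pm (algebraMap K L) hV Q + (R + R) := by
  have h' := h.up hV
  have hb' := h'.bc (AlgebraicClosure L)
  have hL : V'.map (algebraMap L (AlgebraicClosure L)) = V'.baseChange (AlgebraicClosure L) := rfl
  have hK : V.map (algebraMap K (AlgebraicClosure L)) = V'.baseChange (AlgebraicClosure L) :=
    map_up hV
  obtain ⟨R', hR'⟩ := exists_two hb' (pm (algebraMap L (AlgebraicClosure L)) hL P)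
  set iL := inv_bc (Ω := AlgebraicClosure L) L V' with hiL
  set iK := inv_up hV with hiK
  have hPinv : ∀ τ, act iL τ (pm (algebraMap L (AlgebraicClosure L)) hL P) =
      pm (algebraMap L (AlgebraicClosure L)) hL P := by
    intro τ
    unfold act
    rw [pm_pm]
    exact pm_congr _ _ (fun x => τ.commutes x) _
  let f : Coch L V' := fun τ => act iL τ R' - R'
  have hf2 : ∀ τ, f τ + f τ = 0 := by
    intro τ
    have h1 := hPinv τ
    rw [← hR', map_add] at h1
    calc f τ + f τ = (act iL τ R' + act iL τ R') - (R' + R') := by simp only [f]; abel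
      _ = 0 := by rw [h1, sub_self]
  have hcob : IsCobound L V' f := (isCobound_iff _).mpr ⟨R', fun σ => rfl⟩
  have hZ : f ∈ ShaZ L V' := shaB_le L V' hcob
  have hf : Sl L V' f := ⟨hZ.1, hZ.2, hf2⟩
  -- the effect of the automorphisms over K
  have hg : ∀ g : AlgebraicClosure L ≃ₐ[K] AlgebraicClosure L,
      ∃ (S : (V'.baseChange (AlgebraicClosure L)).toAffine.Point) (A : V'.toAffine.Point),
        S + S = 0 ∧ act iK g R' = R' + S + pm (algebraMap L (AlgebraicClosure L)) hL A := by
    intro g
    obtain ⟨S, hS, hS'⟩ := i0 hodd h hV H H' hf g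
    obtain ⟨A, hA⟩ := pm_descent (V := V') hL iL (act iK g R' - S - R') (by
      intro τ
      have e1 : cj iK g f τ = act iL τ (act iK g R') - act iK g R' := cj_cob iK g R' τ
      have e2 := hS' τ
      rw [e1] at e2
      have e3 : f τ = act iL τ R' - R' := rfl
      rw [e3] at e2
      rw [map_sub, map_sub]
      have e4 : act iL τ (act iK g R') =
          act iL τ R' - R' + (act iL τ S - S) + act iK g R' := by
        rw [← e2]
        abel
      rw [e4]
      abel)
    refine ⟨S, A, hS, ?_⟩
    rw [hA]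
    abel
  choose S A hS hSA using hg
  obtain ⟨R₀, hR₀⟩ : ∃ R₀, R₀ = ∑ φ : L →ₐ[K] AlgebraicClosure L, act iK (lft φ) R' := ⟨_, rfl⟩
  have hact : ∀ σ : AlgebraicClosure L ≃ₐ[K] AlgebraicClosure L,
      ∃ W : (V'.baseChange (AlgebraicClosure L)).toAffine.Point,
        W + W = 0 ∧ act iK σ R₀ = R₀ + W := by
    intro σ
    refine ⟨∑ φ : L →ₐ[K] AlgebraicClosure L, act iK (lft (mv σ φ)) (f (hh σ φ)), ?_, ?_⟩
    · rw [← Finset.sum_add_distrib]
      apply Finset.sum_eq_zero
      intro φ _
      rw [← map_add, hf2, map_zero]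
    · have e1 : ∀ φ : L →ₐ[K] AlgebraicClosure L, act iK σ (act iK (lft φ) R') =
          act iK (lft (mv σ φ)) R' + act iK (lft (mv σ φ)) (f (hh σ φ)) := by
        intro φ
        have e2 : σ * lft φ = lft (mv σ φ) * (hh σ φ).restrictScalars K := by
          apply AlgEquiv.ext
          intro x
          exact (lft_hh σ φ x).symm
        have e3 : act iK ((hh σ φ).restrictScalars K) R' = R' + f (hh σ φ) := by
          have e4 : act iK ((hh σ φ).restrictScalars K) R' = act iL (hh σ φ) R' := rfl
          rw [e4]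
          have e5 : f (hh σ φ) = act iL (hh σ φ) R' - R' := rfl
          rw [e5]
          abel
        rw [← act_mul, e2, act_mul, e3, map_add]
      rw [hR₀, map_sum]
      rw [Finset.sum_congr rfl (fun φ _ => e1 φ), Finset.sum_add_distrib]
      congr 1
      exact sum_mv σ (fun φ => act iK (lft φ) R')
  obtain ⟨Q, hQ⟩ := pm_descent (V := V) hK iK (R₀ + R₀) (by
    intro σ
    obtain ⟨W, hW, hW'⟩ := hact σ
    rw [map_add, hW']
    calc R₀ + W + (R₀ + W) = (R₀ + R₀) + (W + W) := by abel
      _ = R₀ + R₀ := by rw [hW, add_zero])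
  obtain ⟨B, hB⟩ : ∃ B, B = ∑ φ : L →ₐ[K] AlgebraicClosure L, A (lft φ) := ⟨_, rfl⟩
  have hR0 : R₀ + R₀ = pm (algebraMap L (AlgebraicClosure L)) hL
      (Module.finrank K L • P + (B + B)) := by
    have e1 : R₀ = ∑ φ : L →ₐ[K] AlgebraicClosure L,
        (R' + S (lft φ) + pm (algebraMap L (AlgebraicClosure L)) hL (A (lft φ))) := by
      rw [hR₀]
      exact Finset.sum_congr rfl (fun φ _ => hSA (lft φ))
    have e2 : R₀ + R₀ = ∑ φ : L →ₐ[K] AlgebraicClosure L,
        (pm (algebraMap L (AlgebraicClosure L)) hL (P + (A (lft φ) + A (lft φ)))) := by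
      rw [e1, ← Finset.sum_add_distrib]
      apply Finset.sum_congr rfl
      intro φ _
      rw [map_add, map_add, ← hR']
      calc R' + S (lft φ) + pm (algebraMap L (AlgebraicClosure L)) hL (A (lft φ)) +
            (R' + S (lft φ) + pm (algebraMap L (AlgebraicClosure L)) hL (A (lft φ))) =
            R' + R' + (pm (algebraMap L (AlgebraicClosure L)) hL (A (lft φ)) +
              pm (algebraMap L (AlgebraicClosure L)) hL (A (lft φ))) +
              (S (lft φ) + S (lft φ)) := by abel
        _ = _ := by rw [hS, add_zero]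
    rw [e2, ← map_sum, Finset.sum_add_distrib, Finset.sum_add_distrib, ← hB, Finset.sum_const,
      Finset.card_univ, AlgHom.card]
  have hfin : pm (algebraMap K L) hV Q = Module.finrank K L • P + (B + B) := by
    apply pm_injective (algebraMap L (AlgebraicClosure L)) hL
    rw [← hR0, ← hQ, pm_pm]
    apply pm_congr
    intro x
    exact (IsScalarTower.algebraMap_apply K L (AlgebraicClosure L) x).symm
  obtain ⟨m, hm⟩ := hodd
  refine ⟨Q, -B - m • P, ?_⟩
  rw [hfin, hm, add_smul, one_smul, two_mul, add_smul]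
  abel

end H73IS
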