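import Pool.Agent.H73.IS.KTow
import Pool.Agent.H68.QS.Lay

/-!
Stability in the cyclotomic towers over `k` (helper73).
-/

set_option autoImplicit false
open scoped Classical

open NumberField IsDedekindDomain WeierstrassCurve Pool.Agent.H10

namespace H73IS

theorem towerK (p : ℕ) [Fact p.Prime] (hp2 : p ≠ 2) {k : Type} [Field k] [NumberField k]
    (hk : TwoBase k) {a b : 𝓞 k} (hb0 : b ≠ 0) (hd0 : a ^ 2 - 4 * b ≠ 0) (hR : RR k a b)
    (hS : ∀ v : HeightOneSpectrum (𝓞 k), (2 : 𝓞 k) ∈ v.asIdeal → ¬ SmallAt v a b) :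
    ∃ N : ℕ, ∀ (K L : Type) [Field K] [NumberField K] [Field L] [NumberField L] [Algebra k K]
      [Algebra k L] [Algebra K L] [IsScalarTower k K L], IsLay p k L →
      (∃ i : ℕ, Module.finrank K L = p ^ i) → p ^ N ∣ Module.finrank ℚ K →
      StableW K L (ecurve K a b) ∧ StableW K L (ecurve K (-2 * a) (a ^ 2 - 4 * b)) := by
  have hp := (Fact.out : p.Prime)
  have hD : 2 * b * (a ^ 2 - 4 * b) ≠ 0 := mul_ne_zero (mul_ne_zero two_ne_zero hb0) hd0
  obtain ⟨N, hN⟩ := H68QS.layer_lay (p := p) hp2 hk hD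
  refine ⟨N, ?_⟩
  intro K L _ _ _ _ _ _ _ _ hL hi hK
  obtain ⟨g, R1, R2, hbad, hunr, h3⟩ := hN K L hL hi hK
  have hodd : Odd (Module.finrank K L) := by
    obtain ⟨i, hi⟩ := hi
    rw [hi]
    exact (hp.odd_of_ne_two hp2).pow
  have h2 : ∀ v : HeightOneSpectrum (𝓞 K), (2 : 𝓞 K) ∈ v.asIdeal →
      UniqueOver K L v.asIdeal := by
    intro v hv
    apply hbad v
    rw [map_mul, map_mul, map_ofNat]
    exact Ideal.mul_mem_right _ _ (Ideal.mul_mem_right _ _ hv)
  refine layer_stable (k := k) hodd R1 R2 hb0 hd0 hR hS hk.unr hbad hunr ?_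
  rcases h3 with h3 | h3
  · exact Or.inl h3
  · exact Or.inr (cubIn_of hodd h2 h3 (res_twoBase hk))

end H73IS
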