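import Pool.Agent.H73.IS.Df

/-!
Row Bas (about 90 lines): elementary properties of `QPt` and of `sg`.

PROOF.
map: apply the ring homomorphism (injective on fields) to the solution.
sq: multiply: d' = d s^2: take M' = M, e' = s e (s ≠ 0), N' = s N: d s^2 (s N)^2 = s^4 d N^2 ... check: d'N'^2 = d s^4 N^2, and d'^2 M^4 + a d' M^2 (s e)^2 + b (s e)^4 = s^4 (d^2 M^4 + a d M^2 e^2 + b e^4). For the converse use s⁻¹.
one: M = 1, e = 0, N = 1. isSq: IsSquare d, d ≠ 0: from one and sq.
scale: (a r^2, b r^4): e ↦ r e.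
sg_zero, sg_some, sg_pm: by cases (φ x = 0 iff x = 0). sg_T: sg T = 1.
sg_one_iff: P + P = 0 (so y = 0: from P = -P, negY = -y) and sg P = 1: x = 0 so P = T or P = 0.
sg_add: P, Q two-torsion: P = 0 or Q = 0 trivial; P = (x1, 0), Q = (x2, 0), both x_i roots of x (x^2 + a x + b) (Affine.equation_iff). x1 = x2: sum 0 and sg P sg Q = 1. x1 ≠ x2: P + Q = (-a - x1 - x2, 0) (Affine.Point.add_of_X_ne, slope 0);
 if x1 = 0 ≠ x2 the third root is not 0 (else x2^2 + a x2 + b = 0 with a = -x2 gives b = 0); if x1, x2 ≠ 0 then x1 + x2 = -a (subtract the two quadratic equations) so the sum is T.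
-/

set_option autoImplicit false
open scoped Classical

open WeierstrassCurve IsDedekindDomain NumberField Pool.Agent.H10

namespace H73IS

variable {k k' : Type*} [Field k] [Field k']

theorem QPt.map {a b d : k} (H : QPt a b d) (φ : k →+* k') : QPt (φ a) (φ b) (φ d) := by
  obtain ⟨M, e, N, hne, h⟩ := H
  refine ⟨φ M, φ e, φ N, ?_, ?_⟩
  · rcases hne with h0 | h0
    · exact Or.inl ((map_ne_zero φ).2 h0)
    · exact Or.inr ((map_ne_zero φ).2 h0)
  · have := congrArg φ h
    simpa only [map_mul, map_add, map_pow] using this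

theorem Bas_sq {a b d s : k} (hs : s ≠ 0) (H : QPt a b d) : QPt a b (d * s ^ 2) := by
  obtain ⟨M, e, N, hne, h⟩ := H
  refine ⟨M, s * e, s * N, ?_, ?_⟩
  · rcases hne with h0 | h0
    · exact Or.inl h0
    · exact Or.inr (mul_ne_zero hs h0)
  · linear_combination s ^ 4 * h

theorem QPt.sq_mul {a b d s : k} (hs : s ≠ 0) : QPt a b (d * s ^ 2) ↔ QPt a b d := by
  refine ⟨fun H => ?_, Bas_sq hs⟩
  have h1 := Bas_sq (inv_ne_zero hs) H
  have h2 : d * s ^ 2 * s⁻¹ ^ 2 = d := by
    field_simp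
  rwa [h2] at h1

theorem QPt.isSquare {a b d : k} (hd : d ≠ 0) (h : IsSquare d) : QPt a b d := by
  obtain ⟨c, hc⟩ := h
  refine ⟨1, 0, c, Or.inl one_ne_zero, ?_⟩
  rw [hc]
  ring

theorem QPt.scale {a b d r : k} (hr : r ≠ 0) : QPt (r ^ 2 * a) (r ^ 4 * b) d ↔ QPt a b d := by
  constructor
  · rintro ⟨M, e, N, hne, h⟩
    refine ⟨M, r * e, N, ?_, ?_⟩
    · rcases hne with h0 | h0
      · exact Or.inl h0
      · exact Or.inr (mul_ne_zero hr h0)
    · linear_combination h
  · rintro ⟨M, e, N, hne, h⟩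
    refine ⟨M, e / r, N, ?_, ?_⟩
    · rcases hne with h0 | h0
      · exact Or.inl h0
      · exact Or.inr (div_ne_zero h0 hr)
    · rw [h]
      field_simp

theorem sg_zero {W : WeierstrassCurve k} : sg (0 : W.toAffine.Point) = 1 := rfl

theorem sg_some {W : WeierstrassCurve k} {x y : k} (h : W.toAffine.Nonsingular x y) :
    sg (Affine.Point.some x y h) = if x = 0 then 1 else -1 := rfl

theorem sg_pm {W : WeierstrassCurve k} {W' : WeierstrassCurve k'} (φ : k →+* k')
    (h : W.map φ = W') (P : W.toAffine.Point) : sg (pm φ h P) = sg P := by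
  rcases P with _ | ⟨x, y, hxy⟩
  · rfl
  · rw [pm_some, sg_some, sg_some]
    simp only [map_eq_zero]

variable {W : WeierstrassCurve k} {a b : k}

theorem sg_T (h : IsTw W a b) : sg h.T = 1 := by
  rw [IsTw.T, sg_some, if_pos rfl]

theorem Bas_negY (h : IsTw W a b) (x y : k) : W.toAffine.negY x y = -y := by
  rw [Affine.negY, h.a₁, h.a₃]
  ring

theorem T_add_T (h : IsTw W a b) : h.T + h.T = 0 := by
  rw [IsTw.T]
  apply Affine.Point.add_self_of_Y_eq
  rw [Bas_negY h, neg_zero]

theorem Bas_eqn (h : IsTw W a b) {x y : k} (hxy : W.toAffine.Nonsingular x y) :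
    y ^ 2 = x * (x ^ 2 + a * x + b) := by
  have h1 := hxy.1
  rw [Affine.equation_iff, h.a₁, h.a₂, h.a₃, h.a₄, h.a₆] at h1
  linear_combination h1

theorem Bas_units : (-1 : ℤˣ) ≠ 1 := by decide

theorem sg_one (h : IsTw W a b) {P : W.toAffine.Point} (hP : P + P = 0) (hs : sg P = 1) :
    P = 0 ∨ P = h.T := by
  rcases P with _ | ⟨x, y, hxy⟩
  · exact Or.inl rfl
  · right
    rw [sg_some] at hs
    have hx : x = 0 := by
      by_contra hx
      rw [if_neg hx] at hs
      exact Bas_units hs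
    have hy : y = 0 := by
      have h1 := Bas_eqn h hxy
      rw [hx, zero_mul] at h1
      exact pow_eq_zero_iff (two_ne_zero) |>.1 h1
    rw [IsTw.T, Affine.Point.some.injEq]
    exact ⟨hx, hy⟩

theorem Bas_two (h : IsTw W a b) {x y : k} (hxy : W.toAffine.Nonsingular x y)
    (hP : Affine.Point.some x y hxy + Affine.Point.some x y hxy = 0) :
    y = 0 ∧ x * (x ^ 2 + a * x + b) = 0 := by
  have hy : y = 0 := by
    by_contra hy
    have h1 : y ≠ W.toAffine.negY x y := by
      rw [Bas_negY h]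
      intro h2
      have h3 : (2 : k) * y = 0 := by linear_combination h2
      rcases mul_eq_zero.1 h3 with h4 | h4
      · exact h.two h4
      · exact hy h4
    rw [Affine.Point.add_self_of_Y_ne h1] at hP
    exact Affine.Point.some_ne_zero _ hP
  refine ⟨hy, ?_⟩
  have h1 := Bas_eqn h hxy
  rw [← h1, hy]
  ring

theorem sg_add (h : IsTw W a b) {P Q : W.toAffine.Point} (hP : P + P = 0) (hQ : Q + Q = 0) :
    sg (P + Q) = sg P * sg Q := by
  rcases P with _ | ⟨x₁, y₁, h₁⟩
  · change sg (0 + Q) = sg (0 : W.toAffine.Point) * sg Q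
    rw [zero_add, sg_zero, one_mul]
  rcases Q with _ | ⟨x₂, y₂, h₂⟩
  · change sg (_ + 0) = _ * sg (0 : W.toAffine.Point)
    rw [add_zero, sg_zero, mul_one]
  obtain ⟨hy1, he1⟩ := Bas_two h h₁ hP
  obtain ⟨hy2, he2⟩ := Bas_two h h₂ hQ
  by_cases hx : x₁ = x₂
  · have hPQ : Affine.Point.some x₁ y₁ h₁ = Affine.Point.some x₂ y₂ h₂ := by
      rw [Affine.Point.some.injEq]
      exact ⟨hx, by rw [hy1, hy2]⟩
    rw [hPQ, hQ, sg_zero, Int.units_mul_self]
  · rw [Affine.Point.add_of_X_ne hx, sg_some, sg_some, sg_some]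
    have hadd : W.toAffine.addX x₁ x₂ (W.toAffine.slope x₁ x₂ y₁ y₂) = -a - x₁ - x₂ := by
      rw [Affine.slope_of_X_ne hx, hy1, hy2, sub_zero, zero_div, Affine.addX, h.a₁, h.a₂]
      ring
    rw [hadd]
    by_cases h10 : x₁ = 0
    · have h20 : x₂ ≠ 0 := fun h0 => hx (by rw [h10, h0])
      have he := (mul_eq_zero.1 he2).resolve_left h20
      rw [if_pos h10, if_neg h20, one_mul, if_neg]
      intro h0
      apply h.hb
      rw [h10] at h0
      linear_combination he + x₂ * h0
    · have he1' := (mul_eq_zero.1 he1).resolve_left h10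
      by_cases h20 : x₂ = 0
      · rw [if_neg h10, if_pos h20, mul_one, if_neg]
        intro h0
        apply h.hb
        rw [h20] at h0
        linear_combination he1' + x₁ * h0
      · have he2' := (mul_eq_zero.1 he2).resolve_left h20
        rw [if_neg h10, if_neg h20, if_pos]
        · decide
        · have h3 : (x₁ - x₂) * (-a - x₁ - x₂) = 0 := by
            linear_combination he2' - he1'
          exact (mul_eq_zero.1 h3).resolve_left (sub_ne_zero.2 hx)

theorem IsTw.up {φ : k →+* k'} {W' : WeierstrassCurve k'} (h : IsTw W a b) (hW : W.map φ = W') :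
    IsTw W' (φ a) (φ b) := by
  subst hW
  refine ⟨?_, ?_, ?_, ?_, ?_, ?_, ?_, ?_⟩
  · rw [WeierstrassCurve.map_a₁, h.a₁, map_zero]
  · rw [WeierstrassCurve.map_a₂, h.a₂]
  · rw [WeierstrassCurve.map_a₃, h.a₃, map_zero]
  · rw [WeierstrassCurve.map_a₄, h.a₄]
  · rw [WeierstrassCurve.map_a₆, h.a₆, map_zero]
  · exact (map_ne_zero φ).2 h.hb
  · have h1 := (map_ne_zero φ).2 h.hd
    simpa only [map_sub, map_mul, map_pow, map_ofNat] using h1
  · have h1 := (map_ne_zero φ).2 h.two
    simpa only [map_ofNat] using h1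

theorem pm_T {φ : k →+* k'} {W' : WeierstrassCurve k'} (h : IsTw W a b) (hW : W.map φ = W') :
    pm φ hW h.T = (h.up hW).T := by
  rw [IsTw.T, IsTw.T, pm_some, Affine.Point.some.injEq]
  exact ⟨map_zero φ, map_zero φ⟩

end H73IS
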