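import Pool.Agent.H73.IS.Bas

/-!
Row Cj (about 150 lines): conjugation of cochains by automorphisms of the closure, for a normal extension L/K.

Read Pool/Agent/H10/Func1.lean, Func2.lean (pm, act, IsCoc, lc_iff, Inv.up, isCoc_cor as a model for local constancy). All statements are a few lines each: unfold cj act; rw [pm_pm, pm_pm]; exact pm_congr _ _ (fun x => ...) _, with g (cjg g τ x) = τ (g x).
cjg.commutes': for x in L, g (algebraMap L Ω x) = algebraMap L Ω (g.restrictNormal L x) (AlgEquiv.restrictNormal_commutes) is fixed by τ; then g⁻¹ (g y) = y.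
isCoc_cj: local constancy by lc_iff (L): near τ₀ take A' = g(A) where A is the finite set for f and cjg g τ₀; the cocycle identity: cjg (τ τ') = cjg τ * cjg τ', map_add, and act h g (act hL (cjg g τ) P) = act hL τ (act h g P).
cj_inner: f (τ0⁻¹ τ τ0) : IsCoc.conj for K := L, after identifying cjg (τ0.restrictScalars K) τ = τ0⁻¹ * τ * τ0.
exists_conj_elt: y' = g.restrictNormal L y, Algebra.norm_eq_of_algEquiv.
-/

set_option autoImplicit false
open scoped Classical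

open WeierstrassCurve IsDedekindDomain NumberField Pool.Agent.H10

namespace H73IS

section

variable {K L Ω : Type*} [Field K] [Field L] [Field Ω] [Algebra K L] [Algebra L Ω] [Algebra K Ω]
  [IsScalarTower K L Ω] [Normal K L] {E : WeierstrassCurve Ω}

/-- `g⁻¹ τ g` as an automorphism over `L`. -/
noncomputable def cjg (g : Ω ≃ₐ[K] Ω) (τ : Ω ≃ₐ[L] Ω) : Ω ≃ₐ[L] Ω :=
  { (g⁻¹ * τ.restrictScalars K * g : Ω ≃ₐ[K] Ω) with
    commutes' := fun x => by
      change g.symm (τ (g (algebraMap L Ω x))) = algebraMap L Ω x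
      rw [← AlgEquiv.restrictNormal_commutes g L x, τ.commutes, AlgEquiv.restrictNormal_commutes,
        g.symm_apply_apply] }

theorem cjg_spec (g : Ω ≃ₐ[K] Ω) (τ : Ω ≃ₐ[L] Ω) (x : Ω) : g (cjg g τ x) = τ (g x) :=
  g.apply_symm_apply _

/-- The conjugate cochain. -/
noncomputable def cj (h : Inv K E) (g : Ω ≃ₐ[K] Ω) (f : (Ω ≃ₐ[L] Ω) → E.toAffine.Point) :
    (Ω ≃ₐ[L] Ω) → E.toAffine.Point := fun τ => act h g (f (cjg g τ))

private theorem cjg_mul (g g' : Ω ≃ₐ[K] Ω) (τ : Ω ≃ₐ[L] Ω) : cjg (g * g') τ = cjg g' (cjg g τ) := by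
  ext y
  apply (g * g').injective
  rw [cjg_spec, AlgEquiv.mul_apply, AlgEquiv.mul_apply, cjg_spec, cjg_spec]

private theorem cjg_one (τ : Ω ≃ₐ[L] Ω) : cjg (K := K) 1 τ = τ := by
  ext y
  exact cjg_spec (K := K) 1 τ y

private theorem cjg_hmul (g : Ω ≃ₐ[K] Ω) (τ τ' : Ω ≃ₐ[L] Ω) :
    cjg g (τ * τ') = cjg g τ * cjg g τ' := by
  ext y
  apply g.injective
  rw [cjg_spec, AlgEquiv.mul_apply, AlgEquiv.mul_apply, cjg_spec, cjg_spec]

theorem cj_mul (h : Inv K E) (g g' : Ω ≃ₐ[K] Ω) (f : (Ω ≃ₐ[L] Ω) → E.toAffine.Point) :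
    cj h (g * g') f = cj h g (cj h g' f) := by
  funext τ
  simp only [cj]
  rw [act_mul, cjg_mul]

theorem cj_one (h : Inv K E) (f : (Ω ≃ₐ[L] Ω) → E.toAffine.Point) : cj h 1 f = f := by
  funext τ
  simp only [cj]
  rw [act_one, cjg_one]

theorem cj_add (h : Inv K E) (g : Ω ≃ₐ[K] Ω) (f f' : (Ω ≃ₐ[L] Ω) → E.toAffine.Point) :
    cj h g (f + f') = cj h g f + cj h g f' := by
  funext τ
  simp only [cj, Pi.add_apply, map_add]

theorem cj_sub (h : Inv K E) (g : Ω ≃ₐ[K] Ω) (f f' : (Ω ≃ₐ[L] Ω) → E.toAffine.Point) :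
    cj h g (f - f') = cj h g f - cj h g f' := by
  funext τ
  simp only [cj, Pi.sub_apply, map_sub]

theorem act_cjg (h : Inv K E) (g : Ω ≃ₐ[K] Ω) (τ : Ω ≃ₐ[L] Ω) (P : E.toAffine.Point) :
    act h g (act (K := L) h.up (cjg g τ) P) = act (K := L) h.up τ (act h g P) := by
  unfold act
  rw [pm_pm, pm_pm]
  exact pm_congr _ _ (fun y => cjg_spec g τ y) _

theorem cj_cob (h : Inv K E) (g : Ω ≃ₐ[K] Ω) (S : E.toAffine.Point) (τ : Ω ≃ₐ[L] Ω) :
    cj h g (fun τ => act (K := L) h.up τ S - S) τ =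
      act (K := L) h.up τ (act h g S) - act h g S := by
  simp only [cj]
  rw [map_sub, act_cjg]

theorem isCoc_cj [Algebra.IsIntegral L Ω] (h : Inv K E) (g : Ω ≃ₐ[K] Ω)
    {f : (Ω ≃ₐ[L] Ω) → E.toAffine.Point} (hf : IsCoc (K := L) h.up f) :
    IsCoc (K := L) h.up (cj h g f) := by
  constructor
  · rw [lc_iff]
    intro τ₀
    obtain ⟨A, hA⟩ := (lc_iff f).mp hf.1 (cjg g τ₀)
    refine ⟨A.image (fun x => g x), fun τ hτ => ?_⟩
    have h1 : f (cjg g τ) = f (cjg g τ₀) := by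
      apply hA
      intro x hx
      apply g.injective
      rw [cjg_spec, cjg_spec]
      exact hτ _ (Finset.mem_image_of_mem (fun x => g x) hx)
    simp only [cj]
    rw [h1]
  · intro σ τ
    simp only [cj]
    rw [cjg_hmul, hf.2, map_add, act_cjg]

omit [Normal K L] in
private theorem act_res (h : Inv K E) (τ₀ : Ω ≃ₐ[L] Ω) (P : E.toAffine.Point) :
    act h (τ₀.restrictScalars K) P = act (K := L) h.up τ₀ P := by
  unfold act
  exact pm_congr _ _ (fun y => rfl) _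

theorem cj_inner (h : Inv K E) (τ₀ : Ω ≃ₐ[L] Ω) {f : (Ω ≃ₐ[L] Ω) → E.toAffine.Point}
    (hf : IsCoc (K := L) h.up f) (τ : Ω ≃ₐ[L] Ω) :
    cj h (τ₀.restrictScalars K) f τ = f τ + (act (K := L) h.up τ (f τ₀) - f τ₀) := by
  simp only [cj]
  have h1 : cjg (τ₀.restrictScalars K) τ = τ₀⁻¹ * τ * τ₀ := by
    ext y
    apply (τ₀.restrictScalars K).injective
    rw [cjg_spec]
    change τ (τ₀ y) = τ₀ (τ₀.symm (τ (τ₀ y)))
    rw [AlgEquiv.apply_symm_apply]
  rw [act_res, h1]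
  exact hf.conj τ₀ τ

theorem cj_two (h : Inv K E) (g : Ω ≃ₐ[K] Ω) {f : (Ω ≃ₐ[L] Ω) → E.toAffine.Point}
    (hf : ∀ τ, f τ + f τ = 0) (τ : Ω ≃ₐ[L] Ω) : cj h g f τ + cj h g f τ = 0 := by
  simp only [cj]
  rw [← map_add, hf, map_zero]

theorem sg_cj (h : Inv K E) (g : Ω ≃ₐ[K] Ω) (f : (Ω ≃ₐ[L] Ω) → E.toAffine.Point)
    (τ : Ω ≃ₐ[L] Ω) : sg (cj h g f τ) = sg (f (cjg g τ)) := by
  simp only [cj, act]
  exact sg_pm _ _ _

/-- The conjugate of an element of `L`. -/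
theorem exists_conj_elt (g : Ω ≃ₐ[K] Ω) (y : L) :
    ∃ y' : L, g (algebraMap L Ω y) = algebraMap L Ω y' ∧
      Algebra.norm K y' = Algebra.norm K y :=
  ⟨g.restrictNormal L y, (AlgEquiv.restrictNormal_commutes g L y).symm,
    Algebra.norm_eq_of_algEquiv (g.restrictNormal L) y⟩

/-- For a finite Galois extension of degree `n` the power `g ^ n` fixes `L`. -/
theorem exists_pow_fix [FiniteDimensional K L] [IsGalois K L] (g : Ω ≃ₐ[K] Ω) :
    ∃ τ₀ : Ω ≃ₐ[L] Ω, g ^ Module.finrank K L = τ₀.restrictScalars K := by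
  have h1 : (AlgEquiv.restrictNormalHom L) (g ^ Module.finrank K L) = (1 : L ≃ₐ[K] L) := by
    rw [map_pow, ← IsGalois.card_aut_eq_finrank]
    exact pow_card_eq_one'
  refine ⟨{ (g ^ Module.finrank K L : Ω ≃ₐ[K] Ω) with
    commutes' := fun x => ?_ }, ?_⟩
  · change (g ^ Module.finrank K L) (algebraMap L Ω x) = algebraMap L Ω x
    rw [← AlgEquiv.restrictNormal_commutes (g ^ Module.finrank K L) L x]
    congr 1
    exact congrArg (fun e : L ≃ₐ[K] L => e x) h1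
  · ext y
    rfl

end

end H73IS
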