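import Pool.Agent.H73.IS.Cj

/-!
Row Cnj (about 120 lines): transport of places along an automorphism, and local triviality of the conjugate cochains.

PROOF. place_conj: exists_place_below (H10/Iso.lean) for K := L, L := L' with the algebra structure σ.toAlgebra (letI : Algebra L L' := σ.toAlgebra). inf_place_conj: exists_inf_place_below.
isLocTriv_cj: isLocTriv_iff (H10/Func4.lean) and, for a finite place w and ι' : L^al →ₐ[L] (L_w)^al: let s := g.restrictNormal L : L ≃ₐ[K] L; place_conj for (s : L →+* L) and w gives v and ψ : L_v →+* L_w with ψ (algebraMap L L_v x) = algebraMap L L_w (s x).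
 Take an embedding ι : L^al →ₐ[L] (L_v)^al (exists_embedding, H10/Hasse.lean), (isLocTriv_iff.mp hl).1 v ι : TrivAt, and TrivAt.trans (H10/Func1.lean) with K := L, F := L_v, F' := L_w, k := ψ, j := algebraMap L L_v, ι' := ι' ∘ g: get P with
 pm (ι' ∘ g) (f σ') = act τ P - P whenever τ (ι' (g x)) = ι' (g (σ' x)) for all x. For τ (ι' x) = ι' (σ x): take σ' = cjg g σ: g (cjg g σ x) = σ (g x); pm ι' (cj g f σ) = pm (ι' ∘ g) (f (cjg g σ)) by pm_pm. (E.map g = E is h g, the curve of TrivAt over L_w is V'.baseChange (L_w)^al, map_bc.)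
 The same for infinite places. (charZero_of_alg in Func6 and the proof of res_local in Func5 are models.)
-/

set_option autoImplicit false
open scoped Classical

open WeierstrassCurve IsDedekindDomain NumberField Pool.Agent.H10

namespace H73IS

section

variable {L L' : Type} [Field L] [NumberField L] [Field L'] [NumberField L']

theorem place_conj (σ : L →+* L') (w : HeightOneSpectrum (𝓞 L')) :
    ∃ (v : HeightOneSpectrum (𝓞 L)) (ψ : v.adicCompletion L →+* w.adicCompletion L'),
      ∀ x : L, ψ (algebraMap L (v.adicCompletion L) x) =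
        algebraMap L' (w.adicCompletion L') (σ x) := by
  letI : Algebra L L' := σ.toAlgebra
  exact exists_place_below (K := L) w

theorem inf_place_conj (σ : L →+* L') (w : InfinitePlace L') :
    ∃ (v : InfinitePlace L) (ψ : v.Completion →+* w.Completion),
      ∀ x : L, ψ (algebraMap L v.Completion x) = algebraMap L' w.Completion (σ x) := by
  letI : Algebra L L' := σ.toAlgebra
  exact exists_inf_place_below (K := L) w

end

section

variable {K L : Type} [Field K] [NumberField K] [Field L] [NumberField L] [Algebra K L]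
  [Normal K L] {V : WeierstrassCurve K} {V' : WeierstrassCurve L}

theorem Cnj_local {Lv Lw : Type} [Field Lv] [Field Lw] [Algebra L Lv] [Algebra L Lw]
    [CharZero Lv] (hV : V.map (algebraMap K L) = V') {f : Coch L V'}
    (hf : IsCoc (inv_bc L V') f)
    (g : AlgebraicClosure L ≃ₐ[K] AlgebraicClosure L) (ψ : Lv →+* Lw)
    (hψ : ∀ x : L, ψ (algebraMap L Lv x) = algebraMap L Lw (g.restrictNormal L x))
    (hl : ∀ ι : AlgebraicClosure L →ₐ[L] AlgebraicClosure Lv,
      TrivAt (F := Lv) (inv_bc' V') (ι : AlgebraicClosure L →+* AlgebraicClosure Lv)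
        (map_bc V' ι) f)
    (ι' : AlgebraicClosure L →ₐ[L] AlgebraicClosure Lw) :
    TrivAt (F := Lw) (inv_bc' V') (ι' : AlgebraicClosure L →+* AlgebraicClosure Lw)
      (map_bc V' ι') (cj (inv_up hV) g f) := by
  obtain ⟨ι₀⟩ := exists_embedding L Lv
  have hι : (V'.baseChange (AlgebraicClosure L)).map
      ((ι' : AlgebraicClosure L →+* AlgebraicClosure Lw).comp
        (g : AlgebraicClosure L →+* AlgebraicClosure L)) =
      V'.baseChange (AlgebraicClosure Lw) := by
    rw [← WeierstrassCurve.map_map, (inv_up hV) g, map_bc]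
  obtain ⟨P, hP⟩ := (hl ι₀).trans hf (V := V') rfl (k := ψ) (j := algebraMap L Lv)
    (fun a => by
      change ι₀ (algebraMap L (AlgebraicClosure L) a) = _
      rw [ι₀.commutes, IsScalarTower.algebraMap_apply L Lv (AlgebraicClosure Lv)])
    (inv_bc' V' : Inv Lw (V'.baseChange (AlgebraicClosure Lw)))
    ((ι' : AlgebraicClosure L →+* AlgebraicClosure Lw).comp
        (g : AlgebraicClosure L →+* AlgebraicClosure L)) hι (fun a => by
      change ι' (g (algebraMap L (AlgebraicClosure L) a)) = _
      rw [hψ, ← AlgEquiv.restrictNormal_commutes g L a, ι'.commutes,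
        IsScalarTower.algebraMap_apply L Lw (AlgebraicClosure Lw)])
  refine ⟨P, fun τ σ hσ => ?_⟩
  rw [← hP τ (cjg g σ) (fun x => by
    change τ (ι' (g x)) = ι' (g (cjg g σ x))
    rw [cjg_spec]
    exact hσ (g x))]
  unfold cj act
  rw [pm_pm]

theorem isLocTriv_cj (hV : V.map (algebraMap K L) = V') {f : Coch L V'}
    (hf : IsCocycle L V' f) (hl : IsLocTriv L V' f)
    (g : AlgebraicClosure L ≃ₐ[K] AlgebraicClosure L) :
    IsLocTriv L V' (cj (inv_up hV) g f) := by
  rw [isCocycle_iff] at hf
  rw [isLocTriv_iff] at hl ⊢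
  constructor
  · intro w ι
    obtain ⟨v, ψ, hψ⟩ := place_conj ((g.restrictNormal L : L ≃ₐ[K] L) : L →+* L) w
    have hcz : CharZero (v.adicCompletion L) := charZero_of_alg (K := L)
    exact Cnj_local hV hf g ψ hψ (hl.1 v) ι
  · intro w ι
    obtain ⟨v, ψ, hψ⟩ := inf_place_conj ((g.restrictNormal L : L ≃ₐ[K] L) : L →+* L) w
    have hcz : CharZero v.Completion := charZero_of_alg (K := L)
    exact Cnj_local hV hf g ψ hψ (hl.2 v) ι

end

end H73IS
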