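import Pool.Agent.H73.IS.I1

/-!
Row I0 (about 90 lines): conjugation acts trivially on the classes.

PROOF. Write t g := cj g f - f (in Sl, sg = 1 by i1; cj g' (t g) = t g by i2). t (g g') = cj g (cj g' f) - f = cj g (f + t g') - f = t g + cj g (t g') = t g + t g' (cj_mul, cj_add). So t (g ^ m) = m • t g (induction), and 2 • t g = 0.
 With n = finrank K L odd: t (g ^ n) = n • t g = t g. g ^ n = τ₀.restrictScalars K (exists_pow_fix), so by cj_inner t g τ = t (g ^ n) τ = act τ (f τ₀) - f τ₀. Take S = f τ₀ (act for inv_up hV . up and for inv_bc L V' agree by proof irrelevance, rfl).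
-/

set_option autoImplicit false
open scoped Classical

open WeierstrassCurve IsDedekindDomain NumberField Pool.Agent.H10

namespace H73IS

variable {K L : Type} [Field K] [NumberField K] [Field L] [NumberField L] [Algebra K L]
  [IsGalois K L] {V : WeierstrassCurve K} {V' : WeierstrassCurve L} {a b : K}

theorem i0 (hodd : Odd (Module.finrank K L)) (h : IsTw V a b) (hV : V.map (algebraMap K L) = V')
    (H : NewTrivQ K L (algebraMap K L a) (algebraMap K L b))
    (H' : NewTrivQ K L (algebraMap K L (-2 * a)) (algebraMap K L (a ^ 2 - 4 * b)))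
    {f : Coch L V'} (hf : Sl L V' f) (g : AlgebraicClosure L ≃ₐ[K] AlgebraicClosure L) :
    ∃ S : (V'.baseChange (AlgebraicClosure L)).toAffine.Point, S + S = 0 ∧
      ∀ τ, cj (inv_up hV) g f τ = f τ + (act (inv_bc L V') τ S - S) := by
  obtain ⟨t, ht⟩ : ∃ t : (AlgebraicClosure L ≃ₐ[K] AlgebraicClosure L) → Coch L V',
      ∀ g, t g = H73IS.cj (inv_up hV) g f - f := ⟨_, fun _ => rfl⟩
  have hSl : ∀ g, Sl L V' (t g) := by
    intro g
    rw [ht]
    exact (hf.cj hV g).sub hf
  have hsg : ∀ g τ, sg (t g τ) = 1 := by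
    intro g τ
    rw [ht]
    exact i1 h hV H hf g τ
  have hfix : ∀ g g', H73IS.cj (inv_up hV) g (t g') = t g' :=
    fun g g' => i2 h hV H' (hSl g') (hsg g') g
  have hmul : ∀ g g', t (g * g') = t g + t g' := by
    intro g g'
    have e2 : H73IS.cj (inv_up hV) g' f = f + t g' := by rw [ht]; abel
    rw [ht (g * g'), cj_mul, e2, cj_add, hfix, ht g]
    abel
  have hone : t 1 = 0 := by rw [ht, cj_one, sub_self]
  have h2 : ∀ g, t g + t g = 0 := fun g => funext fun τ => (hSl g).2.2 τ
  have hpow : ∀ (g : AlgebraicClosure L ≃ₐ[K] AlgebraicClosure L) (m : ℕ),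
      t (g ^ m) = m • t g := by
    intro g m
    induction m with
    | zero => rw [pow_zero, hone, zero_nsmul]
    | succ m ih => rw [pow_succ, hmul, ih, succ_nsmul]
  obtain ⟨r, hr⟩ := hodd
  obtain ⟨τ₀, hτ₀⟩ := exists_pow_fix (L := L) g
  have hn : t (g ^ Module.finrank K L) = t g := by
    rw [hpow, hr, add_nsmul, mul_nsmul, one_nsmul]
    have : 2 • t g = 0 := by rw [two_nsmul]; exact h2 g
    rw [this, nsmul_zero, zero_add]
  refine ⟨f τ₀, hf.2.2 τ₀, fun τ => ?_⟩
  have hc : IsCoc (K := L) (inv_up hV : Inv K (V'.baseChange (AlgebraicClosure L))).up f :=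
    (isCocycle_iff f).1 hf.1
  have e1 := cj_inner (L := L) (inv_up hV) τ₀ hc τ
  have e3 : H73IS.cj (inv_up hV) g f τ = f τ + t g τ := by
    rw [ht]
    simp only [Pi.sub_apply]
    abel
  have e4 : H73IS.cj (inv_up hV) (g ^ Module.finrank K L) f τ =
      f τ + t (g ^ Module.finrank K L) τ := by
    rw [ht]
    simp only [Pi.sub_apply]
    abel
  rw [e3, ← hn, ← e4, hτ₀, e1]

end H73IS
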