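import Pool.Agent.H73.IS.Asm
import Pool.Agent.H73.IS.KDf

/-!
Definitions for curves over the base field `k` (no row).
-/

set_option autoImplicit false
open scoped Classical

open NumberField IsDedekindDomain WithZero Pool.Agent.H10

namespace H73IS

/-- At all real places zero is the smallest or the only real root of `x (x^2 + a x + b)`. -/
def RR (k : Type) [Field k] [NumberField k] (a b : 𝓞 k) : Prop :=
  ∀ φ : k →+* ℝ, φ a ^ 2 < 4 * φ b ∨ (0 < φ b ∧ φ a < 0)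

/-- At the prime `v` above two the local image of `x` on `y^2 = x (x^2 + a x + b)` is small. -/
def SmallAt {k : Type} [Field k] [NumberField k] (v : HeightOneSpectrum (𝓞 k)) (a b : 𝓞 k) :
    Prop :=
  ∃ i : ℕ, a ∈ v.asIdeal ^ (2 * i + 1) ∧ b ∈ v.asIdeal ^ (4 * i) ∧
    a ^ 2 - 4 * b ∈ v.asIdeal ^ (4 * i + 4) ∧
    ¬ (a ∈ v.asIdeal ^ (2 * i + 2) ∧ b ∈ v.asIdeal ^ (4 * i + 4))

/-- Up to squares `d` is `1 + 2 y` modulo four, where `y` is modulo the maximal ideal a root of a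
monic cubic polynomial with integral coefficients in `k`. -/
def KapK (k : Type*) {F : Type*} [Field k] [Field F] [Algebra k F]
    (V : Valuation F (WithZero (Multiplicative ℤ))) (d : F) : Prop :=
  ∃ (t y : F) (c₂ c₁ c₀ : k), t ≠ 0 ∧ V y ≤ 1 ∧ V (algebraMap k F c₂) ≤ 1 ∧
    V (algebraMap k F c₁) ≤ 1 ∧ V (algebraMap k F c₀) ≤ 1 ∧
    V (d * t ^ 2 - (1 + 2 * y)) ≤ exp (-2 : ℤ) ∧
    V (y ^ 3 + algebraMap k F c₂ * y ^ 2 + algebraMap k F c₁ * y + algebraMap k F c₀) < 1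

/-- Roots, modulo the primes above two, of monic cubic polynomials over `𝓞 k` come from `𝓞 K`. -/
def CubIn (k K L : Type) [Field k] [NumberField k] [Field K] [NumberField K] [Field L]
    [NumberField L] [Algebra k L] [Algebra K L] : Prop :=
  ∀ w : HeightOneSpectrum (𝓞 L), (2 : 𝓞 L) ∈ w.asIdeal → ∀ (c₂ c₁ c₀ : 𝓞 k) (y : 𝓞 L),
    y ^ 3 + algebraMap (𝓞 k) (𝓞 L) c₂ * y ^ 2 + algebraMap (𝓞 k) (𝓞 L) c₁ * y +
      algebraMap (𝓞 k) (𝓞 L) c₀ ∈ w.asIdeal →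
    ∃ c : 𝓞 K, y - algebraMap (𝓞 K) (𝓞 L) c ∈ w.asIdeal

end H73IS
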