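import Pool.Agent.H73.IS.KDf2
import Pool.Agent.H10.StarLoc

/-!
Row KTa (about 260 lines): the local lemma at two over a general base field, first case: V A = exp (-1).

Model: row Ta (H73/IS/Ta.lean, kap_a) with integers replaced by elements of k; V-lemmas and V_sqratio in H10/StarLoc.lean. Write ι = algebraMap k F. A = 2 A1 with V (ι A1) = 1, C := (4 B - A^2)/16 ∈ k, V (ι C) ≤ 1, B = A1^2 + 4 C (char k ≠ 2 because V 2 = exp (-1) ≠ 0).
 From hP: s ∈ k with V (ι (-A1 - s^2)) < 1; V (ι s) = 1; n1 := (-A1/s^2 - 1)/2 ∈ k, V (ι n1) ≤ 1 (V (ι(-A1/s^2 - 1)) < 1, so ≤ exp (-1)), and -A1 = s^2 (1 + 2 n1). From hP: c ∈ k with V (ι (C - c^2)) < 1, C = c^2 + 2 C', C' ∈ k, V (ι C') ≤ 1.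
 kap_of_one (d t^2 = 1 mod 4): y = 0, c2 = c1 = c0 = 0. kap_of_base (V (d t^2 - ι m) ≤ exp (-2) with m ∈ k, V (ι m) = 1): s' with V (m - s'^2) < 1, m = s'^2 (1 + 2 n), d (t/s')^2 = 1 + 2 n mod 4: y = ι n, cubic Y^3 - n Y^2.
 The point: M, e, N with d N^2 = d^2 M^4 + A d M^2 e^2 + B e^4. e = 0: d (M^2/N)^2 = 1 (N ≠ 0). M = 0: d (N/e^2)^2 = B, V B = 1: kap_of_base. Otherwise X := d (M/e)^2, n := N/e^2, u := M/e ≠ 0: X = d u^2, d n^2 = X^2 + A X + B.
 (1) V X > 1: t = n/X: d t^2 - 1 = A/X + B/X^2, V ≤ exp (-2). (2) V X < 1: d n^2 - B = X^2 + A X, V ≤ exp (-2): kap_of_base with m = B.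
 (3) V X = 1, V (X + A1) = 1: X^2 + A X + B = (X + A1)^2 + 4 C, t = n/(X + A1): d t^2 - 1 = 4 C/(X + A1)^2.
 (4) V X = 1, V (X + A1) < 1: z := (X + A1)/2, V z ≤ 1, d u^2 = -A1 + 2 z = s^2 (1 + 2 (n1 + z/s^2)): with t = u/s, y := n1 + z/s^2: d t^2 = 1 + 2 y exactly. d (n/2)^2 = z^2 + C = (z + c)^2 + 2 (C' - c z).
   (4a) V (z + c) < 1: y = n1 - c/s^2 modulo the maximal ideal: cubic Y^2 (Y - (n1 - c/s^2)).
   (4b) V (z + c) = 1: κ := (C' - c z)/(z + c)^2, d (n/(2 (z + c)))^2 = 1 + 2 κ; V_sqratio: V (y - κ) < 1; z = s^2 (y - n1): V (y (s^2 (y - n1) + c)^2 + c s^2 (y - n1) - C') < 1. Divide by s^4 (V (ι s) = 1): monic cubic in y with coefficients in k: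
     y^3 + 2 (c/s^2 - n1) y^2 + ((c/s^2 - n1)^2 + c/s^2) y - (c n1/s^2 + C'/s^4).
-/

set_option autoImplicit false
open scoped Classical

open WithZero Pool.Agent.H10

namespace H73IS

theorem kapK_one {k F : Type*} [Field k] [Field F] [Algebra k F]
    {V : Valuation F (WithZero (Multiplicative ℤ))} {d t : F} (ht : t ≠ 0)
    (h : V (d * t ^ 2 - 1) ≤ exp (-2 : ℤ)) : KapK k V d := by
  refine ⟨t, 0, 0, 0, 0, ht, ?_, ?_, ?_, ?_, ?_, ?_⟩
  · rw [map_zero]; exact zero_le
  · rw [map_zero, map_zero]; exact zero_le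
  · rw [map_zero, map_zero]; exact zero_le
  · rw [map_zero, map_zero]; exact zero_le
  · have e : d * t ^ 2 - (1 + 2 * (0 : F)) = d * t ^ 2 - 1 := by ring
    rw [e]; exact h
  · have e : (0 : F) ^ 3 + algebraMap k F 0 * 0 ^ 2 + algebraMap k F 0 * 0 + algebraMap k F 0 =
        0 := by
      rw [map_zero]; ring
    rw [e, map_zero]
    exact one_pos

theorem KTa_two {F : Type*} [Field F] {V : Valuation F (WithZero (Multiplicative ℤ))}
    (h2 : V 2 = exp (-1 : ℤ)) : (2 : F) ≠ 0 := by
  intro h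
  rw [h, map_zero] at h2
  exact exp_ne_zero h2.symm

theorem KTa_twok {k F : Type*} [Field k] [Field F] [Algebra k F] (h : (2 : F) ≠ 0) :
    (2 : k) ≠ 0 := by
  intro h0
  apply h
  have h1 := congrArg (algebraMap k F) h0
  rwa [map_ofNat, map_zero] at h1

theorem KTa_ne {F : Type*} [Field F] {V : Valuation F (WithZero (Multiplicative ℤ))}
    {x : F} (h : V x = 1) : x ≠ 0 := by
  intro h0
  rw [h0, map_zero] at h
  exact zero_ne_one h

/-- the square root of a unit and the correction -/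
theorem KTa_unit {k F : Type*} [Field k] [Field F] [Algebra k F]
    {V : Valuation F (WithZero (Multiplicative ℤ))} (h2 : V 2 = exp (-1 : ℤ))
    (hP : ∀ x : k, V (algebraMap k F x) ≤ 1 → ∃ s : k, V (algebraMap k F (x - s ^ 2)) < 1)
    {m : k} (hm : V (algebraMap k F m) = 1) :
    ∃ s n : k, s ≠ 0 ∧ V (algebraMap k F s) = 1 ∧ V (algebraMap k F n) ≤ 1 ∧
      m = s ^ 2 * (1 + 2 * n) := by
  have h20 := KTa_two h2
  have h2k : (2 : k) ≠ 0 := KTa_twok h20
  obtain ⟨s, hs⟩ := hP m hm.le
  have hs2 : V ((algebraMap k F s) ^ 2) = 1 := by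
    have e : (algebraMap k F s) ^ 2 = algebraMap k F m - algebraMap k F (m - s ^ 2) := by
      rw [map_sub, map_pow]; ring
    rw [e, Valuation.map_sub_swap, Valuation.map_sub_eq_of_lt_right, hm]
    rw [hm]; exact hs
  have hs1 : V (algebraMap k F s) = 1 := val_eq_one_of_sq hs2
  have hs0 : s ≠ 0 := by
    intro h0
    rw [h0, map_zero, map_zero] at hs1
    exact zero_ne_one hs1
  refine ⟨s, (m / s ^ 2 - 1) / 2, hs0, hs1, ?_, ?_⟩
  · have e : algebraMap k F ((m / s ^ 2 - 1) / 2) =
        algebraMap k F (m - s ^ 2) / (algebraMap k F s) ^ 2 / 2 := by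
      rw [← map_pow, ← map_div₀, map_div₀ (algebraMap k F) _ 2, map_ofNat]
      congr 2
      field_simp
    rw [e, map_div₀, map_div₀, hs2, div_one, h2, div_le_iff₀ exp_pos, one_mul]
    exact le_exp_neg_one hs
  · field_simp
    ring

theorem kapK_base {k F : Type*} [Field k] [Field F] [Algebra k F]
    {V : Valuation F (WithZero (Multiplicative ℤ))} (h2 : V 2 = exp (-1 : ℤ))
    (hP : ∀ x : k, V (algebraMap k F x) ≤ 1 → ∃ s : k, V (algebraMap k F (x - s ^ 2)) < 1)
    {d t : F} (ht : t ≠ 0) {m : k} (hm : V (algebraMap k F m) = 1)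
    (h : V (d * t ^ 2 - algebraMap k F m) ≤ exp (-2 : ℤ)) : KapK k V d := by
  obtain ⟨s, n, hs0, hs1, hn, hmn⟩ := KTa_unit h2 hP hm
  have hsF : algebraMap k F s ≠ 0 := KTa_ne hs1
  refine ⟨t / algebraMap k F s, algebraMap k F n, -n, 0, 0, div_ne_zero ht hsF, hn, ?_, ?_, ?_,
    ?_, ?_⟩
  · rw [map_neg, Valuation.map_neg]; exact hn
  · rw [map_zero, map_zero]; exact zero_le
  · rw [map_zero, map_zero]; exact zero_le
  · have e : d * (t / algebraMap k F s) ^ 2 - (1 + 2 * algebraMap k F n) =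
        (d * t ^ 2 - algebraMap k F m) / (algebraMap k F s) ^ 2 := by
      have e1 : algebraMap k F m = (algebraMap k F s) ^ 2 * (1 + 2 * algebraMap k F n) := by
        rw [hmn, map_mul, map_pow, map_add, map_one, map_mul, map_ofNat]
      rw [e1]
      field_simp
    rw [e, map_div₀, map_pow, hs1, one_pow, div_one]
    exact h
  · have e : (algebraMap k F n) ^ 3 + algebraMap k F (-n) * (algebraMap k F n) ^ 2 +
        algebraMap k F 0 * algebraMap k F n + algebraMap k F 0 = 0 := by
      rw [map_zero, map_neg]; ring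
    rw [e, map_zero]
    exact one_pos

theorem KTa_core {k F : Type*} [Field k] [Field F] [Algebra k F]
    {V : Valuation F (WithZero (Multiplicative ℤ))} (h2 : V 2 = exp (-1 : ℤ))
    {d u z n : F} {s n1 c C' : k} (hu : u ≠ 0) (hz : V z ≤ 1)
    (hs : V (algebraMap k F s) = 1) (hn1 : V (algebraMap k F n1) ≤ 1)
    (hc : V (algebraMap k F c) ≤ 1) (hC : V (algebraMap k F C') ≤ 1)
    (hd : d * u ^ 2 = (algebraMap k F s) ^ 2 * (1 + 2 * algebraMap k F n1) + 2 * z)
    (hn : d * n ^ 2 = (z + algebraMap k F c) ^ 2 +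
      2 * (algebraMap k F C' - algebraMap k F c * z)) : KapK k V d := by
  have V1 : V (1 : F) ≤ 1 := by rw [map_one]
  have hsF : algebraMap k F s ≠ 0 := KTa_ne hs
  have hsk : s ≠ 0 := fun h0 => hsF (by rw [h0, map_zero])
  set y : F := algebraMap k F n1 + z / (algebraMap k F s) ^ 2 with hy
  have hzs : V (z / (algebraMap k F s) ^ 2) ≤ 1 := by
    rw [map_div₀, map_pow, hs, one_pow, div_one]; exact hz
  have hy1 : V y ≤ 1 := V_add_le hn1 hzs
  have hcs : V (algebraMap k F (c / s ^ 2)) ≤ 1 := by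
    rw [map_div₀, map_div₀, map_pow, map_pow, hs, one_pow, div_one]; exact hc
  have hcsE : algebraMap k F (c / s ^ 2) = algebraMap k F c / (algebraMap k F s) ^ 2 := by
    rw [map_div₀, map_pow]
  have ht : u / algebraMap k F s ≠ 0 := div_ne_zero hu hsF
  have hdt : d * (u / algebraMap k F s) ^ 2 = 1 + 2 * y := by
    rw [hy]
    field_simp
    linear_combination hd
  have hdt0 : V (d * (u / algebraMap k F s) ^ 2 - (1 + 2 * y)) ≤ exp (-2 : ℤ) := by
    rw [hdt, sub_self, map_zero]; exact zero_le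
  have hzc : V (z + algebraMap k F c) ≤ 1 := V_add_le hz hc
  rcases lt_or_eq_of_le hzc with hlt | heq
  · refine ⟨u / algebraMap k F s, y, -(n1 - c / s ^ 2), 0, 0, ht, hy1, ?_, ?_, ?_, hdt0, ?_⟩
    · rw [map_neg, Valuation.map_neg, map_sub]; exact V_sub_le hn1 hcs
    · rw [map_zero, map_zero]; exact zero_le
    · rw [map_zero, map_zero]; exact zero_le
    · have e : y ^ 3 + algebraMap k F (-(n1 - c / s ^ 2)) * y ^ 2 + algebraMap k F 0 * y +
          algebraMap k F 0 = y ^ 2 * ((z + algebraMap k F c) / (algebraMap k F s) ^ 2) := by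
        rw [map_zero, map_neg, map_sub, hcsE, hy]
        field_simp
        ring
      rw [e]
      refine V_mul_lt ?_ ?_
      · rw [map_pow]; exact pow_le_one' hy1 2
      · rw [map_div₀, map_pow, hs, one_pow, div_one]; exact hlt
  have hzc0 : z + algebraMap k F c ≠ 0 := KTa_ne heq
  have hCc : V (algebraMap k F C' - algebraMap k F c * z) ≤ 1 := V_sub_le hC (V_mul_le hc hz)
  set κ : F := (algebraMap k F C' - algebraMap k F c * z) / (z + algebraMap k F c) ^ 2 with hκ
  have hκ1 : V κ ≤ 1 := by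
    rw [hκ, map_div₀, map_pow, heq, one_pow, div_one]
    exact hCc
  have e1 : d * (n / (z + algebraMap k F c)) ^ 2 = 1 + 2 * κ := by
    rw [hκ]
    field_simp
    linear_combination hn
  have hn0 : n ≠ 0 := by
    intro h
    rw [h] at e1
    have h3 : V (1 + 2 * κ) = 1 := Valuation.map_one_add_of_lt V (V_two_mul_lt h2 hκ1)
    rw [← e1] at h3
    simp at h3
  have e2 : 1 + 2 * y = (1 + 2 * κ) *
      (u / algebraMap k F s * (z + algebraMap k F c) / n) ^ 2 := by
    rw [← hdt, ← e1]
    field_simp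
  have h3 := V_sqratio h2 hy1 hκ1 e2
  have h4 : V (y * (z + algebraMap k F c) ^ 2 +
      (algebraMap k F c * z - algebraMap k F C')) < 1 := by
    have e3 : y * (z + algebraMap k F c) ^ 2 + (algebraMap k F c * z - algebraMap k F C') =
        (z + algebraMap k F c) ^ 2 * (y - κ) := by
      rw [hκ]
      field_simp
      ring
    rw [e3, map_mul, map_pow, heq, one_pow, one_mul]
    exact h3
  have h2F : V (2 : F) ≤ 1 := by rw [h2]; exact exp_neg_lt_one.le
  have hcn : V (algebraMap k F (c / s ^ 2 - n1)) ≤ 1 := by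
    rw [map_sub]; exact V_sub_le hcs hn1
  have hs4 : V (algebraMap k F s ^ 4) = 1 := by rw [map_pow, hs, one_pow]
  refine ⟨u / algebraMap k F s, y, 2 * (c / s ^ 2 - n1), (c / s ^ 2 - n1) ^ 2 + c / s ^ 2,
    -(c / s ^ 2 * n1 + C' / s ^ 4), ht, hy1, ?_, ?_, ?_, hdt0, ?_⟩
  · rw [map_mul, map_ofNat]; exact V_mul_le h2F hcn
  · rw [map_add, map_pow]
    refine V_add_le ?_ hcs
    rw [map_pow]; exact pow_le_one' hcn 2
  · rw [map_neg, Valuation.map_neg, map_add, map_mul]
    refine V_add_le (V_mul_le hcs hn1) ?_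
    rw [map_div₀, map_div₀, map_pow, hs4, div_one]
    exact hC
  · have e4 : y ^ 3 + algebraMap k F (2 * (c / s ^ 2 - n1)) * y ^ 2 +
        algebraMap k F ((c / s ^ 2 - n1) ^ 2 + c / s ^ 2) * y +
        algebraMap k F (-(c / s ^ 2 * n1 + C' / s ^ 4)) =
        (y * (z + algebraMap k F c) ^ 2 + (algebraMap k F c * z - algebraMap k F C')) /
          (algebraMap k F s) ^ 4 := by
      rw [map_mul, map_ofNat, map_add, map_pow, map_neg, map_add, map_mul, map_sub,
        map_div₀ _ C', map_pow _ s 4, hcsE]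
      have hz' : z = (algebraMap k F s) ^ 2 * (y - algebraMap k F n1) := by
        rw [hy]; field_simp; ring
      rw [hz']
      field_simp
      ring
    rw [e4, map_div₀, hs4, div_one]
    exact h4

/-- the affine equation -/
theorem KTa_aff {k F : Type*} [Field k] [Field F] [Algebra k F]
    {V : Valuation F (WithZero (Multiplicative ℤ))} (h2 : V 2 = exp (-1 : ℤ))
    (hP : ∀ x : k, V (algebraMap k F x) ≤ 1 → ∃ s : k, V (algebraMap k F (x - s ^ 2)) < 1)
    {A1 C : k} (hA : V (algebraMap k F A1) = 1) (hC : V (algebraMap k F C) ≤ 1)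
    {d u n : F} (hd : d ≠ 0) (hu : u ≠ 0)
    (H : d * n ^ 2 = (d * u ^ 2) ^ 2 + (2 * algebraMap k F A1) * (d * u ^ 2) +
      (algebraMap k F A1 ^ 2 + 4 * algebraMap k F C)) :
    KapK k V d := by
  have h20 : (2 : F) ≠ 0 := KTa_two h2
  have h2k : (2 : k) ≠ 0 := KTa_twok h20
  have V1 : V (1 : F) ≤ 1 := by rw [map_one]
  have hnot : ¬ (1 : WithZero (Multiplicative ℤ)) ≤ exp (-2) :=
    not_le.mpr (exp_neg_two_lt.trans exp_neg_lt_one)
  have hV4C : V (4 * algebraMap k F C) ≤ exp (-2 : ℤ) := by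
    rw [map_mul, V_four h2]
    exact mul_le_of_le_one_right' hC
  have hVA : V (2 * algebraMap k F A1) = exp (-1 : ℤ) := by
    rw [map_mul, h2, hA, mul_one]
  have hBF : algebraMap k F (A1 ^ 2 + 4 * C) = algebraMap k F A1 ^ 2 + 4 * algebraMap k F C := by
    rw [map_add, map_pow, map_mul, map_ofNat]
  have hVB : V (algebraMap k F (A1 ^ 2 + 4 * C)) = 1 := by
    rw [hBF, Valuation.map_add_eq_of_lt_left, map_pow, hA, one_pow]
    rw [map_pow, hA, one_pow]
    exact hV4C.trans_lt (exp_neg_two_lt.trans exp_neg_lt_one)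
  set X : F := d * u ^ 2 with hX
  have hX0 : X ≠ 0 := mul_ne_zero hd (pow_ne_zero _ hu)
  rcases lt_trichotomy (V X) 1 with hlt | heq | hgt
  · -- small
    have h3 : V (X ^ 2 + 2 * algebraMap k F A1 * X) ≤ exp (-2 : ℤ) := by
      refine V_add_le (V_sq_le hlt) ?_
      rw [map_mul, hVA, exp_neg_two]
      exact mul_le_mul_right (le_exp_neg_one hlt) _
    have e1 : d * n ^ 2 - algebraMap k F (A1 ^ 2 + 4 * C) =
        X ^ 2 + 2 * algebraMap k F A1 * X := by
      rw [H, hBF]; ring
    have hn : n ≠ 0 := by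
      intro h
      rw [h] at e1
      have e3 : -algebraMap k F (A1 ^ 2 + 4 * C) = X ^ 2 + 2 * algebraMap k F A1 * X := by
        rw [← e1]; ring
      rw [← e3, Valuation.map_neg, hVB] at h3
      exact hnot h3
    exact kapK_base h2 hP hn hVB (by rw [e1]; exact h3)
  · -- unit
    have hXA : V (X + algebraMap k F A1) ≤ 1 := V_add_le heq.le hA.le
    rcases lt_or_eq_of_le hXA with hxa | hxa
    · -- case four
      have hnA : V (algebraMap k F (-A1)) = 1 := by rw [map_neg, Valuation.map_neg, hA]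
      obtain ⟨s, n1, hs0, hs1, hn1, hA1⟩ := KTa_unit h2 hP hnA
      obtain ⟨c, hc⟩ := hP C hC
      have hc2 : V (algebraMap k F c ^ 2) ≤ 1 := by
        have e : algebraMap k F c ^ 2 = algebraMap k F C - algebraMap k F (C - c ^ 2) := by
          rw [map_sub, map_pow]; ring
        rw [e]
        exact V_sub_le hC hc.le
      have hc1 : V (algebraMap k F c) ≤ 1 := by
        by_contra h1
        rw [not_le] at h1
        rw [map_pow] at hc2
        exact absurd (one_lt_pow₀ h1 two_ne_zero) (not_lt.mpr hc2)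
      set z : F := (X + algebraMap k F A1) / 2 with hz
      have hz1 : V z ≤ 1 := by
        rw [hz, map_div₀, h2, div_le_iff₀ exp_pos, one_mul]
        exact le_exp_neg_one hxa
      have hXz : X = 2 * z - algebraMap k F A1 := by
        rw [hz]; field_simp; ring
      have hAF : -algebraMap k F A1 = algebraMap k F s ^ 2 * (1 + 2 * algebraMap k F n1) := by
        have h5 := congrArg (algebraMap k F) hA1
        rwa [map_neg, map_mul, map_pow, map_add, map_one, map_mul, map_ofNat] at h5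
      have e1 : d * u ^ 2 = algebraMap k F s ^ 2 * (1 + 2 * algebraMap k F n1) + 2 * z := by
        rw [← hX, hXz, ← hAF]; ring
      have hCC : V (algebraMap k F ((C - c ^ 2) / 2)) ≤ 1 := by
        rw [map_div₀, map_ofNat, map_div₀, h2, div_le_iff₀ exp_pos, one_mul]
        exact le_exp_neg_one hc
      refine KTa_core h2 (n := n / 2) (c := c) (C' := (C - c ^ 2) / 2) hu hz1 hs1 hn1 hc1 hCC e1 ?_
      have e2 : d * (n / 2) ^ 2 = (d * n ^ 2) / 4 := by
        rw [div_pow, ← mul_div_assoc]; norm_num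
      have h40 : (4 : F) ≠ 0 := by
        have : (4 : F) = 2 * 2 := by norm_num
        rw [this]; exact mul_ne_zero h20 h20
      have hCF : algebraMap k F ((C - c ^ 2) / 2) =
          (algebraMap k F C - algebraMap k F c ^ 2) / 2 := by
        rw [map_div₀, map_ofNat, map_sub, map_pow]
      rw [e2, H, hXz, hCF, div_eq_iff h40]
      field_simp
      ring
    · have hxa0 : X + algebraMap k F A1 ≠ 0 := KTa_ne hxa
      have e1 : d * n ^ 2 = (X + algebraMap k F A1) ^ 2 + 4 * algebraMap k F C := by rw [H]; ring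
      have hn : n ≠ 0 := by
        intro h
        rw [h] at e1
        have h3 : V ((X + algebraMap k F A1) ^ 2) ≤ exp (-2 : ℤ) := by
          have e3 : (X + algebraMap k F A1) ^ 2 = -(4 * algebraMap k F C) := by
            linear_combination -e1
          rw [e3, Valuation.map_neg]
          exact hV4C
        rw [map_pow, hxa, one_pow] at h3
        exact hnot h3
      refine kapK_one (t := n / (X + algebraMap k F A1)) (div_ne_zero hn hxa0) ?_
      have e2 : d * (n / (X + algebraMap k F A1)) ^ 2 - 1 =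
          4 * algebraMap k F C / (X + algebraMap k F A1) ^ 2 := by
        field_simp
        linear_combination e1
      rw [e2, map_div₀, map_pow, hxa, one_pow, div_one]
      exact hV4C
  · -- big
    have hinv : V (1 / X) ≤ exp (-1 : ℤ) := by
      have h3 := exp_one_le hgt
      rw [map_div₀, map_one, div_le_iff₀ (lt_of_lt_of_le exp_pos h3)]
      calc (1 : WithZero (Multiplicative ℤ)) = exp (-1) * exp 1 := by rw [← exp_add]; norm_num
        _ ≤ exp (-1) * V X := mul_le_mul_right h3 _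
    have h3 : V (2 * algebraMap k F A1 * (1 / X) +
        algebraMap k F (A1 ^ 2 + 4 * C) * ((1 / X) * (1 / X))) ≤ exp (-2 : ℤ) := by
      apply V_add_le
      · rw [map_mul, hVA, exp_neg_two]
        exact mul_le_mul_right hinv _
      · rw [map_mul, map_mul, hVB, one_mul, exp_neg_two]
        exact mul_le_mul' hinv hinv
    have e1 : d * (n / X) ^ 2 - 1 = 2 * algebraMap k F A1 * (1 / X) +
        algebraMap k F (A1 ^ 2 + 4 * C) * ((1 / X) * (1 / X)) := by
      rw [hBF]
      field_simp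
      linear_combination H
    have hn : n ≠ 0 := by
      intro h
      rw [h] at e1
      have e3 : -(1 : F) = 2 * algebraMap k F A1 * (1 / X) +
          algebraMap k F (A1 ^ 2 + 4 * C) * ((1 / X) * (1 / X)) := by
        rw [← e1]; ring
      rw [← e3, Valuation.map_neg, map_one] at h3
      exact hnot h3
    refine kapK_one (t := n / X) (div_ne_zero hn hX0) ?_
    rw [e1]
    exact h3

theorem kapK_a {k F : Type*} [Field k] [Field F] [Algebra k F]
    {V : Valuation F (WithZero (Multiplicative ℤ))} (h2 : V 2 = exp (-1 : ℤ))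
    (hP : ∀ x : k, V (algebraMap k F x) ≤ 1 → ∃ s : k, V (algebraMap k F (x - s ^ 2)) < 1)
    {A B : k} (hA : V (algebraMap k F A) = exp (-1 : ℤ))
    (hB : V (algebraMap k F (A ^ 2 - 4 * B)) ≤ exp (-4 : ℤ))
    {d : F} (hd : d ≠ 0) (H : QPt (algebraMap k F A) (algebraMap k F B) d) : KapK k V d := by
  have h20 : (2 : F) ≠ 0 := KTa_two h2
  have h2k : (2 : k) ≠ 0 := KTa_twok h20
  have h4k : (4 : k) ≠ 0 := by
    have : (4 : k) = 2 * 2 := by norm_num
    rw [this]; exact mul_ne_zero h2k h2k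
  obtain ⟨A1, hA1⟩ : ∃ A1 : k, A = 2 * A1 := ⟨A / 2, by field_simp⟩
  have hVA1 : V (algebraMap k F A1) = 1 := by
    rw [hA1, map_mul, map_ofNat, map_mul, h2] at hA
    have h3 : (exp (-1 : ℤ) : WithZero (Multiplicative ℤ)) * V (algebraMap k F A1) =
        exp (-1 : ℤ) * 1 := by rw [hA, mul_one]
    exact mul_left_cancel₀ exp_ne_zero h3
  obtain ⟨C, hC⟩ : ∃ C : k, B = A1 ^ 2 + 4 * C := ⟨(B - A1 ^ 2) / 4, by field_simp; ring⟩
  have hVC : V (algebraMap k F C) ≤ 1 := by
    have e : A ^ 2 - 4 * B = -(4 * 4 * C) := by rw [hA1, hC]; ring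
    rw [e, map_neg, Valuation.map_neg, map_mul, map_mul, map_mul, map_ofNat, map_mul, V_four h2]
      at hB
    have h3 : (exp (-4 : ℤ) : WithZero (Multiplicative ℤ)) = exp (-2 : ℤ) * exp (-2 : ℤ) := by
      rw [← exp_add]; norm_num
    rw [h3] at hB
    have h4 : (0 : WithZero (Multiplicative ℤ)) < exp (-2 : ℤ) * exp (-2 : ℤ) := by
      rw [← h3]; exact exp_pos
    by_contra h5
    rw [not_le] at h5
    have h6 := mul_lt_mul_of_pos_left h5 h4
    rw [mul_one] at h6
    exact absurd hB (not_le.mpr h6)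
  have hVB : V (algebraMap k F B) = 1 := by
    have hV4C : V (4 * algebraMap k F C) ≤ exp (-2 : ℤ) := by
      rw [map_mul, V_four h2]
      exact mul_le_of_le_one_right' hVC
    rw [hC, map_add, map_pow, map_mul, map_ofNat, Valuation.map_add_eq_of_lt_left, map_pow,
      hVA1, one_pow]
    rw [map_pow, hVA1, one_pow]
    exact hV4C.trans_lt (exp_neg_two_lt.trans exp_neg_lt_one)
  obtain ⟨M, e, N, hMe, hE⟩ := H
  by_cases he : e = 0
  · subst he
    have hM : M ≠ 0 := by
      rcases hMe with h | h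
      · exact h
      · exact absurd rfl h
    have e1 : N ^ 2 = d * M ^ 4 := by
      apply mul_left_cancel₀ hd
      linear_combination hE
    have hN : N ≠ 0 := by
      intro h
      rw [h] at e1
      have : d * M ^ 4 = 0 := by rw [← e1]; ring
      exact (mul_ne_zero hd (pow_ne_zero _ hM)) this
    refine kapK_one (t := M ^ 2 / N) (div_ne_zero (pow_ne_zero _ hM) hN) ?_
    have e2 : d * (M ^ 2 / N) ^ 2 - 1 = 0 := by
      field_simp
      linear_combination -e1
    rw [e2, map_zero]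
    exact zero_le
  by_cases hM : M = 0
  · subst hM
    have e1 : d * (N / e ^ 2) ^ 2 = algebraMap k F B := by
      field_simp
      linear_combination hE
    have hN : N ≠ 0 := by
      intro h
      rw [h] at e1
      have h3 := hVB
      rw [← e1] at h3
      simp at h3
    refine kapK_base h2 hP (t := N / e ^ 2) (div_ne_zero hN (pow_ne_zero _ he)) hVB ?_
    rw [e1, sub_self, map_zero]
    exact zero_le
  refine KTa_aff h2 hP (A1 := A1) (C := C) hVA1 hVC (u := M / e) (n := N / e ^ 2) hd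
    (div_ne_zero hM he) ?_
  have hAF : algebraMap k F A = 2 * algebraMap k F A1 := by rw [hA1, map_mul, map_ofNat]
  have hBF : algebraMap k F B = algebraMap k F A1 ^ 2 + 4 * algebraMap k F C := by
    rw [hC, map_add, map_pow, map_mul, map_ofNat]
  rw [hAF, hBF] at hE
  field_simp
  linear_combination hE

end H73IS
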