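import Pool.Agent.H73.IS.Bas

/-!
Row La (about 180 lines): from a point of E over the closure to a point on the genus one curve.

Setting: F ⊂ ΩF Galois, ΩF algebraically closed, E/ΩF given by y^2 = x (x^2 + a x + b) with a, b ∈ F. Let e2, e3 be the roots of x^2 + a x + b in ΩF: IsCub E 0 e2 e3 (a = -(e2+e3), b = e2 e3, distinct by hd, nonzero by hb). Use
 IsCub.exists_half, half_add_tau (or half_add_T₁ T₂ T₃), half_inj, half_add_half of H10 (Cub.lean, Bridge.lean).
PROOF of la. Let S_τ = act τ R - R, two-torsion, τ r = sg(S_τ) r. An element of ΩF fixed by all τ is in F (fixed_of_galois, H10/Bridge3).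
 (1) R = 0 or R two-torsion (y = 0): R = T or 0: S_τ = 0, τ r = r, so r ∈ F, d is a square: QPt.isSquare. R = (e2, 0) or (e3, 0): act τ R is a two-torsion point with x ≠ 0, so S_τ ∈ {0, T}, sg = 1: again d is a square.
 (2) R = half X s1 s2 s3, s1^2 = X, s2^2 = X - e2, s3^2 = X - e3. R + R = (X, s1 s2 s3) is fixed by all τ (τ(2R) = 2R + 2 S_τ = 2R) so X, Y := s1 s2 s3 ∈ F. act τ R = half X (τ s1) (τ s2 or s3 ...) — careful: τ may exchange e2 and e3; so avoid this and use the
  explicit functions: for R = (x, y), y ≠ 0: u := (x^2 - b)/(2 y). Adding T: (b/x, -b y/x^2) has the same u; adding (e2,0) or (e3,0) changes u into -u (from half_add_T₂: u = s1, s1 ↦ -s1; indeed s1 = u up to the formula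
  s1 = (Y/(X-e3) + Y/(X-e2) - Y/(X-e1))/2 of exists_half, which equals (x^2-b)/(2y)). So τ u = sg(S_τ) u for all τ (τ u is the u of act τ R = R + S_τ). Also u^2 = X(2R).
  If u ≠ 0: c := u/r is fixed, c ∈ F, c ≠ 0, d c^2 = u^2 = X; Y = y(2R) ∈ F, Y^2 = X (X^2 + a X + b). Take M = c, e = 1, N = Y/(d c): d N^2 = Y^2/(d c^2) = X^2 + a X + b = d^2 c^4 + a d c^2 + b.
  If u = 0: x^2 = b, then R + T has x-coordinate b/x = x and R + (e2,0) has x-coordinate -x (from s1 = 0: x = s2 s3, half_add_T₂ changes the sign of s3). So τ x = sg(S_τ) x; N := x/r ∈ F: take M = 0, e = 1: d N^2 = x^2 = b.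
-/

set_option autoImplicit false
open scoped Classical

open WeierstrassCurve IsDedekindDomain NumberField Pool.Agent.H10

namespace H73IS

/-- the function `u` -/
def lu {k : Type*} [Field k] (b x y : k) : k := (x ^ 2 - b) / (2 * y)

/-- the function `v` -/
def lv {k : Type*} [Field k] (a b x y : k) : k :=
  (x ^ 4 + 2 * a * x ^ 3 + 6 * b * x ^ 2 + 2 * a * b * x + b ^ 2) / (4 * y ^ 2)

theorem la_rel {k : Type*} [Field k] {a b x y : k} (h2 : (2 : k) ≠ 0)
    (hxy : y ^ 2 = x * (x ^ 2 + a * x + b)) (hy : y ≠ 0) :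
    lv a b x y ^ 2 = lu b x y ^ 4 + a * lu b x y ^ 2 + b := by
  have h4 : (4 : k) ≠ 0 := by
    have : (4 : k) = 2 * 2 := by norm_num
    rw [this]; exact mul_ne_zero h2 h2
  unfold lu lv
  have hy2 : y ^ 2 ≠ 0 := pow_ne_zero 2 hy
  have e1 : ((x ^ 2 - b) / (2 * y)) ^ 2 = (x ^ 2 - b) ^ 2 / (4 * y ^ 2) := by
    rw [div_pow, mul_pow]; norm_num
  have e2 : ((x ^ 2 - b) / (2 * y)) ^ 4 = (x ^ 2 - b) ^ 4 / (16 * (y ^ 2) ^ 2) := by
    rw [div_pow, mul_pow, ← pow_mul]; norm_num
  rw [e1, e2, div_pow]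
  have h16 : (16 : k) ≠ 0 := by
    have : (16 : k) = 4 * 4 := by norm_num
    rw [this]; exact mul_ne_zero h4 h4
  have e3 : (4 * y ^ 2) ^ 2 = 16 * (y ^ 2) ^ 2 := by ring
  rw [e3]
  have key : (x ^ 4 + 2 * a * x ^ 3 + 6 * b * x ^ 2 + 2 * a * b * x + b ^ 2) ^ 2
      = (x ^ 2 - b) ^ 4 + a * (x ^ 2 - b) ^ 2 * (4 * y ^ 2) + b * (16 * (y ^ 2) ^ 2) := by
    rw [hxy]; ring
  rw [key]
  field_simp
  ring

theorem la_add {k : Type*} [Field k] {a b x y e X Y : k} (h2 : (2 : k) ≠ 0) (hb : b ≠ 0)
    (hd : a ^ 2 - 4 * b ≠ 0)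
    (hxy : y ^ 2 = x * (x ^ 2 + a * x + b)) (hy : y ≠ 0) (he : e * (e ^ 2 + a * e + b) = 0)
    (hxe : x ≠ e)
    (hX : X = (y / (x - e)) ^ 2 - a - x - e) (hY : Y = -(y / (x - e) * (X - x) + y)) :
    lu b X Y = (if e = 0 then 1 else -1) * lu b x y ∧
    lv a b X Y = (if e = 0 then 1 else -1) * lv a b x y := by
  have h4 : (4 : k) ≠ 0 := by
    have : (4 : k) = 2 * 2 := by norm_num
    rw [this]; exact mul_ne_zero h2 h2
  by_cases h0 : e = 0
  · subst h0
    rw [if_pos rfl, one_mul, one_mul]
    have hx : x ≠ 0 := hxe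
    have hX' : X = b / x := by
      rw [hX, sub_zero, div_pow, hxy]
      field_simp
      ring
    have hY' : Y = -(b * y / x ^ 2) := by
      rw [hY, hX', sub_zero]
      field_simp
      ring
    rw [hX', hY']
    unfold lu lv
    constructor
    · field_simp
      ring
    · field_simp
      ring
  · rw [if_neg h0]
    have he' : e ^ 2 + a * e + b = 0 := (mul_eq_zero.mp he).resolve_left h0
    obtain ⟨f, hf⟩ : ∃ f, f = -a - e := ⟨_, rfl⟩
    have ha : a = -(e + f) := by rw [hf]; ring
    have hb' : b = e * f := by rw [hf]; linear_combination he'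
    have hef : e - f ≠ 0 := by
      intro h
      apply hd
      rw [ha, hb']
      linear_combination (e - f) * h
    have hf0 : f ≠ 0 := by
      rintro rfl
      apply hb; rw [hb', mul_zero]
    have hx1 : x - e ≠ 0 := sub_ne_zero.mpr hxe
    subst ha hb'
    have hxy' : y ^ 2 = x * (x - e) * (x - f) := by rw [hxy]; ring
    have hX' : X = e * (x - f) / (x - e) := by
      rw [hX, div_pow, hxy']
      field_simp
      ring
    have hY' : Y = -(y * e * (e - f) / (x - e) ^ 2) := by
      rw [hY, hX']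
      field_simp
      ring
    rw [hX', hY']
    unfold lu lv
    constructor
    · field_simp
      ring
    · field_simp
      ring

theorem la {F Ω : Type*} [Field F] [Field Ω] [Algebra F Ω] [IsGalois F Ω] [IsAlgClosed Ω]
    {E : WeierstrassCurve Ω} (h : Inv F E) {a b d : F}
    (hE : IsTw E (algebraMap F Ω a) (algebraMap F Ω b)) {r : Ω} (hr : r ≠ 0)
    (hd : r ^ 2 = algebraMap F Ω d) (R : E.toAffine.Point)
    (h2 : ∀ τ : Ω ≃ₐ[F] Ω, (act h τ R - R) + (act h τ R - R) = 0)
    (hs : ∀ τ : Ω ≃ₐ[F] Ω, τ r = ((sg (act h τ R - R) : ℤ) : Ω) * r) : QPt a b d := by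
  have hr2 : r ^ 2 ≠ 0 := pow_ne_zero 2 hr
  have hd0 : d ≠ 0 := by
    rintro rfl
    rw [map_zero] at hd
    exact hr2 hd
  by_cases hR : R + R = 0
  · have hfix : ∀ τ : Ω ≃ₐ[F] Ω, τ r = r := by
      intro τ
      have h3 : sg (act h τ R - R) = 1 := by
        have e1 : -R = R := (eq_neg_of_add_eq_zero_left hR).symm
        have e2 : act h τ R + act h τ R = 0 := by rw [← map_add, hR, map_zero]
        have e3 : sg (act h τ R) = sg R := sg_pm _ (h τ) R
        rw [sub_eq_add_neg, e1, sg_add hE e2 hR, e3, Int.units_mul_self]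
      rw [hs τ, h3]
      simp
    obtain ⟨c, hc⟩ := fixed_of_galois r hfix
    apply QPt.isSquare hd0
    refine ⟨c, ?_⟩
    apply (algebraMap F Ω).injective
    rw [← hd, map_mul, hc, pow_two]
  · rcases R with _ | ⟨x, y, hxy⟩
    · exact absurd (add_zero _) hR
    have heq : y ^ 2 = x * (x ^ 2 + algebraMap F Ω a * x + algebraMap F Ω b) := by
      have h3 := hxy.1
      rw [Affine.equation_iff, hE.a₁, hE.a₂, hE.a₃, hE.a₄, hE.a₆] at h3
      linear_combination h3
    have hy : y ≠ 0 := by
      rintro rfl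
      apply hR
      apply Affine.Point.add_self_of_Y_eq
      rw [Affine.negY, hE.a₁, hE.a₃]
      ring
    obtain ⟨u, hu⟩ : ∃ u, u = lu (algebraMap F Ω b) x y := ⟨_, rfl⟩
    obtain ⟨v, hv⟩ : ∃ v, v = lv (algebraMap F Ω a) (algebraMap F Ω b) x y := ⟨_, rfl⟩
    have hrel : v ^ 2 = u ^ 4 + algebraMap F Ω a * u ^ 2 + algebraMap F Ω b := by
      rw [hu, hv]; exact la_rel hE.two heq hy
    have hτ : ∀ τ : Ω ≃ₐ[F] Ω, ∃ s : Ω, s ^ 2 = 1 ∧ τ r = s * r ∧ τ u = s * u ∧ τ v = s * v := by
      intro τ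
      have hmap : ∀ w : F, τ (algebraMap F Ω w) = algebraMap F Ω w := τ.commutes
      have hτu : τ u = lu (algebraMap F Ω b) (τ x) (τ y) := by
        rw [hu]; unfold lu
        simp only [map_div₀, map_sub, map_pow, map_mul, map_ofNat, hmap]
      have hτv : τ v = lv (algebraMap F Ω a) (algebraMap F Ω b) (τ x) (τ y) := by
        rw [hv]; unfold lv
        simp only [map_div₀, map_add, map_pow, map_mul, map_ofNat, hmap]
      have hact : act h τ (Affine.Point.some x y hxy) = Affine.Point.some (τ x) (τ y) (by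
          have := (Affine.map_nonsingular E.toAffine (τ : Ω →+* Ω).injective x y).mpr hxy
          have e := h τ
          rw [← e]
          exact this) := rfl
      have h2τ := h2 τ
      have hsτ := hs τ
      obtain ⟨S, hS⟩ : ∃ S, S = act h τ (Affine.Point.some x y hxy) - Affine.Point.some x y hxy := ⟨_, rfl⟩
      rw [← hS] at h2τ hsτ
      have hsum : act h τ (Affine.Point.some x y hxy) = Affine.Point.some x y hxy + S := by
        rw [hS]; abel
      rw [hact] at hsum
      refine ⟨((sg S : ℤ) : Ω), ?_, hsτ, ?_⟩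
      · rw [← Int.cast_pow, ← Units.val_pow_eq_pow_val, Int.units_sq]
        simp
      · rw [hτu, hτv, hu, hv]
        rcases S with _ | ⟨e, t, het⟩
        · have e0 : (Affine.Point.zero : E.toAffine.Point) = 0 := rfl
          rw [e0, add_zero, Affine.Point.some.injEq] at hsum
          rw [e0, sg_zero, hsum.1, hsum.2]
          simp
        · have ht : t = 0 := by
            have h3 : Affine.Point.some e t het = -Affine.Point.some e t het :=
              eq_neg_of_add_eq_zero_left h2τ
            rw [Affine.Point.neg_some, Affine.Point.some.injEq, Affine.negY, hE.a₁, hE.a₃] at h3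
            have h4 : (2 : Ω) * t = 0 := by linear_combination h3.2
            exact (mul_eq_zero.mp h4).resolve_left hE.two
          subst ht
          have he : e * (e ^ 2 + algebraMap F Ω a * e + algebraMap F Ω b) = 0 := by
            have h3 := het.1
            rw [Affine.equation_iff, hE.a₁, hE.a₂, hE.a₃, hE.a₄, hE.a₆] at h3
            linear_combination -h3
          have hxe : x ≠ e := by
            rintro rfl
            apply hy
            rw [he] at heq
            exact pow_eq_zero_iff (two_ne_zero) |>.mp heq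
          rw [Affine.Point.add_of_X_ne hxe, Affine.Point.some.injEq] at hsum
          have hslope : E.toAffine.slope x e y 0 = y / (x - e) := by
            rw [Affine.slope_of_X_ne hxe, sub_zero]
          have hX : τ x = (y / (x - e)) ^ 2 - algebraMap F Ω a - x - e := by
            rw [hsum.1, hslope, Affine.addX, hE.a₁, hE.a₂]
            ring
          have hY : τ y = -(y / (x - e) * (τ x - x) + y) := by
            rw [hsum.2, Affine.addY, Affine.negY, Affine.negAddY, hE.a₁, hE.a₃, hslope, hX, Affine.addX,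
              hE.a₁, hE.a₂]
            ring
          have h5 := la_add hE.two hE.hb hE.hd heq hy he hxe hX hY
          rw [sg_some]
          by_cases h0 : e = 0
          · rw [if_pos h0] at h5 ⊢
            simpa using h5
          · rw [if_neg h0] at h5 ⊢
            simpa using h5
    have hfix : ∀ z : Ω, (∀ τ : Ω ≃ₐ[F] Ω, ∀ s : Ω, s ^ 2 = 1 → τ r = s * r → τ u = s * u → τ v = s * v →
        τ z = s * z) → ∃ c : F, algebraMap F Ω c = z / r := by
      intro z hz
      apply fixed_of_galois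
      intro τ
      obtain ⟨s, h1, h3, h4, h5⟩ := hτ τ
      have hs0 : s ≠ 0 := by
        rintro rfl
        norm_num at h1
      rw [map_div₀, h3, hz τ s h1 h3 h4 h5, mul_div_mul_left _ _ hs0]
    obtain ⟨M, hM⟩ := hfix u (fun τ s _ _ h4 _ => h4)
    obtain ⟨N, hN⟩ := hfix v (fun τ s _ _ _ h5 => h5)
    refine ⟨M, 1, N, Or.inr one_ne_zero, ?_⟩
    apply (algebraMap F Ω).injective
    simp only [map_mul, map_add, map_pow, map_one, hM, hN, ← hd]
    have e1 : r ^ 2 * (v / r) ^ 2 = v ^ 2 := by field_simp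
    have e2 : (r ^ 2) ^ 2 * (u / r) ^ 4 = u ^ 4 := by field_simp
    have e3 : algebraMap F Ω a * r ^ 2 * (u / r) ^ 2 = algebraMap F Ω a * u ^ 2 := by field_simp
    rw [one_pow, one_pow, mul_one, mul_one, e1, e2, e3, hrel]

end H73IS
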