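import Pool.Agent.H73.IS.Bas

/-!
Row Sqk (about 110 lines): an element with even valuations, of the form KapForm at the primes above two, with square norm, is a square.

PROOF. This is the end of the proof of newTrivial_star (H10/Star.lean, from the comment `the product with a conjugate`, with d₃ := d): copy it. prodsq: for σ, d * σ d satisfies the hypotheses of R2 (kap_conj, val_conj_of_unique, even_conj in H10/StarGal.lean); the product over all σ of d * σ d is d^n * N(d), n odd, N(d) a square.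
-/

set_option autoImplicit false
open scoped Classical

open WeierstrassCurve IsDedekindDomain NumberField WithZero Pool.Agent.H10

namespace H73IS

variable {K L : Type} [Field K] [NumberField K] [Field L] [NumberField L] [Algebra K L]

theorem sq_of_kap [IsGalois K L] (hodd : Odd (Module.finrank K L)) (R2 : NoNewUnramified K L)
    (hbad : ∀ v : HeightOneSpectrum (𝓞 K), (2 : 𝓞 K) ∈ v.asIdeal → UniqueOver K L v.asIdeal)
    (hunr : ∀ w : HeightOneSpectrum (𝓞 L), (2 : 𝓞 L) ∈ w.asIdeal →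
      (2 : 𝓞 L) ∉ w.asIdeal ^ 2)
    (h3 : ¬ 3 ∣ Module.finrank K L ∨ ∀ v : HeightOneSpectrum (𝓞 K), (2 : 𝓞 K) ∈ v.asIdeal →
      ∃ c : 𝓞 K, c ^ 3 + c ^ 2 + 1 ∈ v.asIdeal)
    {d : L} (hd : d ≠ 0) (ev : ∀ w : HeightOneSpectrum (𝓞 L), Even (log (w.valuation L d)))
    (N : IsSquare (Algebra.norm K d))
    (kap : ∀ w : HeightOneSpectrum (𝓞 L), (2 : 𝓞 L) ∈ w.asIdeal → KapForm (w.valuation L) d) :
    IsSquare d := by
  -- primes of `K` below
  have below : ∀ w : HeightOneSpectrum (𝓞 L), w.asIdeal.under (𝓞 K) ≠ ⊥ := fun w =>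
    Ideal.IsIntegral.comap_ne_bot _ w.ne_bot
  have mem_iff : ∀ (w : HeightOneSpectrum (𝓞 L)),
      (2 : 𝓞 K) ∈ w.asIdeal.under (𝓞 K) ↔ (2 : 𝓞 L) ∈ w.asIdeal := by
    intro w
    change algebraMap (𝓞 K) (𝓞 L) (2 : 𝓞 K) ∈ w.asIdeal ↔ _
    rw [map_ofNat]
  have huniq : ∀ w : HeightOneSpectrum (𝓞 L), (2 : 𝓞 L) ∈ w.asIdeal →
      UniqueOver K L (w.asIdeal.under (𝓞 K)) := by
    intro w hw
    exact hbad ⟨w.asIdeal.under (𝓞 K), inferInstance, below w⟩ ((mem_iff w).mpr hw)
  -- the product with a conjugate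
  have hcardG : Nat.card (L ≃ₐ[K] L) = Module.finrank K L := IsGalois.card_aut_eq_finrank K L
  have prodsq : ∀ σ : L ≃ₐ[K] L, IsSquare (d * σ d) := by
    intro σ
    have hσ0 : σ d ≠ 0 := by
      intro h0
      apply hd
      rw [← σ.symm_apply_apply d, h0, map_zero]
    have hord : orderOf σ ∣ Module.finrank K L := by
      rw [← hcardG]
      exact orderOf_dvd_natCard σ
    apply R2 _ (mul_ne_zero hd hσ0)
    · intro w
      rw [map_mul, log_mul ((Valuation.ne_zero_iff _).mpr hd) ((Valuation.ne_zero_iff _).mpr hσ0)]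
      exact (ev w).add (even_conj σ ev w)
    · rw [map_mul, Algebra.norm_eq_of_algEquiv σ d]
      exact ⟨_, rfl⟩
    · intro w hw
      have hu := huniq w hw
      have hv2 := val_two_of_unram hw (hunr w hw)
      have hσ : ∀ x, w.valuation L (σ x) = w.valuation L x := val_conj_of_unique σ w hu
      refine kap_conj hv2 hσ (Odd.of_dvd_nat hodd hord) ?_ (kap w hw)
      rcases h3 with h3 | h3
      · left
        rw [Nat.coprime_comm, Nat.coprime_comm]
        exact (Nat.Prime.coprime_iff_not_dvd Nat.prime_three).mpr fun h => h3 (h.trans hord)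
      · right
        obtain ⟨c', hc'⟩ := h3 ⟨w.asIdeal.under (𝓞 K), inferInstance, below w⟩
          ((mem_iff w).mpr hw)
        have e7 : algebraMap K L ((algebraMap (𝓞 K) K) c') =
            algebraMap (𝓞 L) L (algebraMap (𝓞 K) (𝓞 L) c') := by
          rw [← IsScalarTower.algebraMap_apply (𝓞 K) K L, ← IsScalarTower.algebraMap_apply (𝓞 K) (𝓞 L) L]
        refine ⟨algebraMap K L ((algebraMap (𝓞 K) K) c'), σ.commutes _, ?_, ?_⟩
        · rw [e7]
          exact w.valuation_le_one _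
        · have h8 : algebraMap (𝓞 K) (𝓞 L) (c' ^ 3 + c' ^ 2 + 1) ∈ w.asIdeal := hc'
          rw [e7]
          have e9 : (algebraMap (𝓞 L) L (algebraMap (𝓞 K) (𝓞 L) c')) ^ 3 +
              (algebraMap (𝓞 L) L (algebraMap (𝓞 K) (𝓞 L) c')) ^ 2 + 1 =
              algebraMap (𝓞 L) L (algebraMap (𝓞 K) (𝓞 L) (c' ^ 3 + c' ^ 2 + 1)) := by
            simp only [map_add, map_pow, map_one]
          rw [e9]
          exact (w.valuation_lt_one_iff_mem _).mpr h8
  have h4 : IsSquare (∏ σ : L ≃ₐ[K] L, (d * σ d)) :=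
    Finset.isSquare_prod _ fun σ _ => prodsq σ
  rw [Finset.prod_mul_distrib, Finset.prod_const, ← Algebra.norm_eq_prod_automorphisms,
    Finset.card_univ, ← Nat.card_eq_fintype_card, hcardG] at h4
  obtain ⟨q, hq⟩ := N
  obtain ⟨r, hr⟩ := h4
  obtain ⟨k, hk⟩ := hodd
  have hq0 : algebraMap K L q ≠ 0 := by
    intro h0
    have : algebraMap K L (Algebra.norm K d) = 0 := by rw [hq, map_mul, h0, mul_zero]
    rw [map_eq_zero, Algebra.norm_eq_zero_iff] at this
    exact hd this
  rw [hq, map_mul, hk] at hr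
  refine ⟨r / (algebraMap K L q * d ^ k), ?_⟩
  have hk0 : d ^ k ≠ 0 := pow_ne_zero k hd
  field_simp
  rw [pow_two r, ← hr]
  ring

end H73IS
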