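import Pool.Agent.H73.IS.Bas
import Pool.Agent.H10.StarLoc

/-!
Row Ta (about 230 lines): the local lemma at two, first case: A = 2 mod 4, B = 1 mod 4.

Use the V-lemmas, kap_int, V_sqratio of H10/StarLoc.lean (core_A there is a model of the same kind of computation).
Write A = 2 A1 (A1 odd), B = A1^2 + 4 C. Reduction (kap_of_pt): M, e with d N^2 = d^2 M^4 + A d M^2 e^2 + B e^4. e = 0: d (M^2/N)^2 = 1: kap_int with k = 1. M = 0: d (N/e^2)^2 = B: kap_int with k = B (odd). Otherwise X := d (M/e)^2, n := N/e^2, u := M/e ≠ 0: X = d u^2, d n^2 = X^2 + A X + B.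
 (1) V X > 1: t = n/X: d t^2 - 1 = A/X + B/X^2, V ≤ exp (-2) (V A = exp (-1), V (1/X) ≤ exp (-1)); n ≠ 0 as otherwise V 1 ≤ exp (-2).
 (2) V X < 1: d n^2 - B = X^2 + A X, V ≤ exp (-2): kap_int with t = n, k = B (n ≠ 0 as V B = 1).
 (3) V X = 1, V (X + A1) = 1: X^2 + A X + B = (X + A1)^2 + 4 C, t = n/(X + A1): d t^2 - 1 = 4 C/(X + A1)^2, V ≤ exp (-2).
 (4) V X = 1, V (X + A1) < 1: X = -A1 + 2 z with V z ≤ 1 (z := (X + A1)/2). d u^2 = -A1 + 2 z = 1 + 2 (n1 + z), n1 = -(A1+1)/2 ∈ Z. And d (n/2)^2 = z^2 + C. Let c ∈ {0,1}, C = c + 2 C'. z^2 + C = (z + c)^2 + 2 (C' - c z).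
   (4a) V (z + c) < 1: d u^2 - (1 + 2 (n1 - c)) = 2 (z + c), V ≤ exp (-2): kap_int with k = 1 + 2 (n1 - c).
   (4b) V (z + c) = 1: d (n/(2 (z + c)))^2 = 1 + 2 κ, κ = (C' - c z)/(z + c)^2, and d u^2 = 1 + 2 (n1 + z); V_sqratio (quotient of the two = square of u · 2 (z + c)/n; n ≠ 0 because V (1 + 2 κ) = 1) gives V (n1 + z - κ) < 1, so V ((n1 + z)(z + c)^2 + c z - C') < 1. Reduce n1, C' modulo 2 to ν, γ ∈ {0,1}
   (differences are 2 * integral): V ((ν + z)(z + c)^2 + c z + γ) < 1 (signs are irrelevant modulo 2). The eight cases (c, ν, γ), the conclusion is KapForm with t = u and y, (n, m) as listed (d u^2 = 1 + 2 (n1 + z); n1 = ν + 2 ν', use n = ν etc. up to V (..) ≤ exp (-2)):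
   c = 0: γ = 0, ν = 0: z^3: V z < 1, contradiction with V (z + c) = 1. γ = 0, ν = 1: (1 + z) z^2: V (z + 1) < 1: kap_int (z = 1 mod 2). γ = 1, ν = 0: z^3 + 1 = (z + 1)(z^2 + z + 1) mod 2: either V (z + 1) < 1 (kap_int) or V (z^2 + z + 1) < 1: y = z, n = 1, m = 0.
     γ = 1, ν = 1: V (z^3 + z^2 + 1) < 1: 1 + z = z^2 + z^4 mod 2: y = z^2 (y^3 + y^2 + 1 = (z^3 + z^2 + 1)^2 mod 2), n = m = 1.
   c = 1: ν = 1, γ = 1: (1 + z)^3 + (z + 1) = (z + 1) (z^2 + 2 z + 2), i.e. z^2 mod 2: V z < 1: kap_int. ν = 1, γ = 0: (1 + z)^3 + z = z^3 + z^2 + 1 mod 2 (3 z^2 + 4 z): as above y = z^2, n = m = 1 (value 1 + z). ν = 0, γ = 1: z (z + 1)^2 + z + 1 = (z + 1)(z^2 + z + 1): y = z, n = 1, m = 0 (V (z + 1) = 1).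
     ν = 0, γ = 0: z (z + 1)^2 + z = z^3 + 2 z^2 + 2 z: V z < 1: kap_int.
-/

set_option autoImplicit false
open scoped Classical

open WithZero Pool.Agent.H10

namespace H73IS


theorem Ta_out {F : Type*} [Field F] {V : Valuation F (WithZero (Multiplicative ℤ))}
    (h2 : V 2 = exp (-1 : ℤ)) {d u z y : F} {n1 n m : ℤ} (hu : u ≠ 0)
    (hd : d * u ^ 2 = 1 + 2 * (n1 + z)) (hy : V y ≤ 1)
    (h : V ((n1 : F) + z - (n * y + m * y ^ 2)) < 1)
    (hy' : V (y - 1) < 1 ∨ V (y ^ 2 + y + 1) < 1 ∨ V (y ^ 3 + y ^ 2 + 1) < 1) :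
    KapForm V d := by
  refine ⟨u, y, n, m, hu, hy, ?_, hy'⟩
  have e : d * u ^ 2 - (1 + 2 * ((n : F) * y + (m : F) * y ^ 2)) =
      2 * ((n1 : F) + z - (n * y + m * y ^ 2)) := by
    rw [hd]; ring
  rw [e]
  exact V_two_mul h2 h

theorem Ta_int {F : Type*} [Field F] {V : Valuation F (WithZero (Multiplicative ℤ))}
    (h2 : V 2 = exp (-1 : ℤ)) {d u z : F} {n1 : ℤ} (hu : u ≠ 0)
    (hd : d * u ^ 2 = 1 + 2 * (n1 + z)) (c : ℤ) (h : V (z + c) < 1) : KapForm V d := by
  refine kap_int hu (k := 1 + 2 * (n1 - c)) (by omega) ?_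
  have e : d * u ^ 2 - ((1 + 2 * (n1 - c) : ℤ) : F) = 2 * (z + c) := by
    rw [hd]; push_cast; ring
  rw [e]
  exact V_two_mul h2 h

/-- an even integral combination -/
theorem Ta_shift {F : Type*} [Field F] {V : Valuation F (WithZero (Multiplicative ℤ))}
    (h2 : V 2 = exp (-1 : ℤ)) {x y w : F} (hx : V x < 1) (hw : V w ≤ 1) (e : y = x + 2 * w) :
    V y < 1 := by
  rw [e]
  exact V_add_lt hx (V_two_mul_lt h2 hw)

theorem Ta_prod {F : Type*} [Field F] {V : Valuation F (WithZero (Multiplicative ℤ))}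
    {x y : F} (hx : V x = 1) (h : V (x * y) < 1) : V y < 1 := by
  rwa [map_mul, hx, one_mul] at h

theorem Ta_or {F : Type*} [Field F] {V : Valuation F (WithZero (Multiplicative ℤ))}
    {x y : F} (h : V (x * y) < 1) : V x < 1 ∨ V y < 1 := by
  by_contra hcon
  push Not at hcon
  rw [map_mul] at h
  exact absurd (one_le_mul hcon.1 hcon.2) (not_le.mpr h)

theorem Ta_pow {F : Type*} [Field F] {V : Valuation F (WithZero (Multiplicative ℤ))}
    {z : F} (hz : V z ≤ 1) (k : ℕ) : V (z ^ k) ≤ 1 := by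
  rw [map_pow]
  exact pow_le_one' hz k

theorem Ta_core {F : Type*} [Field F] {V : Valuation F (WithZero (Multiplicative ℤ))}
    (h2 : V 2 = exp (-1 : ℤ)) {d u z n : F} {n1 c C' : ℤ} (hu : u ≠ 0) (hz : V z ≤ 1)
    (hd : d * u ^ 2 = 1 + 2 * (n1 + z)) (hc : c = 0 ∨ c = 1)
    (hn : d * n ^ 2 = (z + c) ^ 2 + 2 * (C' - c * z)) : KapForm V d := by
  have V1 : V (1 : F) ≤ 1 := by rw [map_one]
  have hzc : V (z + c) ≤ 1 := V_add_le hz (V_int c)
  rcases lt_or_eq_of_le hzc with hlt | heq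
  · exact Ta_int h2 hu hd c hlt
  have hzc0 : z + (c : F) ≠ 0 := by
    intro h
    rw [h, map_zero] at heq
    exact zero_ne_one heq
  have hC : V ((C' : F) - c * z) ≤ 1 := V_sub_le (V_int C') (V_mul_le (V_int c) hz)
  set κ : F := ((C' : F) - c * z) / (z + c) ^ 2 with hκ
  have hκ1 : V κ ≤ 1 := by
    rw [hκ, map_div₀, map_pow, heq, one_pow, div_one]
    exact hC
  have e1 : d * (n / (z + c)) ^ 2 = 1 + 2 * κ := by
    rw [hκ]
    field_simp
    linear_combination hn
  have hn0 : n ≠ 0 := by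
    intro h
    rw [h] at e1
    have h3 : V (1 + 2 * κ) = 1 := Valuation.map_one_add_of_lt V (V_two_mul_lt h2 hκ1)
    rw [← e1] at h3
    simp at h3
  have e2 : 1 + 2 * ((n1 : F) + z) = (1 + 2 * κ) * (u * (z + c) / n) ^ 2 := by
    rw [← hd, ← e1]
    field_simp
  have h3 := V_sqratio h2 (V_add_le (V_int n1) hz) hκ1 e2
  have h4 : V (((n1 : F) + z) * (z + c) ^ 2 + (c * z - C')) < 1 := by
    have e3 : ((n1 : F) + z) * (z + c) ^ 2 + (c * z - C') = (z + c) ^ 2 * ((n1 : F) + z - κ) := by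
      rw [hκ]
      field_simp
      ring
    rw [e3, map_mul, map_pow, heq, one_pow, one_mul]
    exact h3
  have p2 := Ta_pow hz 2
  have p3 := Ta_pow hz 3
  have p5 := Ta_pow hz 5
  obtain ⟨ν', ν, hν', hν⟩ : ∃ k v : ℤ, n1 = v + 2 * k ∧ (v = 0 ∨ v = 1) :=
    ⟨n1 / 2, n1 % 2, by omega, by omega⟩
  obtain ⟨γ', γ, hγ', hγ⟩ : ∃ k v : ℤ, C' = v + 2 * k ∧ (v = 0 ∨ v = 1) :=
    ⟨C' / 2, C' % 2, by omega, by omega⟩
  have h5 : V (((ν : F) + z) * (z + c) ^ 2 + (c * z - γ)) < 1 := by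
    refine Ta_shift h2 h4 (w := γ' - ν' * (z + c) ^ 2)
      (V_sub_le (V_int _) (V_mul_le (V_int _) (Ta_pow hzc 2))) ?_
    rw [hν', hγ']; push_cast; ring
  have hν2 : (n1 : F) = ν + 2 * ν' := by rw [hν']; push_cast; ring
  -- the two conclusions
  have concl1 : ν = 0 → V (z ^ 2 + z + 1) < 1 → KapForm V d := by
    intro h0 h
    refine Ta_out h2 hu hd (y := z) (n := 1) (m := 0) hz ?_ (Or.inr (Or.inl h))
    refine Ta_shift h2 (x := 0) (by rw [map_zero]; exact one_pos) (w := (ν' : F)) (V_int _) ?_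
    rw [hν2, h0]; push_cast; ring
  have concl2 : ν = 1 → V (z ^ 3 + z ^ 2 + 1) < 1 → KapForm V d := by
    intro h0 h
    refine Ta_out h2 hu hd (y := z ^ 2) (n := 1) (m := 1) p2 ?_ (Or.inr (Or.inr ?_))
    · refine Ta_shift h2 (x := -((z ^ 3 + z ^ 2 + 1) * (z + 1)))
        (w := ν' + z ^ 3 + (1 + z)) ?_ (V_add_le (V_add_le (V_int _) p3) (V_add_le V1 hz)) ?_
      · rw [Valuation.map_neg, mul_comm]
        exact V_mul_lt (V_add_le hz V1) h
      · rw [hν2, h0]; push_cast; ring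
    · refine Ta_shift h2 (x := (z ^ 3 + z ^ 2 + 1) ^ 2) (w := -(z ^ 5 + z ^ 3 + z ^ 2)) ?_ ?_ ?_
      · rw [pow_two]
        exact V_mul_lt h.le h
      · rw [Valuation.map_neg]
        exact V_add_le (V_add_le p5 p3) p2
      · ring
  rcases hc with rfl | rfl
  · have hz1 : V z = 1 := by
      have := heq
      rwa [Int.cast_zero, add_zero] at this
    rcases hγ with rfl | rfl <;> rcases hν with rfl | rfl
    · exfalso
      have : V (z * (z * z)) < 1 := by
        refine Ta_shift h2 h5 (w := 0) (by rw [map_zero]; exact zero_le) ?_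
        push_cast; ring
      have h6 := Ta_prod hz1 (Ta_prod hz1 this)
      rw [hz1] at h6
      exact lt_irrefl _ h6
    · have : V (z * (z * (z + ((1 : ℤ) : F)))) < 1 := by
        refine Ta_shift h2 h5 (w := 0) (by rw [map_zero]; exact zero_le) ?_
        push_cast; ring
      exact Ta_int h2 hu hd 1 (Ta_prod hz1 (Ta_prod hz1 this))
    · have : V ((z + ((1 : ℤ) : F)) * (z ^ 2 - z + 1)) < 1 := by
        refine Ta_shift h2 h5 (w := 1) V1 ?_
        push_cast; ring
      rcases Ta_or this with h6 | h6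
      · exact Ta_int h2 hu hd 1 h6
      · refine concl1 rfl ?_
        exact Ta_shift h2 h6 (w := z) hz (by ring)
    · refine concl2 rfl ?_
      refine Ta_shift h2 h5 (w := 1) V1 ?_
      push_cast; ring
  · rcases hγ with rfl | rfl <;> rcases hν with rfl | rfl
    · have : V (z ^ 3) < 1 := by
        refine Ta_shift h2 h5 (w := -(z ^ 2 + z)) ?_ ?_
        · rw [Valuation.map_neg]; exact V_add_le p2 hz
        · push_cast; ring
      have h6 : V z < 1 := by
        by_contra h1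
        rw [not_lt] at h1
        rw [map_pow] at this
        exact absurd (one_le_pow₀ h1) (not_le.mpr this)
      exact Ta_int h2 hu hd 0 (by rw [Int.cast_zero, add_zero]; exact h6)
    · refine concl2 rfl ?_
      refine Ta_shift h2 h5 (w := -(z ^ 2 + (z + z))) ?_ ?_
      · rw [Valuation.map_neg]; exact V_add_le p2 (V_add_le hz hz)
      · push_cast; ring
    · have : V ((z + ((1 : ℤ) : F)) * (z ^ 2 - z + 1)) < 1 := by
        refine Ta_shift h2 h5 (w := 1 - (z ^ 2 + z)) (V_sub_le V1 (V_add_le p2 hz)) ?_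
        push_cast; ring
      refine concl1 rfl ?_
      exact Ta_shift h2 (Ta_prod heq this) (w := z) hz (by ring)
    · have : V ((z + ((1 : ℤ) : F)) * (z * z)) < 1 := by
        refine Ta_shift h2 h5 (w := -(z ^ 2 + (z + z))) ?_ ?_
        · rw [Valuation.map_neg]; exact V_add_le p2 (V_add_le hz hz)
        · push_cast; ring
      have h6 := Ta_prod heq this
      have h7 : V z < 1 := by
        rcases Ta_or h6 with h | h <;> exact h
      exact Ta_int h2 hu hd 0 (by rw [Int.cast_zero, add_zero]; exact h7)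

/-- the affine equation -/
theorem Ta_aff {F : Type*} [Field F] {V : Valuation F (WithZero (Multiplicative ℤ))}
    (h2 : V 2 = exp (-1 : ℤ)) {A1 C : ℤ} (hA : A1 % 2 = 1)
    {d u n : F} (hd : d ≠ 0) (hu : u ≠ 0)
    (H : d * n ^ 2 = (d * u ^ 2) ^ 2 + (2 * A1) * (d * u ^ 2) + (A1 ^ 2 + 4 * C)) :
    KapForm V d := by
  have h20 : (2 : F) ≠ 0 := by
    intro h
    rw [h, map_zero] at h2
    exact exp_ne_zero h2.symm
  have V1 : V (1 : F) ≤ 1 := by rw [map_one]
  have hnot : ¬ (1 : WithZero (Multiplicative ℤ)) ≤ exp (-2) :=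
    not_le.mpr (exp_neg_two_lt.trans exp_neg_lt_one)
  have hV4C : V (4 * (C : F)) ≤ exp (-2 : ℤ) := by
    rw [map_mul, V_four h2]
    exact mul_le_of_le_one_right' (V_int C)
  have hVA : V (2 * (A1 : F)) = exp (-1 : ℤ) := by
    rw [map_mul, h2, V_odd h2 hA, mul_one]
  have hVB : V (((A1 ^ 2 + 4 * C : ℤ)) : F) = 1 := by
    apply V_odd h2
    have h3 : A1 * A1 % 2 = 1 := by
      rw [Int.mul_emod, hA]; norm_num
    have h4 : A1 ^ 2 = A1 * A1 := by ring
    omega
  have hBF : (((A1 ^ 2 + 4 * C : ℤ)) : F) = (A1 : F) ^ 2 + 4 * C := by push_cast; ring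
  set X : F := d * u ^ 2 with hX
  have hX0 : X ≠ 0 := mul_ne_zero hd (pow_ne_zero _ hu)
  rcases lt_trichotomy (V X) 1 with hlt | heq | hgt
  · -- small
    have h3 : V (X ^ 2 + 2 * A1 * X) ≤ exp (-2 : ℤ) := by
      refine V_add_le (V_sq_le hlt) ?_
      rw [map_mul, hVA, exp_neg_two]
      exact mul_le_mul_right (le_exp_neg_one hlt) _
    have e1 : d * n ^ 2 - ((A1 ^ 2 + 4 * C : ℤ) : F) = X ^ 2 + 2 * A1 * X := by
      rw [H, hBF]; ring
    have hn : n ≠ 0 := by
      intro h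
      rw [h] at e1
      have e3 : -((A1 ^ 2 + 4 * C : ℤ) : F) = X ^ 2 + 2 * A1 * X := by
        rw [← e1]; ring
      rw [← e3, Valuation.map_neg, hVB] at h3
      exact hnot h3
    refine kap_int hn (k := A1 ^ 2 + 4 * C) ?_ (by rw [e1]; exact h3)
    have h3 : A1 * A1 % 2 = 1 := by
      rw [Int.mul_emod, hA]; norm_num
    have h4 : A1 ^ 2 = A1 * A1 := by ring
    omega
  · -- unit
    have hXA : V (X + A1) ≤ 1 := V_add_le heq.le (V_int A1)
    rcases lt_or_eq_of_le hXA with hxa | hxa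
    · -- case four
      obtain ⟨n1, hn1⟩ : ∃ n1 : ℤ, A1 = -1 - 2 * n1 := ⟨(-1 - A1) / 2, by omega⟩
      set z : F := (X + A1) / 2 with hz
      have hz1 : V z ≤ 1 := by
        rw [hz, map_div₀, h2, div_le_iff₀ exp_pos, one_mul]
        exact le_exp_neg_one hxa
      have hXz : X = 2 * z - A1 := by
        rw [hz]; field_simp; ring
      have hA1F : (A1 : F) = -1 - 2 * n1 := by rw [hn1]; push_cast; ring
      have e1 : d * u ^ 2 = 1 + 2 * (n1 + z) := by
        rw [← hX, hXz, hA1F]; ring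
      obtain ⟨C', c, hC', hc⟩ : ∃ k v : ℤ, C = v + 2 * k ∧ (v = 0 ∨ v = 1) :=
        ⟨C / 2, C % 2, by omega, by omega⟩
      have hCF : (C : F) = c + 2 * C' := by rw [hC']; push_cast; ring
      have hcc : (c : F) ^ 2 = c := by
        rcases hc with rfl | rfl <;> norm_num
      refine Ta_core h2 (n := n / 2) (c := c) (C' := C') hu hz1 e1 hc ?_
      have e2 : d * (n / 2) ^ 2 = (d * n ^ 2) / 4 := by
        rw [div_pow, ← mul_div_assoc]; norm_num
      have h40 : (4 : F) ≠ 0 := by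
        have : (4 : F) = 2 * 2 := by norm_num
        rw [this]; exact mul_ne_zero h20 h20
      rw [e2, H, hXz, hCF, div_eq_iff h40]
      linear_combination (-4 : F) * hcc
    · have hxa0 : X + (A1 : F) ≠ 0 := by
        intro h
        rw [h, map_zero] at hxa
        exact zero_ne_one hxa
      have e1 : d * n ^ 2 = (X + A1) ^ 2 + 4 * C := by rw [H]; ring
      have hn : n ≠ 0 := by
        intro h
        rw [h] at e1
        have h3 : V ((X + (A1 : F)) ^ 2) ≤ exp (-2 : ℤ) := by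
          have e3 : (X + (A1 : F)) ^ 2 = -(4 * (C : F)) := by linear_combination -e1
          rw [e3, Valuation.map_neg]
          exact hV4C
        rw [map_pow, hxa, one_pow] at h3
        exact hnot h3
      refine kap_int (t := n / (X + A1)) (div_ne_zero hn hxa0) (k := 1) (by norm_num) ?_
      have e2 : d * (n / (X + A1)) ^ 2 - ((1 : ℤ) : F) = 4 * (C : F) / (X + A1) ^ 2 := by
        field_simp
        push_cast
        linear_combination e1
      rw [e2, map_div₀, map_pow, hxa, one_pow, div_one]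
      exact hV4C
  · -- big
    have hinv : V (1 / X) ≤ exp (-1 : ℤ) := by
      have h3 := exp_one_le hgt
      rw [map_div₀, map_one, div_le_iff₀ (lt_of_lt_of_le exp_pos h3)]
      calc (1 : WithZero (Multiplicative ℤ)) = exp (-1) * exp 1 := by rw [← exp_add]; norm_num
        _ ≤ exp (-1) * V X := mul_le_mul_right h3 _
    have h3 : V (2 * A1 * (1 / X) + ((A1 ^ 2 + 4 * C : ℤ) : F) * ((1 / X) * (1 / X))) ≤
        exp (-2 : ℤ) := by
      apply V_add_le
      · rw [map_mul, hVA, exp_neg_two]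
        exact mul_le_mul_right hinv _
      · rw [map_mul, map_mul, hVB, one_mul, exp_neg_two]
        exact mul_le_mul' hinv hinv
    have e1 : d * (n / X) ^ 2 - ((1 : ℤ) : F) =
        2 * A1 * (1 / X) + ((A1 ^ 2 + 4 * C : ℤ) : F) * ((1 / X) * (1 / X)) := by
      rw [hBF]
      field_simp
      push_cast
      linear_combination H
    have hn : n ≠ 0 := by
      intro h
      rw [h] at e1
      have e3 : -(1 : F) = 2 * A1 * (1 / X) +
          ((A1 ^ 2 + 4 * C : ℤ) : F) * ((1 / X) * (1 / X)) := by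
        rw [← e1]; push_cast; ring
      rw [← e3, Valuation.map_neg, map_one] at h3
      exact hnot h3
    refine kap_int (t := n / X) (div_ne_zero hn hX0) (k := 1) (by norm_num) ?_
    rw [e1]
    exact h3

theorem kap_a {F : Type*} [Field F] {V : Valuation F (WithZero (Multiplicative ℤ))}
    (h2 : V 2 = exp (-1 : ℤ)) {A B : ℤ} (hA : A % 4 = 2) (hB : (B - (A / 2) ^ 2) % 4 = 0)
    {d : F} (hd : d ≠ 0) (H : QPt (A : F) (B : F) d) : KapForm V d := by
  obtain ⟨A1, hA1⟩ : ∃ A1 : ℤ, A = 2 * A1 := ⟨A / 2, by omega⟩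
  have hA1' : A1 % 2 = 1 := by omega
  obtain ⟨C, hC⟩ : ∃ C : ℤ, B = A1 ^ 2 + 4 * C := by
    have h3 : A / 2 = A1 := by omega
    rw [h3] at hB
    exact ⟨(B - A1 ^ 2) / 4, by omega⟩
  have hBo : B % 2 = 1 := by
    have h3 : A1 * A1 % 2 = 1 := by
      rw [Int.mul_emod, hA1']; norm_num
    have h4 : A1 ^ 2 = A1 * A1 := by ring
    omega
  obtain ⟨M, e, N, hMe, hE⟩ := H
  by_cases he : e = 0
  · subst he
    have hM : M ≠ 0 := by
      rcases hMe with h | h
      · exact h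
      · exact absurd rfl h
    have e1 : N ^ 2 = d * M ^ 4 := by
      apply mul_left_cancel₀ hd
      linear_combination hE
    have hN : N ≠ 0 := by
      intro h
      rw [h] at e1
      have : d * M ^ 4 = 0 := by rw [← e1]; ring
      exact (mul_ne_zero hd (pow_ne_zero _ hM)) this
    refine kap_int (t := M ^ 2 / N) (div_ne_zero (pow_ne_zero _ hM) hN) (k := 1) (by norm_num) ?_
    have e2 : d * (M ^ 2 / N) ^ 2 - ((1 : ℤ) : F) = 0 := by
      field_simp
      push_cast
      linear_combination -e1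
    rw [e2, map_zero]
    exact zero_le
  by_cases hM : M = 0
  · subst hM
    have e1 : d * (N / e ^ 2) ^ 2 = B := by
      field_simp
      linear_combination hE
    have hN : N ≠ 0 := by
      intro h
      rw [h] at e1
      have h3 := V_odd h2 hBo
      rw [← e1] at h3
      simp at h3
    refine kap_int (t := N / e ^ 2) (div_ne_zero hN (pow_ne_zero _ he)) (k := B) hBo ?_
    rw [e1, sub_self, map_zero]
    exact zero_le
  refine Ta_aff h2 (A1 := A1) (C := C) hA1' (u := M / e) (n := N / e ^ 2) hd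
    (div_ne_zero hM he) ?_
  have hAF : (A : F) = 2 * A1 := by rw [hA1]; push_cast; ring
  have hBF : (B : F) = A1 ^ 2 + 4 * C := by rw [hC]; push_cast; ring
  rw [hAF, hBF] at hE
  field_simp
  linear_combination hE

end H73IS
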