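import Pool.Agent.H73.IS.Bas
import Pool.Agent.H10.StarLoc

/-!
Row Tb (about 120 lines): the local lemma at two, second case: 4 | A, 4 | B, 16 does not divide B.

Use the V-lemmas, kap_int of H10/StarLoc.lean. As in row Ta: M, e with d N^2 = d^2 M^4 + A d M^2 e^2 + B e^4. e = 0: d (M^2/N)^2 = 1: kap_int with k = 1 (N ≠ 0). M = 0: d (N/e^2)^2 = B = 4^j B', B' odd (log V d is even and log V B = - v_2(B), so v_2(B) is even; here v_2(B) ∈ {2, 3}, so B = 4 B', B' odd): d (N/(2 e^2))^2 = B':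
 kap_int with k = B'. Otherwise X := d (M/e)^2, n := N/e^2: log V X is even (log_mul_sq), d n^2 = X^2 + A X + B.
 (1) V X ≥ 1: t = n/X: d t^2 - 1 = A/X + B/X^2, V ≤ exp (-2).
 (2) V X < 1: log V X ≤ -2 by parity, X = 4 X', V X' ≤ 1; B = 4 B1, A = 4 A', B1 not divisible by 4: d (n/2)^2 = 4 X'^2 + 4 A' X' + B1. B1 odd: kap_int with t = n/2, k = B1. B1 = 2 B2, B2 odd: V (4 X'^2 + 4 A' X' + B1) = exp (-1), but log V (d (n/2)^2) is even (n ≠ 0): contradiction.
-/

set_option autoImplicit false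
open scoped Classical

open WithZero Pool.Agent.H10

namespace H73IS

section Tb

variable {F : Type*} [Field F] {V : Valuation F (WithZero (Multiplicative ℤ))}

theorem Tb_even {d u : F} (hd : d ≠ 0) (hev : Even (log (V d))) (hu : u ≠ 0) :
    Even (log (V (d * u ^ 2))) := by
  rw [log_mul_sq V hd hu]
  rw [Int.even_iff] at hev ⊢
  omega

theorem Tb_odd {d u : F} (hd : d ≠ 0) (hev : Even (log (V d)))
    (h : V (d * u ^ 2) = exp (-1 : ℤ)) : False := by
  have hu0 : u ≠ 0 := by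
    rintro rfl
    rw [zero_pow two_ne_zero, mul_zero, map_zero] at h
    exact exp_ne_zero h.symm
  have h3 := Tb_even hd hev hu0
  rw [h, log_exp, Int.even_iff] at h3
  omega

theorem Tb_two (h2 : V 2 = exp (-1 : ℤ)) : (2 : F) ≠ 0 := by
  intro h
  rw [h, map_zero] at h2
  exact exp_ne_zero h2.symm

theorem Tb_four (h2 : V 2 = exp (-1 : ℤ)) : (4 : F) ≠ 0 := by
  intro h
  have h4 := V_four h2
  rw [h, map_zero] at h4
  exact exp_ne_zero h4.symm

theorem Tb_small (h2 : V 2 = exp (-1 : ℤ)) {A B : ℤ} (hA : A % 4 = 0) (hB : B % 4 = 0)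
    (hB' : B % 16 ≠ 0) {d : F} (hd : d ≠ 0) (hev : Even (log (V d))) {X n : F}
    (hX : V X ≤ exp (-2 : ℤ)) (h : d * n ^ 2 = X ^ 2 + (A : F) * X + (B : F)) : KapForm V d := by
  have h20 := Tb_two h2
  have h40 := Tb_four h2
  obtain ⟨A', hA'⟩ : ∃ A' : ℤ, A = 4 * A' := ⟨A / 4, by omega⟩
  obtain ⟨B1, hB1⟩ : ∃ B1 : ℤ, B = 4 * B1 := ⟨B / 4, by omega⟩
  obtain ⟨X', hX'⟩ : ∃ X' : F, X = 4 * X' := ⟨X / 4, by field_simp⟩
  have hX1 : V X' ≤ 1 := by
    rw [hX', map_mul, V_four h2] at hX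
    by_contra hcon
    rw [not_le] at hcon
    have h3 : exp (-2 : ℤ) * 1 < exp (-2 : ℤ) * V X' :=
      mul_lt_mul_of_pos_left hcon (exp_pos)
    rw [mul_one] at h3
    exact absurd h3 (not_lt.2 hX)
  have e1 : d * (n / 2) ^ 2 = 4 * (X' ^ 2 + (A' : F) * X') + (B1 : F) := by
    have h4 : d * n ^ 2 = 4 * (4 * (X' ^ 2 + (A' : F) * X') + (B1 : F)) := by
      rw [h, hX', hA', hB1]
      push_cast
      ring
    have h5 : d * (n / 2) ^ 2 = d * n ^ 2 / 4 := by
      field_simp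
      norm_num
    rw [h5, h4]
    field_simp
  have e2 : V (4 * (X' ^ 2 + (A' : F) * X')) ≤ exp (-2 : ℤ) := by
    rw [map_mul, V_four h2]
    apply mul_le_of_le_one_right'
    refine V_add_le ?_ (V_mul_le (V_int _) hX1)
    rw [map_pow]
    exact pow_le_one' hX1 2
  rcases Int.emod_two_eq_zero_or_one B1 with ho | ho
  · exfalso
    have h6 : V (B1 : F) = exp (-1 : ℤ) := V_two_mod_four h2 (by omega)
    refine Tb_odd hd hev (u := n / 2) ?_
    rw [e1, Valuation.map_add_eq_of_lt_right V ?_, h6]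
    rw [h6]
    exact e2.trans_lt exp_neg_two_lt
  · refine kap_int (t := n / 2) ?_ ho ?_
    · intro h0
      rw [h0, zero_pow two_ne_zero, mul_zero] at e1
      have h6 : (B1 : F) = -(4 * (X' ^ 2 + (A' : F) * X')) := by linear_combination -e1
      have h7 : V (B1 : F) ≤ exp (-2 : ℤ) := by
        rw [h6, Valuation.map_neg]
        exact e2
      rw [V_odd h2 ho] at h7
      exact absurd (exp_neg_two_lt.trans exp_neg_lt_one) (not_lt.2 h7)
    · have e3 : d * (n / 2) ^ 2 - (B1 : F) = 4 * (X' ^ 2 + (A' : F) * X') := by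
        rw [e1]
        ring
      rw [e3]
      exact e2

theorem Tb_big (h2 : V 2 = exp (-1 : ℤ)) {A B : ℤ} (hA : A % 4 = 0) (hB : B % 4 = 0)
    {d : F} {X n : F} (hX : 1 ≤ V X) (h : d * n ^ 2 = X ^ 2 + (A : F) * X + (B : F)) :
    KapForm V d := by
  have hX0 : X ≠ 0 := by
    rintro rfl
    rw [map_zero] at hX
    exact absurd hX (not_le.2 one_pos)
  have hVX : V X ≠ 0 := (Valuation.ne_zero_iff V).2 hX0
  have hi : V X⁻¹ ≤ 1 := by
    rw [map_inv₀]
    exact inv_le_one_of_one_le₀ hX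
  have e1 : d * (n / X) ^ 2 - ((1 : ℤ) : F) = (A : F) * X⁻¹ + (B : F) * (X⁻¹ * X⁻¹) := by
    field_simp
    push_cast
    linear_combination h
  have e2 : V ((A : F) * X⁻¹ + (B : F) * (X⁻¹ * X⁻¹)) ≤ exp (-2 : ℤ) := by
    refine V_add_le ?_ ?_
    · rw [map_mul]
      exact (mul_le_of_le_one_right' hi).trans (V_four_dvd h2 hA)
    · rw [map_mul]
      exact (mul_le_of_le_one_right' (V_mul_le hi hi)).trans (V_four_dvd h2 hB)
  refine kap_int (t := n / X) ?_ (k := 1) (by norm_num) ?_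
  · intro h0
    rw [h0, zero_pow two_ne_zero, mul_zero, zero_sub] at e1
    rw [← e1, Valuation.map_neg, Int.cast_one, map_one] at e2
    exact absurd (exp_neg_two_lt.trans exp_neg_lt_one) (not_lt.2 e2)
  · rw [e1]
    exact e2

end Tb

theorem kap_b {F : Type*} [Field F] {V : Valuation F (WithZero (Multiplicative ℤ))}
    (h2 : V 2 = exp (-1 : ℤ)) {A B : ℤ} (hA : A % 4 = 0) (hB : B % 4 = 0) (hB' : B % 16 ≠ 0)
    {d : F} (hd : d ≠ 0) (hev : Even (log (V d))) (H : QPt (A : F) (B : F) d) :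
    KapForm V d := by
  obtain ⟨M, e, N, hMe, hE⟩ := H
  by_cases he : e = 0
  · have hM : M ≠ 0 := by
      rcases hMe with h | h
      · exact h
      · exact absurd he h
    rw [he] at hE
    have h1 : N ^ 2 = d * M ^ 4 := by
      have h3 : d * N ^ 2 = d * (d * M ^ 4) := by
        rw [hE]
        ring
      exact mul_left_cancel₀ hd h3
    have hN : N ≠ 0 := by
      rintro rfl
      rw [zero_pow two_ne_zero] at h1
      exact mul_ne_zero hd (pow_ne_zero 4 hM) h1.symm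
    refine kap_int (t := M ^ 2 / N) (div_ne_zero (pow_ne_zero 2 hM) hN) (k := 1) (by norm_num) ?_
    have e1 : d * (M ^ 2 / N) ^ 2 - ((1 : ℤ) : F) = 0 := by
      have h4 : d * (M ^ 2 / N) ^ 2 = d * M ^ 4 / N ^ 2 := by
        field_simp
      rw [h4, ← h1, div_self (pow_ne_zero 2 hN), Int.cast_one, sub_self]
    rw [e1, map_zero]
    exact zero_le
  · have h1 : d * (N / e ^ 2) ^ 2 = (d * (M / e) ^ 2) ^ 2 + (A : F) * (d * (M / e) ^ 2) + (B : F) := by
      field_simp
      linear_combination hE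
    rcases le_or_gt 1 (V (d * (M / e) ^ 2)) with h | h
    · exact Tb_big h2 hA hB h h1
    · refine Tb_small h2 hA hB hB' hd hev ?_ h1
      by_cases hM : M = 0
      · rw [hM, zero_div, zero_pow two_ne_zero, mul_zero, map_zero]
        exact zero_le
      · have h3 : Even (log (V (d * (M / e) ^ 2))) := Tb_even hd hev (div_ne_zero hM he)
        have h4 : V (d * (M / e) ^ 2) ≠ 0 :=
          (Valuation.ne_zero_iff V).2 (mul_ne_zero hd (pow_ne_zero 2 (div_ne_zero hM he)))
        rw [← exp_log h4, ← exp_zero, exp_lt_exp] at h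
        rw [← exp_log h4, exp_le_exp]
        rw [Int.even_iff] at h3
        omega

end H73IS
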