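import Pool.Agent.H73.IS.Rel
import Pool.Agent.H73.IS.Par
import Pool.Agent.H73.IS.Ta
import Pool.Agent.H73.IS.Tb
import Pool.Agent.H73.IS.Sqk

/-!
Row Nq (about 150 lines): no new soluble classes, in the two cases.

ev_all: valuations of d: at w with b ∈ w: UniqueOver for the prime below and even_of_norm_sq (H10/RelVal); otherwise V a ≤ 1 (V_int), V b = 1 (intCast_val, H10/Inert) and even_of_qpt for the completion (valued_algebraMap). See `ev` and `huniq`, `mem_iff` in newTrivial_star (H10/Star.lean).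
nq_pos: R1 with ev_all; for φ : L →+* ℝ: exists_completion (H10/RealPl) and QPt.map, pos_of_qpt.
nq_small: sq_of_kap: at w above 2: val_two_of_unram (H10/Star), KapForm.descend (H10/StarGal), QPt (a) (b) d with a = 4^i a0, b = 16^i b0 is QPt a0 b0 d by QPt.scale with r = 2^i; Small a0 b0: a0 % 4 = 2: kap_a. a0 % 4 = 0: then b0 % 4 = 0 and b0 % 16 ≠ 0 by Red: kap_b.
-/

set_option autoImplicit false
open scoped Classical

open WeierstrassCurve IsDedekindDomain NumberField WithZero Pool.Agent.H10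

namespace H73IS

variable {K L : Type} [Field K] [NumberField K] [Field L] [NumberField L] [Algebra K L]

theorem ev_all (hodd : Odd (Module.finrank K L)) {a b : ℤ}
    (hbad : ∀ v : HeightOneSpectrum (𝓞 K), ((b : ℤ) : 𝓞 K) ∈ v.asIdeal →
      UniqueOver K L v.asIdeal) {d : L} (hd : d ≠ 0) (Hf : FinQ L (a : L) (b : L) d)
    (N : IsSquare (Algebra.norm K d)) (w : HeightOneSpectrum (𝓞 L)) :
    Even (log (w.valuation L d)) := by
  by_cases hw : ((b : ℤ) : 𝓞 L) ∈ w.asIdeal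
  · let v : HeightOneSpectrum (𝓞 K) :=
      ⟨w.asIdeal.under (𝓞 K), inferInstance, Ideal.IsIntegral.comap_ne_bot _ w.ne_bot⟩
    have hv : ((b : ℤ) : 𝓞 K) ∈ v.asIdeal := by
      change algebraMap (𝓞 K) (𝓞 L) (b : 𝓞 K) ∈ w.asIdeal
      rw [map_intCast]
      exact hw
    have hvw : v.asIdeal.map (algebraMap (𝓞 K) (𝓞 L)) ≤ w.asIdeal := Ideal.map_comap_le
    exact even_of_norm_sq (v := v) hodd (hbad v hv) hvw hd N
  · have vB := intCast_val w hw
    rw [← valued_algebraMap]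
    have H := Hf w
    rw [map_intCast, map_intCast] at H
    refine even_of_qpt (F := w.adicCompletion L) Valued.v (V_int a) ?_ ?_ H
    · rw [← map_intCast (algebraMap L (w.adicCompletion L)), valued_algebraMap, vB]
    · rw [Ne, map_eq_zero]
      exact hd

theorem nq_pos (hodd : Odd (Module.finrank K L)) (R1 : NoNewPositive K L) {a b : ℤ}
    (h : RPos a b)
    (hbad : ∀ v : HeightOneSpectrum (𝓞 K), ((b : ℤ) : 𝓞 K) ∈ v.asIdeal →
      UniqueOver K L v.asIdeal) : NewTrivQ K L (a : L) (b : L) := by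
  intro d hd Hf Hi N
  apply R1 d hd (ev_all hodd hbad hd Hf N) N
  intro φ
  obtain ⟨v, ψ, hψ⟩ := exists_completion φ
  have h1 := (Hi v).map ψ
  rw [hψ, hψ, hψ, map_intCast, map_intCast] at h1
  refine pos_of_qpt h ?_ h1
  rw [Ne, map_eq_zero]
  exact hd

theorem nq_small [IsGalois K L] (hodd : Odd (Module.finrank K L)) (R2 : NoNewUnramified K L)
    {a b a₀ b₀ : ℤ} {i : ℕ} (ha : a = 4 ^ i * a₀) (hb : b = 16 ^ i * b₀) (hR : Red a₀ b₀)
    (hS : Small a₀ b₀)
    (hbad : ∀ v : HeightOneSpectrum (𝓞 K), ((2 * b : ℤ) : 𝓞 K) ∈ v.asIdeal →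
      UniqueOver K L v.asIdeal)
    (hunr : ∀ w : HeightOneSpectrum (𝓞 L), (2 : 𝓞 L) ∈ w.asIdeal →
      (2 : 𝓞 L) ∉ w.asIdeal ^ 2)
    (h3 : ¬ 3 ∣ Module.finrank K L ∨ ∀ v : HeightOneSpectrum (𝓞 K), (2 : 𝓞 K) ∈ v.asIdeal →
      ∃ c : 𝓞 K, c ^ 3 + c ^ 2 + 1 ∈ v.asIdeal) : NewTrivQ K L (a : L) (b : L) := by
  intro d hd Hf Hi N
  have hbb : ∀ v : HeightOneSpectrum (𝓞 K), ((b : ℤ) : 𝓞 K) ∈ v.asIdeal →
      UniqueOver K L v.asIdeal := by
    intro v hv
    refine hbad v ?_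
    push_cast
    exact Ideal.mul_mem_left _ _ hv
  have hb2 : ∀ v : HeightOneSpectrum (𝓞 K), (2 : 𝓞 K) ∈ v.asIdeal →
      UniqueOver K L v.asIdeal := by
    intro v hv
    refine hbad v ?_
    push_cast
    exact Ideal.mul_mem_right _ _ hv
  have hev := ev_all hodd hbb hd Hf N
  refine sq_of_kap hodd R2 hb2 hunr h3 hd hev N ?_
  intro w hw
  have hv2 := val_two_of_unram hw (hunr w hw)
  apply KapForm.descend w hv2
  have e2 : Valued.v (2 : w.adicCompletion L) = exp (-1 : ℤ) := by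
    rw [valued_ofNat w 2]; exact hv2
  have h20 : (2 : w.adicCompletion L) ≠ 0 := by
    intro h0
    rw [h0, map_zero] at e2
    exact exp_ne_zero e2.symm
  have hd' : algebraMap L (w.adicCompletion L) d ≠ 0 := by
    rw [Ne, map_eq_zero]
    exact hd
  have L1 := Hf w
  rw [map_intCast, map_intCast] at L1
  have L2 : QPt (a₀ : w.adicCompletion L) (b₀ : w.adicCompletion L)
      (algebraMap L (w.adicCompletion L) d) := by
    rw [← QPt.scale (r := (2 : w.adicCompletion L) ^ i) (pow_ne_zero i h20)]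
    have p4 : ((2 : w.adicCompletion L) ^ i) ^ 2 = 4 ^ i := by
      rw [← pow_mul, mul_comm, pow_mul]; norm_num
    have p16 : ((2 : w.adicCompletion L) ^ i) ^ 4 = 16 ^ i := by
      rw [← pow_mul, mul_comm, pow_mul]; norm_num
    have e5 : ((2 : w.adicCompletion L) ^ i) ^ 2 * (a₀ : w.adicCompletion L) =
        (a : w.adicCompletion L) := by
      rw [p4, ha]; push_cast; ring
    have e6 : ((2 : w.adicCompletion L) ^ i) ^ 4 * (b₀ : w.adicCompletion L) =
        (b : w.adicCompletion L) := by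
      rw [p16, hb]; push_cast; ring
    rw [e5, e6]
    exact L1
  have hev' : Even (log (Valued.v (algebraMap L (w.adicCompletion L) d))) := by
    rw [valued_algebraMap]
    exact hev w
  obtain ⟨hS1, hS2⟩ := hS
  have hmod : a₀ % 4 = 0 ∨ a₀ % 4 = 2 := by omega
  rcases hmod with hm | hm
  · obtain ⟨k, hk⟩ : ∃ k, a₀ / 2 = 2 * k := ⟨a₀ / 4, by omega⟩
    have hb4 : b₀ % 4 = 0 := by
      rw [hk] at hS2
      have h1 : b₀ - (2 * k) ^ 2 = b₀ - 4 * (k ^ 2) := by ring
      rw [h1] at hS2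
      omega
    have hb16 : b₀ % 16 ≠ 0 := fun h => hR ⟨hm, h⟩
    exact kap_b e2 hm hb4 hb16 hd' hev' L2
  · exact kap_a e2 hm hS2 hd' L2

end H73IS
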