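import Pool.Agent.H73.IS.Bas

/-!
Row Rel (about 60 lines): the real places.

PROOF. X := d M^2 ≤ 0, s := e^2 ≥ 0, if d < 0 (d ≠ 0): d N^2 ≤ 0 but X^2 + a X s + b s^2 > 0: if a^2 < 4 b the form is positive definite, 4 (X^2 + a X s + b s^2) = (2 X + a s)^2 + (4 b - a^2) s^2 > 0 for (X, s) ≠ 0; if 0 < b, a < 0: a X s ≥ 0, X^2 + b s^2 > 0. (X = 0 iff M = 0, s = 0 iff e = 0.)
-/

set_option autoImplicit false
open scoped Classical

open WeierstrassCurve IsDedekindDomain NumberField Pool.Agent.H10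

namespace H73IS

theorem pos_of_qpt {a b : ℤ} (h : RPos a b) {d : ℝ} (hd : d ≠ 0) (H : QPt (a : ℝ) (b : ℝ) d) :
    0 < d := by
  obtain ⟨M, e, N, hne, hE⟩ := H
  by_contra hcon
  have hd0 : d < 0 := lt_of_le_of_ne (not_lt.mp hcon) hd
  have hL : d * N ^ 2 ≤ 0 := mul_nonpos_of_nonpos_of_nonneg hd0.le (sq_nonneg N)
  have hpos : 0 < d ^ 2 * M ^ 4 + (a : ℝ) * d * M ^ 2 * e ^ 2 + (b : ℝ) * e ^ 4 := by
    by_cases he : e = 0
    · have hM : M ≠ 0 := by
        rcases hne with h1 | h1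
        · exact h1
        · exact absurd he h1
      have h2 : 0 < d ^ 2 * M ^ 4 := by positivity
      rw [he]
      linarith
    · have he4 : 0 < e ^ 4 := by positivity
      rcases h with h1 | ⟨h1, h2⟩
      · have h3 : (a : ℝ) ^ 2 < 4 * (b : ℝ) := by exact_mod_cast h1
        have h4 : 0 < (4 * (b : ℝ) - (a : ℝ) ^ 2) * e ^ 4 := mul_pos (by linarith) he4
        nlinarith [sq_nonneg (2 * d * M ^ 2 + (a : ℝ) * e ^ 2)]
      · have h3 : (0 : ℝ) < (b : ℝ) := by exact_mod_cast h1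
        have h4 : (a : ℝ) < 0 := by exact_mod_cast h2
        have h5 : 0 < (a : ℝ) * d := mul_pos_of_neg_of_neg h4 hd0
        have h6 : 0 ≤ (a : ℝ) * d * M ^ 2 * e ^ 2 := by positivity
        have h7 : 0 ≤ d ^ 2 * M ^ 4 := by positivity
        have h8 : 0 < (b : ℝ) * e ^ 4 := mul_pos h3 he4
        linarith
  linarith

end H73IS
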