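import Pool.Agent.H73.IS.I0

/-!
Row Res (about 130 lines): two-torsion classes of Sha over L come from K.

PROOF. exists_two: over the algebraically closed field every point is a double: the roots e2, e3 of x^2 + a x + b give IsCub E 0 e2 e3 and IsCub.exists_two_nsmul (H10/Kummer.lean).
 two_up (compare two_torsion_up in H10/Iso2.lean): c = mk F, 2 F = ∂Q' (Sha.mk_eq_zero, isCobound_iff); Q with Q + Q = Q'; f := F - ∂Q, f τ + f τ = 0; f is in ShaZ (shaB_le), mk f = c. So Sl L V' f. Take e := mk (corZ hV f) = Sha.cor hV c; 2 • e = Sha.cor hV (2 • c) = 0 (map_nsmul).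
 Sha.res hV e = mk (resZ (corZ f)) and resF (corF f) τ = cor (inv_up hV) f (τ.restrictScalars K): resF = trans jj, corF = trans jj.symm; pm_pm and jj (jj.symm x) = x, (jj.trans τ).trans jj.symm conjugated back is τ.
 For τ over L: mv (τ.restrictScalars K) φ = φ for every φ : L →ₐ[K] L^al, because φ x ∈ L (L/K normal: φ = algebraMap ∘ s; AlgHom.restrictNormal or: lft φ (algebraMap L _ x) = algebraMap ((lft φ).restrictNormal L x)). So hh τ φ = cjg (lft φ) τ (ext, hh_apply) and
 term (inv_up hV) f τ φ = cj (inv_up hV) (lft φ) f τ (term: act h (lft (mv τ φ)) ..., rewrite mv τ φ = φ) = f τ + ∂S_φ (i0). Sum: card (L →ₐ[K] L^al) • f τ + ∂(∑ S_φ) τ; AlgHom.card: it is finrank K L, odd, so n • f τ = f τ. Hence resF (corF f) - f = ∂(∑ S_φ), a coboundary: res e = c.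
-/

set_option autoImplicit false
open scoped Classical

open WeierstrassCurve IsDedekindDomain NumberField Pool.Agent.H10

namespace H73IS

theorem exists_two {Ω : Type*} [Field Ω] [IsAlgClosed Ω] {E : WeierstrassCurve Ω} {a b : Ω}
    (h : IsTw E a b) (Q : E.toAffine.Point) : ∃ Q' : E.toAffine.Point, Q' + Q' = Q := by
  obtain ⟨s, hs⟩ := IsAlgClosed.exists_pow_nat_eq (a ^ 2 - 4 * b) (n := 2) (by norm_num)
  have h2 := h.two
  have hs0 : s ≠ 0 := by
    rintro rfl
    apply h.hd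
    rw [← hs]; ring
  have hprod : ((-a + s) / 2) * ((-a - s) / 2) = b := by
    field_simp
    linear_combination -hs
  have hcub : IsCub E 0 ((-a + s) / 2) ((-a - s) / 2) := by
    refine ⟨h.a₁, ?_, h.a₃, ?_, ?_, ?_, ?_, ?_, h2⟩
    · rw [h.a₂]; field_simp; ring
    · rw [h.a₄, hprod]; ring
    · rw [h.a₆]; ring
    · intro h0
      apply h.hb
      rw [← hprod, ← h0, zero_mul]
    · intro h0
      apply h.hb
      rw [← hprod, ← h0, mul_zero]
    · intro h0
      apply hs0
      have h3 : (-a + s) = (-a - s) := by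
        have := congrArg (fun z => z * 2) h0
        simpa [div_mul_cancel₀ _ h2] using this
      have h4 : 2 * s = 0 := by linear_combination h3
      exact (mul_eq_zero.1 h4).resolve_left h2
  exact hcub.exists_two_nsmul Q

section

variable {K L : Type} [Field K] [NumberField K] [Field L] [NumberField L] [Algebra K L]
  [IsGalois K L] {V : WeierstrassCurve K} {V' : WeierstrassCurve L} {a b : K}

theorem mv_fix (τ : AlgebraicClosure L ≃ₐ[L] AlgebraicClosure L)
    (φ : L →ₐ[K] AlgebraicClosure L) : mv (τ.restrictScalars K) φ = φ := by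
  ext x
  rw [mv_apply, ← lft_apply φ x, ← AlgEquiv.restrictNormal_commutes (lft φ) L x]
  exact τ.commutes _

private theorem Res_resF_corF (hV : V.map (algebraMap K L) = V') (f : Coch L V')
    (τ : AlgebraicClosure L ≃ₐ[L] AlgebraicClosure L) :
    resF hV (corF hV f) τ = cor (inv_up hV) f (τ.restrictScalars K) := by
  unfold resF corF Pool.Agent.H10.trans
  rw [pm_pm]
  have h4 : ((jj K L).symm.trans (((jj K L).trans (τ.restrictScalars K)).trans (jj K L).symm)).trans
      (jj K L).symm.symm = τ.restrictScalars K := by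
    ext x
    simp
  rw [h4]
  apply pm_eq_self
  intro x
  exact (jj K L).apply_symm_apply x

private theorem Res_term (hV : V.map (algebraMap K L) = V') (f : Coch L V')
    (τ : AlgebraicClosure L ≃ₐ[L] AlgebraicClosure L) (φ : L →ₐ[K] AlgebraicClosure L) :
    term (inv_up hV) f (τ.restrictScalars K) φ = cj (inv_up hV) (lft φ) f τ := by
  have h1 : hh (τ.restrictScalars K) φ = cjg (lft φ) τ := by
    ext y
    rw [hh_apply, mv_fix]
    rfl
  unfold term cj
  rw [h1, mv_fix]

theorem two_up (hodd : Odd (Module.finrank K L)) (h : IsTw V a b)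
    (hV : V.map (algebraMap K L) = V')
    (H : NewTrivQ K L (algebraMap K L a) (algebraMap K L b))
    (H' : NewTrivQ K L (algebraMap K L (-2 * a)) (algebraMap K L (a ^ 2 - 4 * b)))
    (c : Sha L V') (hc : 2 • c = 0) : ∃ e : Sha K V, 2 • e = 0 ∧ Sha.res hV e = c := by
  refine ⟨Sha.cor hV c, by rw [← map_nsmul, hc, map_zero], ?_⟩
  obtain ⟨F, rfl⟩ := Sha.mk_surjective c
  rw [← Sha.mk_nsmul, Sha.mk_eq_zero, isCobound_iff] at hc
  obtain ⟨Q', hQ'⟩ := hc
  have hIs : IsTw (V'.baseChange (AlgebraicClosure L)) (algebraMap L (AlgebraicClosure L) (algebraMap K L a))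
      (algebraMap L (AlgebraicClosure L) (algebraMap K L b)) := (h.up hV).up rfl
  obtain ⟨Q, hQ⟩ := exists_two hIs Q'
  have hB : (fun σ => act (inv_bc L V') σ Q - Q : Coch L V') ∈ ShaZ L V' :=
    shaB_le L V' ((isCobound_iff _).2 ⟨Q, fun σ => rfl⟩)
  set f : Coch L V' := F.1 - (fun σ => act (inv_bc L V') σ Q - Q) with hf
  have hfZ : f ∈ ShaZ L V' := (ShaZ L V').sub_mem F.2 hB
  have hFF : ∀ σ, F.1 σ + F.1 σ = act (inv_bc L V') σ Q' - Q' := by
    intro σ
    rw [← hQ' σ]
    change _ = (2 • F.1) σ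
    rw [Pi.smul_apply, two_nsmul]
  have hf2 : ∀ σ, f σ + f σ = 0 := by
    intro σ
    have e1 : f σ = F.1 σ - (act (inv_bc L V') σ Q - Q) := rfl
    rw [e1]
    have e2 : F.1 σ - (act (inv_bc L V') σ Q - Q) + (F.1 σ - (act (inv_bc L V') σ Q - Q)) =
        (F.1 σ + F.1 σ) - ((act (inv_bc L V') σ Q + act (inv_bc L V') σ Q) - (Q + Q)) := by abel
    rw [e2, hFF, ← map_add, hQ, sub_self]
  have hSl : Sl L V' f := ⟨hfZ.1, hfZ.2, hf2⟩
  have hmk : Sha.mk F = Sha.mk (⟨f, hfZ⟩ : ShaZ L V') := by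
    rw [← sub_eq_zero]
    have h3 : Sha.mk F - Sha.mk (⟨f, hfZ⟩ : ShaZ L V') = Sha.mk (F - (⟨f, hfZ⟩ : ShaZ L V')) := rfl
    rw [h3, Sha.mk_eq_zero, isCobound_iff]
    refine ⟨Q, fun σ => ?_⟩
    change F.1 σ - (F.1 σ - (act (inv_bc L V') σ Q - Q)) = _
    abel
  rw [hmk, Sha.cor_mk, Sha.res_mk, ← sub_eq_zero]
  have h3 : Sha.mk (resZ hV (corZ hV ⟨f, hfZ⟩)) - Sha.mk (⟨f, hfZ⟩ : ShaZ L V') =
      Sha.mk (resZ hV (corZ hV ⟨f, hfZ⟩) - ⟨f, hfZ⟩) := rfl
  rw [h3, Sha.mk_eq_zero, isCobound_iff]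
  choose S _ hS using fun φ : L →ₐ[K] AlgebraicClosure L => i0 hodd h hV H H' hSl (lft φ)
  refine ⟨∑ φ, S φ, fun τ => ?_⟩
  change resF hV (corF hV f) τ - f τ = _
  have hsum : cor (inv_up hV) f (τ.restrictScalars K) =
      ∑ φ : L →ₐ[K] AlgebraicClosure L, (f τ + (act (inv_bc L V') τ (S φ) - S φ)) := by
    unfold cor
    exact Finset.sum_congr rfl fun φ _ => (Res_term hV f τ φ).trans (hS φ τ)
  rw [Res_resF_corF, hsum, Finset.sum_add_distrib, Finset.sum_sub_distrib, Finset.sum_const, Finset.card_univ,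
    AlgHom.card K L (AlgebraicClosure L), map_sum]
  obtain ⟨m, hm⟩ := hodd
  have e5 : Module.finrank K L • f τ = f τ := by
    rw [hm, add_nsmul, one_nsmul, mul_comm, mul_nsmul, two_nsmul]
    have e6 : m • f τ + m • f τ = 0 := by
      rw [← nsmul_add, hf2, nsmul_zero]
    first
      | rw [e6, zero_add]
      | (rw [← nsmul_add, hf2, nsmul_zero, zero_add])
  rw [e5]
  abel

end

end H73IS
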